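import Mathlib

/-!
# Definitions: k-abelian equivalence and the number of classes containing an nth power
-/

namespace Pool.Agent.Lib.MP_7e3249_co

/-- The number of occurrences of `x` as a factor of `w`: the number of positions `i` of `w` such
that the factor of `w` of length `|x|` starting at position `i` is `x`. -/
def occ {α : Type} [DecidableEq α] (x w : List α) : ℕ :=
  ((Finset.range w.length).filter (fun i => (w.drop i).take x.length = x)).card

/-- `k`-abelian equivalence: every nonempty word of length at most `k` occurs equally often in `u`
and in `v`. -/
def KAbEq {α : Type} [DecidableEq α] (k : ℕ) (u v : List α) : Prop :=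
  ∀ x : List α, x ≠ [] → x.length ≤ k → occ x u = occ x v

/-- The `n`th power of the word `w`. -/
def wpow {α : Type} (n : ℕ) (w : List α) : List α := (List.replicate n w).flatten

/-- The set of `k`-abelian equivalence classes of words of length `N` over an alphabet with `m`
letters that contain at least one `n`th power. -/
def powerClasses (m k n N : ℕ) : Set (Set (List (Fin m))) :=
  {C | (∃ u : List (Fin m), u.length = N ∧ C = {v | v.length = N ∧ KAbEq k u v}) ∧
    ∃ w : List (Fin m), wpow n w ∈ C}

/-- `c_{m,k,n}(N)`, the number of `k`-abelian classes of words of length `N` that contain at least
one `n`th power. -/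
noncomputable def c (m k n N : ℕ) : ℕ := (powerClasses m k n N).ncard

end Pool.Agent.Lib.MP_7e3249_co
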