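import Mathlib
import Pool.Agent.Lib.MP_7e3249_co.Defs

/-!
# Basic facts on occurrences and classes
-/

namespace Pool.Agent.Lib.MP_7e3249_co

open List

variable {α : Type} [DecidableEq α]

lemma occ_nil (x : List α) : occ x ([] : List α) = 0 := by simp [occ]

lemma occ_cons (x : List α) (a : α) (w : List α) :
    occ x (a :: w) = (if (a :: w).take x.length = x then 1 else 0) + occ x w := by
  unfold occ
  rw [List.length_cons, Finset.card_filter, Finset.sum_range_succ', Finset.card_filter]
  simp only [List.drop_succ_cons, List.drop_zero]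
  rw [Nat.add_comm]

lemma KAbEq.symm {k : ℕ} {u v : List α} (h : KAbEq k u v) : KAbEq k v u :=
  fun x hx hk => (h x hx hk).symm

lemma KAbEq.trans {k : ℕ} {u v w : List α} (h : KAbEq k u v) (h' : KAbEq k v w) : KAbEq k u w :=
  fun x hx hk => (h x hx hk).trans (h' x hx hk)

lemma KAbEq.refl (k : ℕ) (u : List α) : KAbEq k u u := fun _ _ _ => rfl

omit [DecidableEq α] in
lemma length_wpow (n : ℕ) (w : List α) : (wpow n w).length = n * w.length := by
  simp [wpow]

omit [DecidableEq α] in
lemma wpow_succ (n : ℕ) (w : List α) : wpow (n + 1) w = w ++ wpow n w := by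
  simp [wpow, List.replicate_succ]

/-- If `inv` is a complete invariant of the classes of the powers `w^n` with `|w| = l`, then
the number of classes is the number of values of `inv`. -/
lemma c_eq_ncard_image {m k n l : ℕ} (hn : 1 ≤ n) {β : Type} (inv : List (Fin m) → β)
    (hinv : ∀ w w' : List (Fin m), w.length = l → w'.length = l →
      (KAbEq k (wpow n w) (wpow n w') ↔ inv w = inv w')) :
    c m k n (n * l) = (inv '' {w | w.length = l}).ncard := by
  classical
  -- the class of a word
  let cls : List (Fin m) → Set (List (Fin m)) := fun u => {v | v.length = n * l ∧ KAbEq k u v}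
  have hset : powerClasses m k n (n * l) = (fun w => cls (wpow n w)) '' {w | w.length = l} := by
    ext C
    constructor
    · rintro ⟨⟨u, hu, rfl⟩, w, hw⟩
      obtain ⟨hw1, hw2⟩ := hw
      rw [length_wpow] at hw1
      have hwl : w.length = l := Nat.eq_of_mul_eq_mul_left (by omega) hw1
      refine ⟨w, hwl, ?_⟩
      ext v
      constructor
      · rintro ⟨h1, h2⟩; exact ⟨h1, hw2.trans h2⟩
      · rintro ⟨h1, h2⟩; exact ⟨h1, hw2.symm.trans h2⟩
    · rintro ⟨w, hw, rfl⟩
      have hw' : w.length = l := hw
      have hl : (wpow n w).length = n * l := by rw [length_wpow, hw']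
      exact ⟨⟨wpow n w, hl, rfl⟩, w, ⟨hl, KAbEq.refl _ _⟩⟩
  have hcls : ∀ w w' : List (Fin m), w.length = l → w'.length = l →
      (cls (wpow n w) = cls (wpow n w') ↔ inv w = inv w') := by
    intro w w' hw hw'
    rw [← hinv w w' hw hw']
    constructor
    · intro h
      have hl : (wpow n w').length = n * l := by rw [length_wpow, hw']
      have : wpow n w' ∈ cls (wpow n w) := by rw [h]; exact ⟨hl, KAbEq.refl _ _⟩
      exact this.2
    · intro h
      ext v
      constructor
      · rintro ⟨h1, h2⟩; exact ⟨h1, h.symm.trans h2⟩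
      · rintro ⟨h1, h2⟩; exact ⟨h1, h.trans h2⟩
  unfold c
  rw [hset]
  -- both images have the same cardinality
  have h1 : (fun w => cls (wpow n w)) '' {w | w.length = l} =
      (fun b => ⋃ w ∈ {w : List (Fin m) | w.length = l ∧ inv w = b}, cls (wpow n w)) ''
        (inv '' {w | w.length = l}) := by
    rw [Set.image_image]
    apply Set.image_congr
    intro w hw
    have hw' : w.length = l := hw
    ext v
    simp only [Set.mem_iUnion, Set.mem_ofPred_eq]
    constructor
    · intro hv; exact ⟨w, ⟨hw', rfl⟩, hv⟩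
    · rintro ⟨w', ⟨h1, h2⟩, hv⟩
      rw [(hcls w' w h1 hw').mpr h2] at hv
      exact hv
  rw [h1]
  apply Set.InjOn.ncard_image
  rintro _ ⟨w, hw, rfl⟩ _ ⟨w', hw', rfl⟩ heq
  have hw0 : w.length = l := hw
  have hw0' : w'.length = l := hw'
  have key : ∀ w : List (Fin m), w.length = l →
      (⋃ w' ∈ {w' : List (Fin m) | w'.length = l ∧ inv w' = inv w}, cls (wpow n w')) =
      cls (wpow n w) := by
    intro w hw
    ext v
    simp only [Set.mem_iUnion, Set.mem_ofPred_eq]
    constructor
    · rintro ⟨w', ⟨h1, h2⟩, hv⟩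
      rw [(hcls w' w h1 hw).mpr h2] at hv
      exact hv
    · intro hv; exact ⟨w, ⟨hw, rfl⟩, hv⟩
  simp only at heq
  rw [key w hw0, key w' hw0'] at heq
  exact (hcls w w' hw0 hw0').mp heq

end Pool.Agent.Lib.MP_7e3249_co
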