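import Mathlib
import Pool.Agent.Lib.MP_7e3249_co.Basic

/-!
# The case of binary words and 2-abelian equivalence
-/

namespace Pool.Agent.Lib.MP_7e3249_co

open List

/-- first letter -/
def fst (w : List (Fin 2)) : Fin 2 := w.headD 0
/-- last letter -/
def lst (w : List (Fin 2)) : Fin 2 := w.getLastD 0

/-- indicator -/
def ind (P : Prop) [Decidable P] : ℕ := if P then 1 else 0

lemma fst_cons (a : Fin 2) (w : List (Fin 2)) : fst (a :: w) = a := rfl

lemma lst_cons_cons (a b : Fin 2) (w : List (Fin 2)) : lst (a :: b :: w) = lst (b :: w) := by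
  simp [lst]

lemma lst_singleton (a : Fin 2) : lst [a] = a := rfl

lemma lst_replicate (z : Fin 2) (i : ℕ) : lst (List.replicate (i + 1) z) = z := by
  induction i with
  | zero => rfl
  | succ i ih =>
    rw [List.replicate_succ, List.replicate_succ, lst_cons_cons, ← List.replicate_succ, ih]

lemma ind_split_right (x y a : Fin 2) :
    ind (x = a) = ind (x = a ∧ y = 0) + ind (x = a ∧ y = 1) := by
  unfold ind
  revert x y a
  decide

lemma ind_split_left (x y b : Fin 2) :
    ind (y = b) = ind (x = 0 ∧ y = b) + ind (x = 1 ∧ y = b) := by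
  unfold ind
  revert x y b
  decide

lemma ind_zero_one (y : Fin 2) (h : ind ((0 : Fin 2) = 0 ∧ y = 1) = 0) : y = 0 := by
  revert h
  unfold ind
  revert y
  decide

lemma ind_one_zero (y : Fin 2) (h : ind ((1 : Fin 2) = 1 ∧ y = 0) = 0) : y = 1 := by
  revert h
  unfold ind
  revert y
  decide

lemma ind_self (z : Fin 2) : ind (z = 0 ∧ z = 1) = 0 := by
  unfold ind
  revert z
  decide

lemma fin2_cases (p : Fin 2) : p = 0 ∨ p = 1 := by
  revert p
  decide

lemma occ_one_cons (a x : Fin 2) (w : List (Fin 2)) :
    occ [a] (x :: w) = ind (x = a) + occ [a] w := by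
  rw [occ_cons]
  simp [ind]

lemma occ_two_cons (a b x y : Fin 2) (w : List (Fin 2)) :
    occ [a, b] (x :: y :: w) = ind (x = a ∧ y = b) + occ [a, b] (y :: w) := by
  rw [occ_cons]
  simp [ind]

lemma occ_two_singleton (a b x : Fin 2) : occ [a, b] [x] = 0 := by
  rw [occ_cons, occ_nil]
  simp

lemma fst_append {u : List (Fin 2)} (hu : u ≠ []) (v : List (Fin 2)) : fst (u ++ v) = fst u := by
  cases u with
  | nil => exact absurd rfl hu
  | cons a u => rfl

lemma lst_append {v : List (Fin 2)} (hv : v ≠ []) (u : List (Fin 2)) : lst (u ++ v) = lst v := by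
  induction u with
  | nil => rfl
  | cons a u ih =>
    cases u with
    | nil =>
      cases v with
      | nil => exact absurd rfl hv
      | cons b v => exact lst_cons_cons a b v
    | cons b u =>
      rw [List.cons_append, List.cons_append, lst_cons_cons, ← List.cons_append]
      exact ih

lemma occ_one_append (a : Fin 2) (u v : List (Fin 2)) :
    occ [a] (u ++ v) = occ [a] u + occ [a] v := by
  induction u with
  | nil => simp [occ_nil]
  | cons x u ih => rw [List.cons_append, occ_one_cons, occ_one_cons, ih]; omega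

lemma occ_two_append (a b : Fin 2) {u v : List (Fin 2)} (hu : u ≠ []) (hv : v ≠ []) :
    occ [a, b] (u ++ v) = occ [a, b] u + occ [a, b] v + ind (lst u = a ∧ fst v = b) := by
  induction u with
  | nil => exact absurd rfl hu
  | cons x u ih =>
    cases u with
    | nil =>
      cases v with
      | nil => exact absurd rfl hv
      | cons y v =>
        rw [List.cons_append, List.nil_append, occ_two_cons, occ_two_singleton, lst_singleton,
          fst_cons]
        omega
    | cons y u =>
      rw [List.cons_append, List.cons_append, occ_two_cons, occ_two_cons, lst_cons_cons,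
        ← List.cons_append, ih (by simp)]
      omega

lemma wpow_ne_nil {n : ℕ} {w : List (Fin 2)} (hn : 1 ≤ n) (hw : w ≠ []) : wpow n w ≠ [] := by
  intro h
  have := congrArg List.length h
  rw [length_wpow] at this
  simp at this
  rcases this with h | h
  · omega
  · exact hw h

lemma fst_wpow {n : ℕ} {w : List (Fin 2)} (hn : 1 ≤ n) (hw : w ≠ []) : fst (wpow n w) = fst w := by
  obtain ⟨n', rfl⟩ : ∃ n', n = n' + 1 := ⟨n - 1, by omega⟩
  rw [wpow_succ, fst_append hw]

lemma lst_wpow {n : ℕ} {w : List (Fin 2)} (hn : 1 ≤ n) (hw : w ≠ []) : lst (wpow n w) = lst w := by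
  induction n, hn using Nat.le_induction with
  | base => simp [wpow]
  | succ n hn ih => rw [wpow_succ, lst_append (wpow_ne_nil hn hw), ih]

lemma occ_one_wpow (a : Fin 2) (n : ℕ) (w : List (Fin 2)) :
    occ [a] (wpow n w) = n * occ [a] w := by
  induction n with
  | zero => simp [wpow, occ_nil]
  | succ n ih => rw [wpow_succ, occ_one_append, ih]; ring

lemma occ_two_wpow (a b : Fin 2) {n : ℕ} (hn : 1 ≤ n) {w : List (Fin 2)} (hw : w ≠ []) :
    occ [a, b] (wpow n w) + ind (lst w = a ∧ fst w = b) =
      n * (occ [a, b] w + ind (lst w = a ∧ fst w = b)) := by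
  induction n, hn using Nat.le_induction with
  | base => simp [wpow]
  | succ n hn ih =>
    rw [wpow_succ, occ_two_append a b hw (wpow_ne_nil hn hw), fst_wpow hn hw]
    linarith

/-- counting a letter by its right neighbours -/
lemma occ_right (a : Fin 2) {w : List (Fin 2)} (hw : w ≠ []) :
    occ [a] w = occ [a, 0] w + occ [a, 1] w + ind (lst w = a) := by
  induction w with
  | nil => exact absurd rfl hw
  | cons x w ih =>
    cases w with
    | nil => rw [occ_one_cons, occ_nil, occ_two_singleton, occ_two_singleton, lst_singleton]; omega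
    | cons y w =>
      rw [occ_one_cons, occ_two_cons, occ_two_cons, lst_cons_cons, ih (by simp)]
      have := ind_split_right x y a
      omega

/-- counting a letter by its left neighbours -/
lemma occ_left (b : Fin 2) {w : List (Fin 2)} (hw : w ≠ []) :
    occ [b] w = occ [0, b] w + occ [1, b] w + ind (fst w = b) := by
  induction w with
  | nil => exact absurd rfl hw
  | cons x w ih =>
    cases w with
    | nil => rw [occ_one_cons, occ_nil, occ_two_singleton, occ_two_singleton, fst_cons]; omega
    | cons y w =>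
      rw [occ_one_cons, occ_two_cons, occ_two_cons, fst_cons, ih (by simp), fst_cons]
      have := ind_split_left x y b
      omega

lemma occ_sum (w : List (Fin 2)) : occ [0] w + occ [1] w = w.length := by
  induction w with
  | nil => simp [occ_nil]
  | cons x w ih =>
    rw [occ_one_cons, occ_one_cons, List.length_cons]
    have : ind (x = 0) + ind (x = 1) = 1 := by
      unfold ind
      revert x
      decide
    omega

/-- The invariant: first letter, last letter, number of ones, cyclic number of factors `01`. -/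
def inv (w : List (Fin 2)) : Fin 2 × Fin 2 × ℕ × ℕ :=
  (fst w, lst w, occ [1] w, occ [0, 1] w + ind (lst w = 0 ∧ fst w = 1))

lemma ind_inj {a b : Fin 2} (h : ind (a = 0) = ind (b = 0)) : a = b := by
  revert h
  unfold ind
  revert a b
  decide

lemma inv_iff {n l : ℕ} (hn : 1 ≤ n) (hl : 1 ≤ l) (w w' : List (Fin 2)) (hw : w.length = l)
    (hw' : w'.length = l) : KAbEq 2 (wpow n w) (wpow n w') ↔ inv w = inv w' := by
  have hne : w ≠ [] := by
    rintro rfl; simp at hw; omega
  have hne' : w' ≠ [] := by
    rintro rfl; simp at hw'; omega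
  constructor
  · intro h
    have h0 := h [0] (by simp) (by simp)
    have h1 := h [1] (by simp) (by simp)
    have h00 := h [0, 0] (by simp) (by simp)
    have h01 := h [0, 1] (by simp) (by simp)
    have h10 := h [1, 0] (by simp) (by simp)
    have r := occ_right 0 (wpow_ne_nil hn hne)
    have r' := occ_right 0 (wpow_ne_nil hn hne')
    have q := occ_left 0 (wpow_ne_nil hn hne)
    have q' := occ_left 0 (wpow_ne_nil hn hne')
    rw [lst_wpow hn hne] at r
    rw [lst_wpow hn hne'] at r'
    rw [fst_wpow hn hne] at q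
    rw [fst_wpow hn hne'] at q'
    have hlst : lst w = lst w' := ind_inj (by omega)
    have hfst : fst w = fst w' := ind_inj (by omega)
    have e1 : occ [1] w = occ [1] w' := by
      rw [occ_one_wpow, occ_one_wpow] at h1
      exact Nat.eq_of_mul_eq_mul_left (by omega) h1
    have e2 := occ_two_wpow 0 1 hn hne
    have e2' := occ_two_wpow 0 1 hn hne'
    rw [hlst, hfst, h01, e2'] at e2
    have e3 := Nat.eq_of_mul_eq_mul_left (show 0 < n by omega) e2
    unfold inv
    rw [hlst, hfst, e1, e3]
  · intro h
    unfold inv at h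
    simp only [Prod.mk.injEq] at h
    obtain ⟨hf, hl', h1, h01⟩ := h
    rw [hf, hl'] at h01
    have e01 : occ [0, 1] w = occ [0, 1] w' := by omega
    have s := occ_sum w
    have s' := occ_sum w'
    have e0 : occ [0] w = occ [0] w' := by omega
    have r0 := occ_right 0 hne
    have r0' := occ_right 0 hne'
    have r1 := occ_right 1 hne
    have r1' := occ_right 1 hne'
    have q1 := occ_left 1 hne
    have q1' := occ_left 1 hne'
    rw [hl'] at r0 r1
    rw [hf] at q1
    have e00 : occ [0, 0] w = occ [0, 0] w' := by omega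
    have e11 : occ [1, 1] w = occ [1, 1] w' := by omega
    have e10 : occ [1, 0] w = occ [1, 0] w' := by omega
    have two : ∀ a b : Fin 2, occ [a, b] w = occ [a, b] w' := by
      intro a b
      fin_cases a <;> fin_cases b
      · exact e00
      · exact e01
      · exact e10
      · exact e11
    have one : ∀ a : Fin 2, occ [a] w = occ [a] w' := by
      intro a
      fin_cases a
      · exact e0
      · exact h1
    intro x hx hk
    match x, hx, hk with
    | [a], _, _ => rw [occ_one_wpow, occ_one_wpow, one a]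
    | [a, b], _, _ =>
      have e2 := occ_two_wpow a b hn hne
      have e2' := occ_two_wpow a b hn hne'
      rw [hl', hf, two a b] at e2
      omega
    | _ :: _ :: _ :: _, _, hk => simp at hk

/-! ### The values of the invariant -/

lemma const_zero {w : List (Fin 2)} (hw : w ≠ []) (h01 : occ [0, 1] w = 0) (hf : fst w = 0) :
    occ [1] w = 0 := by
  induction w with
  | nil => exact absurd rfl hw
  | cons x w ih =>
    cases w with
    | nil =>
      rw [fst_cons] at hf
      subst hf
      rw [occ_one_cons, occ_nil]; rfl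
    | cons y w =>
      rw [fst_cons] at hf
      subst hf
      rw [occ_two_cons] at h01
      have hy : y = 0 := ind_zero_one y (by omega)
      subst hy
      rw [occ_one_cons, ih (by simp) (by omega) rfl]; rfl

lemma const_one {w : List (Fin 2)} (hw : w ≠ []) (h10 : occ [1, 0] w = 0) (hf : fst w = 1) :
    occ [0] w = 0 := by
  induction w with
  | nil => exact absurd rfl hw
  | cons x w ih =>
    cases w with
    | nil =>
      rw [fst_cons] at hf
      subst hf
      rw [occ_one_cons, occ_nil]; rfl
    | cons y w =>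
      rw [fst_cons] at hf
      subst hf
      rw [occ_two_cons] at h10
      have hy : y = 1 := ind_one_zero y (by omega)
      subst hy
      rw [occ_one_cons, ih (by simp) (by omega) rfl]; rfl

/-- triangle -/
def tri (l : ℕ) : Finset (ℕ × ℕ) :=
  ((Finset.range (l + 1)) ×ˢ (Finset.range (l + 1))).filter
    (fun q => 1 ≤ q.2 ∧ q.2 ≤ q.1 ∧ q.1 + q.2 ≤ l)

lemma mem_tri (l : ℕ) (q : ℕ × ℕ) : q ∈ tri l ↔ 1 ≤ q.2 ∧ q.2 ≤ q.1 ∧ q.1 + q.2 ≤ l := by
  simp only [tri, Finset.mem_filter, Finset.mem_product, Finset.mem_range]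
  constructor
  · exact fun h => h.2
  · intro h; refine ⟨⟨?_, ?_⟩, h⟩ <;> omega

lemma tri_succ_succ (l : ℕ) : (tri (l + 2)).card = (l + 1) + (tri l).card := by
  have h : tri (l + 2) = ((Finset.Icc 1 (l + 1)).image (fun o => (o, 1))) ∪
      ((tri l).image (fun q => (q.1 + 1, q.2 + 1))) := by
    ext ⟨o, c⟩
    simp only [Finset.mem_union, Finset.mem_image, mem_tri, Finset.mem_Icc, Prod.mk.injEq,
      Prod.exists]
    constructor
    · rintro ⟨h1, h2, h3⟩
      by_cases hc : c = 1
      · left; exact ⟨o, ⟨by omega, by omega⟩, rfl, hc.symm⟩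
      · right; exact ⟨o - 1, c - 1, ⟨by omega, by omega, by omega⟩, by omega, by omega⟩
    · rintro (⟨o', ⟨h1, h2⟩, rfl, rfl⟩ | ⟨o', c', ⟨h1, h2, h3⟩, rfl, rfl⟩)
      · omega
      · omega
  rw [h, Finset.card_union_of_disjoint]
  · rw [Finset.card_image_of_injective, Finset.card_image_of_injective, Nat.card_Icc]
    · omega
    · rintro ⟨a, b⟩ ⟨a', b'⟩ hab
      simp only [Prod.mk.injEq] at hab
      exact Prod.ext (by simpa using hab.1) (by simpa using hab.2)
    · intro a b hab
      simpa using hab
  · rw [Finset.disjoint_left]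
    rintro ⟨o, c⟩ h1 h2
    simp only [Finset.mem_image, mem_tri, Finset.mem_Icc, Prod.mk.injEq, Prod.exists] at h1 h2
    obtain ⟨o', -, -, h1⟩ := h1
    obtain ⟨o'', c'', h3, -, h2⟩ := h2
    omega

lemma tri_card (l : ℕ) : 2 * ((tri (l + 1)).card + (tri l).card) = (l + 1) * l := by
  induction l with
  | zero => decide
  | succ l ih => rw [tri_succ_succ]; linarith

/-- The set of values of the invariant. -/
def vals (l : ℕ) : Finset (Fin 2 × Fin 2 × ℕ × ℕ) :=
  ((tri l).image (fun q => (0, 1, q.1, q.2))) ∪
  (((tri l).image (fun q => (1, 0, q.1, q.2))) ∪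
  (((insert (0, 0) (tri (l - 1))).image (fun q => (0, 0, q.1, q.2))) ∪
  ((insert (l - 1, 0) (tri (l - 1))).image (fun q => (1, 1, q.1 + 1, q.2)))))

lemma vals_card (l : ℕ) (hl : 1 ≤ l) : (vals l).card = l ^ 2 - l + 2 := by
  obtain ⟨l, rfl⟩ : ∃ l', l = l' + 1 := ⟨l - 1, by omega⟩
  have hinj : ∀ a b : Fin 2, Function.Injective
      (fun q : ℕ × ℕ => ((a, b, q.1, q.2) : Fin 2 × Fin 2 × ℕ × ℕ)) := by
    rintro a b ⟨x, y⟩ ⟨x', y'⟩ h
    simpa using h
  have hinj' : Function.Injective
      (fun q : ℕ × ℕ => ((1, 1, q.1 + 1, q.2) : Fin 2 × Fin 2 × ℕ × ℕ)) := by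
    rintro ⟨x, y⟩ ⟨x', y'⟩ h
    simpa using h
  unfold vals
  rw [Finset.card_union_of_disjoint, Finset.card_union_of_disjoint,
    Finset.card_union_of_disjoint, Finset.card_image_of_injective _ (hinj 0 1),
    Finset.card_image_of_injective _ (hinj 1 0), Finset.card_image_of_injective _ (hinj 0 0),
    Finset.card_image_of_injective _ hinj', Nat.add_sub_cancel, Finset.card_insert_of_notMem,
    Finset.card_insert_of_notMem]
  · have h := tri_card l
    have h2 : (l + 1) ^ 2 - (l + 1) = (l + 1) * l := by
      rw [pow_two, Nat.mul_succ, Nat.add_sub_cancel]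
    rw [h2]
    omega
  · rw [mem_tri]; simp
  · rw [mem_tri]; simp
  · rw [Finset.disjoint_left]
    rintro ⟨a, b, x, y⟩ h1 h2
    simp only [Finset.mem_image, Prod.mk.injEq, Prod.exists] at h1 h2
    obtain ⟨x1, y1, -, h1, -⟩ := h1
    obtain ⟨x2, y2, -, h2, -⟩ := h2
    rw [← h1] at h2
    exact absurd h2 (by decide)
  · rw [Finset.disjoint_left]
    rintro ⟨a, b, x, y⟩ h1 h2
    simp only [Finset.mem_union, Finset.mem_image, Prod.mk.injEq, Prod.exists] at h1 h2
    obtain ⟨x1, y1, -, h1, h1', -⟩ := h1
    rcases h2 with ⟨x2, y2, -, h2, h2', -⟩ | ⟨x2, y2, -, h2, h2', -⟩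
    · rw [← h1] at h2; exact absurd h2 (by decide)
    · rw [← h1'] at h2'; exact absurd h2' (by decide)
  · rw [Finset.disjoint_left]
    rintro ⟨a, b, x, y⟩ h1 h2
    simp only [Finset.mem_union, Finset.mem_image, Prod.mk.injEq, Prod.exists] at h1 h2
    obtain ⟨x1, y1, -, h1, h1', -⟩ := h1
    rcases h2 with ⟨x2, y2, -, h2, h2', -⟩ | ⟨x2, y2, -, h2, h2', -⟩ | ⟨x2, y2, -, h2, h2', -⟩
    · rw [← h1] at h2; exact absurd h2 (by decide)
    · rw [← h1'] at h2'; exact absurd h2' (by decide)
    · rw [← h1] at h2; exact absurd h2 (by decide)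

/-- prefixing `(01)^i` -/
def zo : ℕ → List (Fin 2) → List (Fin 2)
  | 0, t => t
  | i + 1, t => 0 :: 1 :: zo i t

/-- prefixing `(10)^i` -/
def oz : ℕ → List (Fin 2) → List (Fin 2)
  | 0, t => t
  | i + 1, t => 1 :: 0 :: oz i t

lemma zo_props (i : ℕ) (t : List (Fin 2)) (h : List (Fin 2)) (ht : t = 0 :: h) :
    (zo i t).length = 2 * i + t.length ∧ fst (zo i t) = 0 ∧ lst (zo i t) = lst t ∧
      occ [1] (zo i t) = i + occ [1] t ∧ occ [0, 1] (zo i t) = i + occ [0, 1] t ∧
      ∃ h', zo i t = 0 :: h' := by
  induction i with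
  | zero => subst ht; simp [zo, fst]
  | succ i ih =>
    obtain ⟨h1, h2, h3, h4, h5, h', h6⟩ := ih
    simp only [zo]
    refine ⟨?_, rfl, ?_, ?_, ?_, _, rfl⟩
    · simp only [List.length_cons, h1]; omega
    · rw [h6, lst_cons_cons, lst_cons_cons, ← h6, h3]
    · rw [occ_one_cons, occ_one_cons, h4]
      have : ind ((0 : Fin 2) = 1) = 0 := rfl
      have : ind ((1 : Fin 2) = 1) = 1 := rfl
      omega
    · rw [occ_two_cons, h6, occ_two_cons, ← h6, h5]
      have : ind ((0 : Fin 2) = 0 ∧ (1 : Fin 2) = 1) = 1 := rfl
      have : ind ((1 : Fin 2) = 0 ∧ (0 : Fin 2) = 1) = 0 := rfl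
      omega

lemma oz_props (i : ℕ) (t : List (Fin 2)) (h : List (Fin 2)) (ht : t = 1 :: h) :
    (oz i t).length = 2 * i + t.length ∧ fst (oz i t) = 1 ∧ lst (oz i t) = lst t ∧
      occ [1] (oz i t) = i + occ [1] t ∧ occ [0, 1] (oz i t) = i + occ [0, 1] t ∧
      ∃ h', oz i t = 1 :: h' := by
  induction i with
  | zero => subst ht; simp [oz, fst]
  | succ i ih =>
    obtain ⟨h1, h2, h3, h4, h5, h', h6⟩ := ih
    simp only [oz]
    refine ⟨?_, rfl, ?_, ?_, ?_, _, rfl⟩
    · simp only [List.length_cons, h1]; omega
    · rw [h6, lst_cons_cons, lst_cons_cons, ← h6, h3]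
    · rw [occ_one_cons, occ_one_cons, h4]
      have : ind ((0 : Fin 2) = 1) = 0 := rfl
      have : ind ((1 : Fin 2) = 1) = 1 := rfl
      omega
    · rw [occ_two_cons, h6, occ_two_cons, ← h6, h5]
      have : ind ((1 : Fin 2) = 0 ∧ (0 : Fin 2) = 1) = 0 := rfl
      have : ind ((0 : Fin 2) = 0 ∧ (1 : Fin 2) = 1) = 1 := rfl
      omega

lemma occ01_replicate (z : Fin 2) (i : ℕ) (t : List (Fin 2)) :
    occ [0, 1] (List.replicate (i + 1) z ++ t) = occ [0, 1] (z :: t) := by
  induction i with
  | zero => rfl
  | succ i ih =>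
    rw [List.replicate_succ, List.cons_append, List.replicate_succ, List.cons_append,
      occ_two_cons, ← List.cons_append, ← List.replicate_succ, ih]
    have := ind_self z
    omega

lemma occ1_replicate (z : Fin 2) (i : ℕ) (t : List (Fin 2)) :
    occ [1] (List.replicate i z ++ t) = i * ind (z = 1) + occ [1] t := by
  induction i with
  | zero => simp
  | succ i ih =>
    rw [List.replicate_succ, List.cons_append, occ_one_cons, ih]
    ring

theorem image_inv (l : ℕ) (hl : 1 ≤ l) : inv '' {w | w.length = l} = (vals l : Set _) := by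
  ext ⟨p, s, o, c⟩
  constructor
  · rintro ⟨w, hw, hinv⟩
    have hw' : w.length = l := hw
    have hne : w ≠ [] := by
      rintro rfl; simp at hw'; omega
    unfold inv at hinv
    simp only [Prod.mk.injEq] at hinv
    obtain ⟨hf, hl', ho, hc⟩ := hinv
    have s0 := occ_sum w
    have r0 := occ_right 0 hne
    have r1 := occ_right 1 hne
    have q0 := occ_left 0 hne
    have q1 := occ_left 1 hne
    rw [Finset.mem_coe]
    unfold vals
    simp only [Finset.mem_union, Finset.mem_image, Finset.mem_insert, Prod.mk.injEq, Prod.exists,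
      mem_tri]
    rw [hf, hl'] at hc
    rw [hl'] at r0 r1
    rw [hf] at q0 q1
    have i00 : ind ((0 : Fin 2) = 0) = 1 := rfl
    have i01 : ind ((0 : Fin 2) = 1) = 0 := rfl
    have i10 : ind ((1 : Fin 2) = 0) = 0 := rfl
    have i11 : ind ((1 : Fin 2) = 1) = 1 := rfl
    have j00 : ind ((0 : Fin 2) = 0 ∧ (0 : Fin 2) = 1) = 0 := rfl
    have j10 : ind ((1 : Fin 2) = 0 ∧ (0 : Fin 2) = 1) = 0 := rfl
    have j01 : ind ((0 : Fin 2) = 0 ∧ (1 : Fin 2) = 1) = 1 := rfl
    have j11 : ind ((1 : Fin 2) = 0 ∧ (1 : Fin 2) = 1) = 0 := rfl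
    rcases fin2_cases p with rfl | rfl <;> rcases fin2_cases s with rfl | rfl
    · -- p = 0, s = 0
      right; right; left
      refine ⟨o, c, ?_, rfl, rfl, rfl, rfl⟩
      by_cases hc0 : c = 0
      · left
        have := const_zero hne (by omega) hf
        exact ⟨by omega, hc0⟩
      · right; refine ⟨by omega, by omega, by omega⟩
    · left
      refine ⟨o, c, ⟨by omega, by omega, by omega⟩, rfl, rfl, rfl, rfl⟩
    · right; left
      refine ⟨o, c, ⟨by omega, by omega, by omega⟩, rfl, rfl, rfl, rfl⟩
    · right; right; right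
      refine ⟨o - 1, c, ?_, rfl, rfl, by omega, rfl⟩
      by_cases hc0 : c = 0
      · left
        have := const_one hne (by omega) hf
        exact ⟨by omega, hc0⟩
      · right; refine ⟨by omega, by omega, by omega⟩
  · intro h
    rw [Finset.mem_coe] at h
    unfold vals at h
    simp only [Finset.mem_union, Finset.mem_image, Finset.mem_insert, Prod.mk.injEq, Prod.exists,
      mem_tri] at h
    have i01 : ind ((0 : Fin 2) = 1) = 0 := rfl
    have i11 : ind ((1 : Fin 2) = 1) = 1 := rfl
    have j00 : ind ((0 : Fin 2) = 0 ∧ (0 : Fin 2) = 1) = 0 := rfl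
    have j10 : ind ((1 : Fin 2) = 0 ∧ (0 : Fin 2) = 1) = 0 := rfl
    have j01 : ind ((0 : Fin 2) = 0 ∧ (1 : Fin 2) = 1) = 1 := rfl
    have j11 : ind ((1 : Fin 2) = 0 ∧ (1 : Fin 2) = 1) = 0 := rfl
    rcases h with ⟨o', c', ⟨h1, h2, h3⟩, rfl, rfl, rfl, rfl⟩ |
      ⟨o', c', ⟨h1, h2, h3⟩, rfl, rfl, rfl, rfl⟩ | ⟨o', c', h, rfl, rfl, rfl, rfl⟩ |
      ⟨o', c', h, rfl, rfl, rfl, rfl⟩
    · -- (0,1): 0^{a+1} 1^{b+1}, a = l - o - c, b = o - c
      obtain ⟨p1, p2, p3, p4, p5, -⟩ := zo_props (c' - 1)
        (List.replicate (l - o' - c' + 1) 0 ++ List.replicate (o' - c' + 1) 1)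
        (List.replicate (l - o' - c') 0 ++ List.replicate (o' - c' + 1) 1)
        (by rw [List.replicate_succ, List.cons_append])
      refine ⟨(zo (c' - 1) (List.replicate (l - o' - c' + 1) 0 ++ List.replicate (o' - c' + 1) 1)), ?_, ?_⟩
      rotate_left
      · unfold inv
        rw [p2, p3, p4, p5, lst_append (by simp), occ1_replicate, occ01_replicate]
        have e1 : lst (List.replicate (o' - c' + 1) (1 : Fin 2)) = 1 := lst_replicate 1 _
        have e2 : occ [1] (List.replicate (o' - c' + 1) (1 : Fin 2)) = o' - c' + 1 := by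
          have := occ1_replicate 1 (o' - c' + 1) []
          rw [List.append_nil, occ_nil] at this
          rw [this, i11]; simp
        have e3 : occ [0, 1] (0 :: List.replicate (o' - c' + 1) (1 : Fin 2)) = 1 := by
          have := occ01_replicate 1 (o' - c') []
          rw [List.append_nil, occ_two_singleton] at this
          rw [List.replicate_succ, occ_two_cons, ← List.replicate_succ, this]; rfl
        rw [e1, e2, e3, j10]
        simp only [Prod.mk.injEq, true_and, i01]
        omega
      · show List.length _ = l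
        rw [p1]; simp; omega
    · -- (1,0): 1^{b+1} 0^{a+1}
      obtain ⟨p1, p2, p3, p4, p5, -⟩ := oz_props (c' - 1)
        (List.replicate (o' - c' + 1) 1 ++ List.replicate (l - o' - c' + 1) 0)
        (List.replicate (o' - c') 1 ++ List.replicate (l - o' - c' + 1) 0)
        (by rw [List.replicate_succ, List.cons_append])
      refine ⟨(oz (c' - 1) (List.replicate (o' - c' + 1) 1 ++ List.replicate (l - o' - c' + 1) 0)), ?_, ?_⟩
      rotate_left
      · unfold inv
        rw [p2, p3, p4, p5, lst_append (by simp), occ1_replicate, occ01_replicate]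
        have e1 : lst (List.replicate (l - o' - c' + 1) (0 : Fin 2)) = 0 := lst_replicate 0 _
        have e2 : occ [1] (List.replicate (l - o' - c' + 1) (0 : Fin 2)) = 0 := by
          have := occ1_replicate 0 (l - o' - c' + 1) []
          rw [List.append_nil, occ_nil] at this
          rw [this, i01]; simp
        have e3 : occ [0, 1] (1 :: List.replicate (l - o' - c' + 1) (0 : Fin 2)) = 0 := by
          have := occ01_replicate 0 (l - o' - c') []
          rw [List.append_nil, occ_two_singleton] at this
          rw [List.replicate_succ, occ_two_cons, ← List.replicate_succ, this]; rfl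
        rw [e1, e2, e3, j01, i11]
        simp only [Prod.mk.injEq, true_and]
        omega
      · show List.length _ = l
        rw [p1]; simp; omega
    · -- (0,0)
      rcases h with ⟨rfl, rfl⟩ | ⟨h1, h2, h3⟩
      · refine ⟨List.replicate l 0, by simp, ?_⟩
        obtain ⟨l, rfl⟩ : ∃ l', l = l' + 1 := ⟨l - 1, by omega⟩
        unfold inv
        have e1 : lst (List.replicate (l + 1) (0 : Fin 2)) = 0 := lst_replicate 0 l
        have e0 : fst (List.replicate (l + 1) (0 : Fin 2)) = 0 := rfl
        have e2 : occ [1] (List.replicate (l + 1) (0 : Fin 2)) = 0 := by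
          have := occ1_replicate 0 (l + 1) []
          rw [List.append_nil, occ_nil] at this
          rw [this, i01]; simp
        have e3 : occ [0, 1] (List.replicate (l + 1) (0 : Fin 2)) = 0 := by
          have := occ01_replicate 0 l []
          rw [List.append_nil, occ_two_singleton] at this
          exact this
        rw [e0, e1, e2, e3, j00]
      · -- 0^{a} 1^{b+1} 0, a = l - o - c ≥ 1
        obtain ⟨p1, p2, p3, p4, p5, -⟩ := zo_props (c' - 1)
          (List.replicate (l - o' - c' - 1 + 1) 0 ++ (List.replicate (o' - c' + 1) 1 ++ [0]))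
          (List.replicate (l - o' - c' - 1) 0 ++ (List.replicate (o' - c' + 1) 1 ++ [0]))
          (by rw [List.replicate_succ, List.cons_append])
        refine ⟨(zo (c' - 1)
          (List.replicate (l - o' - c' - 1 + 1) 0 ++ (List.replicate (o' - c' + 1) 1 ++ [0]))), ?_, ?_⟩
        rotate_left
        · unfold inv
          rw [p2, p3, p4, p5, lst_append (by simp), lst_append (by simp), occ1_replicate,
            occ1_replicate, occ01_replicate, lst_singleton, occ_one_cons, occ_nil]
          have e3 : occ [0, 1] (0 :: (List.replicate (o' - c' + 1) (1 : Fin 2) ++ [0])) = 1 := by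
            have := occ01_replicate 1 (o' - c') [0]
            rw [List.replicate_succ, List.cons_append, occ_two_cons, ← List.cons_append,
              ← List.replicate_succ, this, occ_two_cons, occ_two_singleton]; rfl
          rw [e3, j00, i11, i01]
          simp only [Prod.mk.injEq, true_and]
          omega
        · show List.length _ = l
          rw [p1]; simp; omega
    · -- (1,1)
      rcases h with ⟨rfl, rfl⟩ | ⟨h1, h2, h3⟩
      · refine ⟨List.replicate l 1, by simp, ?_⟩
        obtain ⟨l, rfl⟩ : ∃ l', l = l' + 1 := ⟨l - 1, by omega⟩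
        unfold inv
        have e1 : lst (List.replicate (l + 1) (1 : Fin 2)) = 1 := lst_replicate 1 l
        have e0 : fst (List.replicate (l + 1) (1 : Fin 2)) = 1 := rfl
        have e2 : occ [1] (List.replicate (l + 1) (1 : Fin 2)) = l + 1 := by
          have := occ1_replicate 1 (l + 1) []
          rw [List.append_nil, occ_nil] at this
          rw [this, i11]; simp
        have e3 : occ [0, 1] (List.replicate (l + 1) (1 : Fin 2)) = 0 := by
          have := occ01_replicate 1 l []
          rw [List.append_nil, occ_two_singleton] at this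
          exact this
        rw [e0, e1, e2, e3, j11]
        simp
      · -- 1^{b} 0^{a+1} 1, o = o' + 1, b = o - c = o' + 1 - c ≥ 1, a = l - o - c
        obtain ⟨p1, p2, p3, p4, p5, -⟩ := oz_props (c' - 1)
          (List.replicate (o' - c' + 1) 1 ++ (List.replicate (l - 1 - o' - c' + 1) 0 ++ [1]))
          (List.replicate (o' - c') 1 ++ (List.replicate (l - 1 - o' - c' + 1) 0 ++ [1]))
          (by rw [List.replicate_succ, List.cons_append])
        refine ⟨(oz (c' - 1)
          (List.replicate (o' - c' + 1) 1 ++ (List.replicate (l - 1 - o' - c' + 1) 0 ++ [1]))), ?_, ?_⟩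
        rotate_left
        · unfold inv
          rw [p2, p3, p4, p5, lst_append (by simp), lst_append (by simp), occ1_replicate,
            occ1_replicate, occ01_replicate, lst_singleton, occ_one_cons, occ_nil]
          have e3 : occ [0, 1] (1 :: (List.replicate (l - 1 - o' - c' + 1) (0 : Fin 2) ++ [1])) =
              1 := by
            have := occ01_replicate 0 (l - 1 - o' - c') [1]
            rw [List.replicate_succ, List.cons_append, occ_two_cons, ← List.cons_append,
              ← List.replicate_succ, this, occ_two_cons, occ_two_singleton]; rfl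
          rw [e3, j11, i11, i01]
          simp only [Prod.mk.injEq, true_and]
          omega
        · show List.length _ = l
          rw [p1]; simp; omega

theorem c_two_two (n l : ℕ) (hn : 1 ≤ n) (hl : 1 ≤ l) : c 2 2 n (n * l) = l ^ 2 - l + 2 := by
  rw [c_eq_ncard_image hn inv (fun w w' hw hw' => inv_iff hn hl w w' hw hw'), image_inv l hl,
    Set.ncard_coe_finset, vals_card l hl]

end Pool.Agent.Lib.MP_7e3249_co
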