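import Mathlib

/-!
# Cycles, paths, stacks and configurations

The edges of the de Bruijn graph of order `k` over `Fin m` are the words of length `k`; the edge
`x` leads from `x.dropLast` (the source `s x`) to `x.tail` (the target `t x`), words of length
`k - 1`. The definitions are stated for arbitrary source and target maps `s t : E → V`.
-/

set_option autoImplicit false

namespace Pool.Agent.Lib.MP_7e3249_co

variable {V E : Type*} (s t : E → V)

/-- The multiset `f` of edges is a flow of value one from `u` to `v`: every vertex is left as often
as it is entered, except that `u` is left once more and `v` is entered once more (if `u = v`, every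
vertex is left as often as it is entered). -/
def Flow (u v : V) (f : Multiset E) : Prop := v ::ₘ f.map s = u ::ₘ f.map t

/-- The set `C` of edges is an (elementary) cycle: a minimal nonempty set of edges that enters and
leaves every vertex equally often. -/
def IsCycle (C : Finset E) : Prop :=
  C.Nonempty ∧ C.val.map s = C.val.map t ∧
    ∀ S : Finset E, S ⊂ C → S.Nonempty → S.val.map s ≠ S.val.map t

/-- The set `P` of edges is an (elementary) path from `u` to `v`: a minimal set of edges which is a
flow from `u` to `v` (the empty set if `u = v`). -/
def IsPath (u v : V) (P : Finset E) : Prop :=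
  Flow s t u v P.val ∧ ∀ S : Finset E, S ⊂ P → ¬ Flow s t u v S.val

/-- `I` is a stack of cycles with respect to the ranking `ρ`: a set of cycles such that no cycle
`C` is covered by the members of `I` of larger rank than `C`. -/
def IsStack [DecidableEq E] (ρ : Finset E → ℕ) (I : Finset (Finset E)) : Prop :=
  (∀ D ∈ I, IsCycle s t D) ∧
    ∀ C, IsCycle s t C → ¬ C ⊆ (I.filter (fun D => ρ C < ρ D)).biUnion id

/-- `(P, I)` is a configuration from `u` to `v`: `P` is a path from `u` to `v`, `I` is a stack of
cycles, no path of smaller rank than `P` from `u` to `v` is covered by `P` and `I`, and all edges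
of `P` and `I` can be reached from `u` along edges of `P` and `I`. -/
def IsConfig [DecidableEq E] (ρ : Finset E → ℕ) (u v : V) (P : Finset E)
    (I : Finset (Finset E)) : Prop :=
  IsPath s t u v P ∧ IsStack s t ρ I ∧
    (∀ Q, IsPath s t u v Q → ρ Q < ρ P → ¬ Q ⊆ P ∪ I.biUnion id) ∧
    ∀ e ∈ P ∪ I.biUnion id,
      Relation.ReflTransGen (fun y z => ∃ g ∈ P ∪ I.biUnion id, s g = y ∧ t g = z) u (s e)

open Classical in
/-- the configurations from `u` to `v` with edges in `F`. -/
noncomputable def configs [DecidableEq E] (F : Finset E) (ρ : Finset E → ℕ) (u v : V) :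
    Finset (Finset E × Finset (Finset E)) :=
  (F.powerset ×ˢ F.powerset.powerset).filter (fun q => IsConfig s t ρ u v q.1 q.2)

open Classical in
/-- the stacks of cycles with edges in `F`. -/
noncomputable def stackSets [DecidableEq E] (F : Finset E) (ρ : Finset E → ℕ) :
    Finset (Finset (Finset E)) :=
  F.powerset.powerset.filter (fun I => IsStack s t ρ I)

/-- the words of length `j` over the alphabet `Fin m`. -/
def words (m j : ℕ) : Finset (List (Fin m)) :=
  (Finset.univ : Finset (Fin j → Fin m)).image List.ofFn

/-- The sum of `1 / (d! ∏_{C ∈ I} |C|)`, `d = m ^ (k - 1) * (m - 1)`, over the stacks `I` of `d + 1`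
cycles of the de Bruijn graph of order `k`. -/
noncomputable def leadConst (m k : ℕ) (ρ : Finset (List (Fin m)) → ℕ) : ℝ :=
  ∑ I ∈ (stackSets List.dropLast List.tail (words m k) ρ).filter
      (fun I => I.card = m ^ (k - 1) * (m - 1) + 1),
    1 / (((m ^ (k - 1) * (m - 1)).factorial : ℝ) * ∏ C ∈ I, (C.card : ℝ))

end Pool.Agent.Lib.MP_7e3249_co
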