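import Mathlib
import Pool.Agent.Lib.MP_7e3249_co.Config

/-!
# Flows, walks and Euler trails in a directed multigraph

Vertices `V`, edges `E`, source `s`, target `t`. A flow from `u` to `v` is a multiset `f` of edges
with `v ::ₘ f.map s = u ::ₘ f.map t`.
-/

set_option autoImplicit false

namespace Pool.Agent.Lib.MP_7e3249_co

variable {V E : Type*} (s t : E → V)

/-- `p` is a walk from `u` to `v`. -/
def IsWalk : V → List E → V → Prop
  | u, [], v => u = v
  | u, e :: p, v => s e = u ∧ IsWalk (t e) p v

/-- every edge of `f` can be reached from `u` along edges of `f`. -/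
def Conn (u : V) (f : Multiset E) : Prop :=
  ∀ e ∈ f, Relation.ReflTransGen (fun y z => ∃ g ∈ f, s g = y ∧ t g = z) u (s e)

variable {s t}

lemma flow_self_iff {u : V} {f : Multiset E} : Flow s t u u f ↔ f.map s = f.map t := by
  unfold Flow; exact Multiset.cons_inj_right u

lemma IsWalk.flow {p : List E} : ∀ {u v : V}, IsWalk s t u p v → Flow s t u v (p : Multiset E) := by
  induction p with
  | nil => intro u v h; simp only [IsWalk] at h; subst h; simp [Flow]
  | cons e p ih =>
    intro u v h
    obtain ⟨rfl, h⟩ := h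
    have := ih h
    unfold Flow at this ⊢
    rw [← Multiset.cons_coe, Multiset.map_cons, Multiset.map_cons, Multiset.cons_swap, this]

lemma isWalk_append {p q : List E} : ∀ {u v : V},
    IsWalk s t u (p ++ q) v ↔ ∃ x, IsWalk s t u p x ∧ IsWalk s t x q v := by
  induction p with
  | nil => intro u v; simp [IsWalk]
  | cons e p ih =>
    intro u v
    simp only [List.cons_append, IsWalk, ih]
    constructor
    · rintro ⟨h, x, h1, h2⟩; exact ⟨x, ⟨h, h1⟩, h2⟩
    · rintro ⟨x, ⟨h, h1⟩, h2⟩; exact ⟨h, x, h1, h2⟩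

lemma Flow.cons {u v : V} {e : E} {f : Multiset E} (h : Flow s t u v (e ::ₘ f)) (he : s e = u) :
    Flow s t (t e) v f := by
  unfold Flow at h ⊢
  rw [Multiset.map_cons, Multiset.map_cons, Multiset.cons_swap, he] at h
  exact (Multiset.cons_inj_right u).mp h

lemma Flow.exists_out {u v : V} {f : Multiset E} (h : Flow s t u v f) (huv : u ≠ v) :
    ∃ e ∈ f, s e = u := by
  have : u ∈ v ::ₘ f.map s := by rw [h]; exact Multiset.mem_cons_self _ _
  rcases Multiset.mem_cons.mp this with h1 | h1
  · exact absurd h1 huv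
  · obtain ⟨e, he, h2⟩ := Multiset.mem_map.mp h1
    exact ⟨e, he, h2⟩

lemma Flow.sub [DecidableEq E] {u v : V} {f g : Multiset E} (h : Flow s t u v f)
    (hg : Flow s t u v g) (hle : g ≤ f) : (f - g).map s = (f - g).map t := by
  unfold Flow at h hg
  have hf : f - g + g = f := Multiset.sub_add_cancel hle
  rw [← hf, Multiset.map_add, Multiset.map_add, ← Multiset.add_cons, ← Multiset.add_cons,
    hg] at h
  exact Multiset.add_left_inj.mp h

lemma Flow.add {u v : V} {f g : Multiset E} (h : Flow s t u v f)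
    (hg : g.map s = g.map t) : Flow s t u v (f + g) := by
  unfold Flow at h ⊢
  rw [Multiset.map_add, Multiset.map_add, ← Multiset.cons_add, h, hg, Multiset.cons_add]

lemma Flow.trans {u v w : V} {f g : Multiset E} (h : Flow s t u v f)
    (hg : Flow s t v w g) : Flow s t u w (f + g) := by
  unfold Flow at h hg ⊢
  have : v ::ₘ (w ::ₘ (f + g).map s) = v ::ₘ (u ::ₘ (f + g).map t) := by
    rw [Multiset.map_add, Multiset.map_add]
    calc v ::ₘ (w ::ₘ (f.map s + g.map s)) = (v ::ₘ f.map s) + (w ::ₘ g.map s) := by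
          rw [Multiset.cons_add, Multiset.add_cons]
      _ = (u ::ₘ f.map t) + (v ::ₘ g.map t) := by rw [h, hg]
      _ = v ::ₘ (u ::ₘ (f.map t + g.map t)) := by
          rw [Multiset.cons_add, Multiset.add_cons, Multiset.cons_swap]
  exact (Multiset.cons_inj_right v).mp this

/-- Greedy walk inside a flow. -/
lemma exists_walk [DecidableEq V] : ∀ (n : ℕ) (u v : V) (f : Multiset E), Multiset.card f = n → Flow s t u v f →
    ∃ p : List E, IsWalk s t u p v ∧ (p : Multiset E) ≤ f := by
  intro n
  induction n with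
  | zero =>
    intro u v f hf h
    have : f = 0 := Multiset.card_eq_zero.mp hf
    subst this
    by_cases huv : u = v
    · exact ⟨[], huv, by simp⟩
    · obtain ⟨e, he, -⟩ := h.exists_out huv
      simp at he
  | succ n ih =>
    intro u v f hf h
    by_cases huv : u = v
    · exact ⟨[], huv, by simp⟩
    · obtain ⟨e, he, hs⟩ := h.exists_out huv
      obtain ⟨g, rfl⟩ := Multiset.exists_cons_of_mem he
      obtain ⟨p, hp, hle⟩ := ih (t e) v g (by simpa using hf) (h.cons hs)
      refine ⟨e :: p, ⟨hs, hp⟩, ?_⟩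
      rw [← Multiset.cons_coe]
      exact Multiset.cons_le_cons e hle

lemma exists_walk_cons [DecidableEq V] {u v : V} {f : Multiset E} {e : E} (he : e ∈ f)
    (hs : s e = u) (h : Flow s t u v f) :
    ∃ p : List E, IsWalk s t u (e :: p) v ∧ ((e :: p : List E) : Multiset E) ≤ f := by
  obtain ⟨g, rfl⟩ := Multiset.exists_cons_of_mem he
  obtain ⟨p, hp, hle⟩ := exists_walk _ (t e) v g rfl (h.cons hs)
  refine ⟨p, ⟨hs, hp⟩, ?_⟩
  rw [← Multiset.cons_coe]
  exact Multiset.cons_le_cons e hle

/-- Splitting a walk at a visited vertex. -/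
lemma IsWalk.split {p : List E} : ∀ {u v x : V}, IsWalk s t u p v → x ∈ u :: p.map t →
    ∃ p₁ p₂, p = p₁ ++ p₂ ∧ IsWalk s t u p₁ x ∧ IsWalk s t x p₂ v := by
  induction p with
  | nil =>
    intro u v x h hx
    simp only [List.map_nil, List.mem_singleton] at hx
    subst hx
    exact ⟨[], [], rfl, rfl, h⟩
  | cons e p ih =>
    intro u v x h hx
    rw [List.map_cons, List.mem_cons] at hx
    rcases hx with rfl | hx
    · exact ⟨[], e :: p, rfl, rfl, h⟩
    · obtain ⟨h1, h2⟩ := h
      obtain ⟨p₁, p₂, rfl, h3, h4⟩ := ih h2 hx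
      exact ⟨e :: p₁, p₂, rfl, ⟨h1, h3⟩, h4⟩

/-- Euler's theorem, inductive form. -/
lemma euler_aux [DecidableEq V] [DecidableEq E] {u v : V} {f : Multiset E} (h : Flow s t u v f)
    (hc : Conn s t u f) : ∀ (n : ℕ) (p : List E), Multiset.card f = p.length + n →
    IsWalk s t u p v → (p : Multiset E) ≤ f → ∃ q : List E, IsWalk s t u q v ∧ (q : Multiset E) = f := by
  intro n
  induction n using Nat.strong_induction_on with
  | _ n ih =>
    intro p hn hp hle
    by_cases hr : f - (p : Multiset E) = 0
    · refine ⟨p, hp, le_antisymm hle ?_⟩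
      exact tsub_eq_zero_iff_le.mp hr
    · set r := f - (p : Multiset E) with hrdef
      have hrf : r + p = f := Multiset.sub_add_cancel hle
      have hrc : r.map s = r.map t := h.sub hp.flow hle
      -- some visited vertex has an outgoing edge of `r`
      have key : ∃ x ∈ u :: p.map t, ∃ e ∈ r, s e = x := by
        by_contra hcon
        push Not at hcon
        obtain ⟨e, he⟩ := Multiset.exists_mem_of_ne_zero hr
        have hef : e ∈ f := by rw [← hrf]; exact Multiset.mem_add.mpr (Or.inl he)
        have hreach := hc e hef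
        have hall : ∀ z, Relation.ReflTransGen (fun y z => ∃ g ∈ f, s g = y ∧ t g = z) u z →
            z ∈ u :: p.map t := by
          intro z hz
          induction hz with
          | refl => exact List.mem_cons_self
          | tail _ hstep ih2 =>
            obtain ⟨g, hg, hgs, hgt⟩ := hstep
            have hgr : g ∉ r := fun hgr => hcon _ ih2 g hgr hgs
            rw [← hrf] at hg
            rcases Multiset.mem_add.mp hg with hg | hg
            · exact absurd hg hgr
            · rw [← hgt]
              exact List.mem_cons_of_mem _ (List.mem_map_of_mem (by simpa using hg))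
        exact hcon _ (hall _ hreach) e he rfl
      obtain ⟨x, hx, e, he, hes⟩ := key
      obtain ⟨q, hq, hqle⟩ := exists_walk_cons he hes (flow_self_iff.mpr hrc : Flow s t x x r)
      obtain ⟨p₁, p₂, hpp, h1, h2⟩ := hp.split hx
      have hcard : Multiset.card f = Multiset.card r + p.length := by
        rw [← hrf, Multiset.card_add, Multiset.coe_card]
      have hq1 : (e :: q).length ≤ Multiset.card r := by
        have := Multiset.card_le_card hqle
        rwa [Multiset.coe_card] at this
      have hlen : (p₁ ++ ((e :: q) ++ p₂)).length = p.length + (e :: q).length := by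
        rw [hpp]; simp only [List.length_append]; omega
      refine ih (Multiset.card r - (e :: q).length) ?_ (p₁ ++ ((e :: q) ++ p₂)) ?_ ?_ ?_
      · have : 0 < (e :: q).length := by simp
        omega
      · rw [hlen]; omega
      · exact isWalk_append.mpr ⟨x, h1, isWalk_append.mpr ⟨x, hq, h2⟩⟩
      · have e1 : ((p₁ ++ ((e :: q) ++ p₂) : List E) : Multiset E) =
            ((e :: q : List E) : Multiset E) + (p : Multiset E) := by
          rw [hpp]
          simp only [← Multiset.coe_add]
          abel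
        rw [e1, ← hrf]
        exact add_le_add_left hqle _

/-- **Euler's theorem** for flows. -/
theorem euler [DecidableEq V] [DecidableEq E] {u v : V} {f : Multiset E} (h : Flow s t u v f)
    (hc : Conn s t u f) : ∃ q : List E, IsWalk s t u q v ∧ (q : Multiset E) = f := by
  obtain ⟨p, hp, hle⟩ := exists_walk _ u v f rfl h
  have hl : p.length ≤ Multiset.card f := by
    have := Multiset.card_le_card hle
    rwa [Multiset.coe_card] at this
  exact euler_aux h hc (Multiset.card f - p.length) p (by omega) hp hle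

lemma IsWalk.reach {p : List E} {S : E → Prop} : ∀ {u v : V}, IsWalk s t u p v →
    (∀ e ∈ p, S e) → Relation.ReflTransGen (fun y z => ∃ g, S g ∧ s g = y ∧ t g = z) u v := by
  induction p with
  | nil => intro u v h _; simp only [IsWalk] at h; subst h; exact Relation.ReflTransGen.refl
  | cons e p ih =>
    intro u v h hS
    obtain ⟨h1, h2⟩ := h
    exact Relation.ReflTransGen.head ⟨e, hS e List.mem_cons_self, h1, rfl⟩
      (ih h2 (fun g hg => hS g (List.mem_cons_of_mem _ hg)))

lemma IsWalk.conn {p : List E} {u v : V} (h : IsWalk s t u p v) :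
    Conn s t u (p : Multiset E) := by
  intro e he
  rw [Multiset.mem_coe] at he
  obtain ⟨p₁, p₂, rfl⟩ := List.append_of_mem he
  obtain ⟨x, h1, h2⟩ := isWalk_append.mp h
  obtain ⟨h3, -⟩ := h2
  rw [h3]
  have := h1.reach (S := fun g => g ∈ (p₁ ++ e :: p₂)) (fun g hg => List.mem_append_left _ hg)
  refine Relation.ReflTransGen.mono ?_ _ _ this
  rintro y z ⟨g, hg, h4, h5⟩
  exact ⟨g, by simpa using hg, h4, h5⟩

/-- connectivity only depends on the set of edges, and more edges help if they contain a walk. -/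
lemma Conn.of_walk {p : List E} {u v : V} {f : Multiset E} (h : IsWalk s t u p v)
    (hp : ∀ e ∈ p, e ∈ f) (hf : ∀ e ∈ f, e ∈ p) : Conn s t u f := by
  intro e he
  have := h.conn e (by simpa using hf e he)
  refine Relation.ReflTransGen.mono ?_ _ _ this
  rintro y z ⟨g, hg, h4, h5⟩
  exact ⟨g, hp g (by simpa using hg), h4, h5⟩

/-! ### Walks without repeated edges -/

lemma not_nodup_split {α : Type*} {p : List α} (h : ¬ p.Nodup) :
    ∃ (e : α) (p₁ p₂ p₃ : List α), p = p₁ ++ e :: (p₂ ++ e :: p₃) := by
  induction p with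
  | nil => exact absurd List.nodup_nil h
  | cons a p ih =>
    by_cases ha : a ∈ p
    · obtain ⟨p₂, p₃, rfl⟩ := List.append_of_mem ha
      exact ⟨a, [], p₂, p₃, rfl⟩
    · rw [List.nodup_cons] at h
      obtain ⟨e, p₁, p₂, p₃, rfl⟩ := ih (fun hp => h ⟨ha, hp⟩)
      exact ⟨e, a :: p₁, p₂, p₃, rfl⟩

lemma exists_nodup_walk : ∀ (n : ℕ) {u v : V} (p : List E), p.length = n → IsWalk s t u p v →
    ∃ q : List E, IsWalk s t u q v ∧ q.Nodup ∧ ∀ e ∈ q, e ∈ p := by
  intro n
  induction n using Nat.strong_induction_on with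
  | _ n ih =>
    intro u v p hn hp
    by_cases hd : p.Nodup
    · exact ⟨p, hp, hd, fun _ h => h⟩
    · obtain ⟨e, p₁, p₂, p₃, rfl⟩ := not_nodup_split hd
      obtain ⟨x, h1, h2⟩ := isWalk_append.mp hp
      obtain ⟨h3, h4⟩ := h2
      obtain ⟨y, h5, h6⟩ := isWalk_append.mp h4
      obtain ⟨h7, h8⟩ := h6
      have hw : IsWalk s t u (p₁ ++ e :: p₃) v := isWalk_append.mpr ⟨x, h1, h3, h8⟩
      obtain ⟨q, hq, hqd, hqs⟩ := ih (p₁ ++ e :: p₃).length (by
        rw [← hn]; simp only [List.length_append, List.length_cons]; omega) _ rfl hw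
      refine ⟨q, hq, hqd, fun g hg => ?_⟩
      have := hqs g hg
      simp only [List.mem_append, List.mem_cons] at this ⊢
      tauto

lemma exists_nodup_closed_walk : ∀ (n : ℕ) {u : V} (p : List E), p.length = n →
    IsWalk s t u p u → p ≠ [] →
    ∃ (x : V) (q : List E), IsWalk s t x q x ∧ q ≠ [] ∧ q.Nodup ∧ ∀ e ∈ q, e ∈ p := by
  intro n
  induction n using Nat.strong_induction_on with
  | _ n ih =>
    intro u p hn hp hne
    by_cases hd : p.Nodup
    · exact ⟨u, p, hp, hne, hd, fun _ h => h⟩
    · obtain ⟨e, p₁, p₂, p₃, rfl⟩ := not_nodup_split hd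
      obtain ⟨x, h1, h2⟩ := isWalk_append.mp hp
      obtain ⟨h3, h4⟩ := h2
      obtain ⟨y, h5, h6⟩ := isWalk_append.mp h4
      obtain ⟨h7, h8⟩ := h6
      have hw : IsWalk s t x (e :: p₂) x := ⟨h3, by rw [← h3, h7]; exact h5⟩
      obtain ⟨z, q, hq, hqn, hqd, hqs⟩ := ih (e :: p₂).length (by
        rw [← hn]; simp only [List.length_append, List.length_cons]; omega) _ rfl hw (by simp)
      refine ⟨z, q, hq, hqn, hqd, fun g hg => ?_⟩
      have := hqs g hg
      simp only [List.mem_append, List.mem_cons] at this ⊢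
      tauto

/-! ### Cycles and paths as minimal sets of edges -/

lemma exists_minimal_subset {α : Type*} (Q : Finset α → Prop) : ∀ (S : Finset α), Q S →
    ∃ T, T ⊆ S ∧ Q T ∧ ∀ R, R ⊂ T → ¬ Q R := by
  intro S
  induction S using Finset.strongInduction with
  | _ S ih =>
    intro hS
    by_cases h : ∃ R, R ⊂ S ∧ Q R
    · obtain ⟨R, hR, hQ⟩ := h
      obtain ⟨T, h1, h2, h3⟩ := ih R hR hQ
      exact ⟨T, h1.trans hR.subset, h2, h3⟩
    · push Not at h
      exact ⟨S, Finset.Subset.refl _, hS, h⟩

lemma exists_cycle [DecidableEq V] [DecidableEq E] {f : Multiset E} (h : f.map s = f.map t)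
    (hf : f ≠ 0) : ∃ C, IsCycle s t C ∧ C ⊆ f.toFinset := by
  obtain ⟨e, he⟩ := Multiset.exists_mem_of_ne_zero hf
  obtain ⟨p, hp, hle⟩ := exists_walk_cons he rfl (flow_self_iff.mpr h : Flow s t (s e) (s e) f)
  obtain ⟨x, q, hq, hqn, hqd, hqs⟩ := exists_nodup_closed_walk _ (e :: p) rfl hp (by simp)
  have hS : (q.toFinset : Finset E).val = (q : Multiset E) := by
    rw [List.toFinset_val, List.dedup_eq_self.mpr hqd]
  obtain ⟨T, h1, h2, h3⟩ := exists_minimal_subset
    (fun S : Finset E => S.Nonempty ∧ S.val.map s = S.val.map t) q.toFinset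
    ⟨by
      obtain ⟨a, ha⟩ := List.exists_mem_of_ne_nil q hqn
      exact ⟨a, by simpa using ha⟩, by
      rw [hS]; exact flow_self_iff.mp hq.flow⟩
  refine ⟨T, ⟨h2.1, h2.2, fun S hS hSn hSe => h3 S hS ⟨hSn, hSe⟩⟩, fun g hg => ?_⟩
  have hgq : g ∈ q := by simpa using h1 hg
  have hgp : g ∈ e :: p := hqs g hgq
  rw [Multiset.mem_toFinset]
  exact Multiset.mem_of_le hle (by simpa using hgp)

lemma exists_path [DecidableEq V] [DecidableEq E] {u v : V} {f : Multiset E}
    (h : Flow s t u v f) : ∃ P, IsPath s t u v P ∧ P ⊆ f.toFinset := by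
  obtain ⟨p, hp, hle⟩ := exists_walk _ u v f rfl h
  obtain ⟨q, hq, hqd, hqs⟩ := exists_nodup_walk _ p rfl hp
  have hS : (q.toFinset : Finset E).val = (q : Multiset E) := by
    rw [List.toFinset_val, List.dedup_eq_self.mpr hqd]
  obtain ⟨T, h1, h2, h3⟩ := exists_minimal_subset
    (fun S : Finset E => Flow s t u v S.val) q.toFinset (by rw [hS]; exact hq.flow)
  refine ⟨T, ⟨h2, h3⟩, fun g hg => ?_⟩
  have hgq : g ∈ q := by simpa using h1 hg
  rw [Multiset.mem_toFinset]
  exact Multiset.mem_of_le hle (by simpa using hqs g hgq)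

end Pool.Agent.Lib.MP_7e3249_co
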