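import Mathlib
import Pool.Agent.Lib.MP_7e3249_co.Graph

/-!
# Greedy decomposition of flows into a path and cycles
-/

set_option autoImplicit false

namespace Pool.Agent.Lib.MP_7e3249_co

variable {V E : Type*} [DecidableEq V] [DecidableEq E] (s t : E → V)

variable {s t}

omit [DecidableEq V] in
lemma IsStack.mono {ρ : Finset E → ℕ} {I J : Finset (Finset E)} (h : IsStack s t ρ J)
    (hIJ : I ⊆ J) : IsStack s t ρ I := by
  refine ⟨fun D hD => h.1 D (hIJ hD), fun C hC hsub => h.2 C hC (hsub.trans ?_)⟩
  intro e he
  simp only [Finset.mem_biUnion, Finset.mem_filter, id] at he ⊢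
  obtain ⟨D, ⟨hD, hr⟩, heD⟩ := he
  exact ⟨D, ⟨hIJ hD, hr⟩, heD⟩

omit [DecidableEq V] in
lemma isStack_empty (ρ : Finset E → ℕ) : IsStack s t ρ ∅ := by
  refine ⟨by simp, fun C hC hsub => ?_⟩
  obtain ⟨e, he⟩ := hC.1
  simpa using hsub he

lemma argmin {α : Type*} (ρ : α → ℕ) (Q : α → Prop) (h : ∃ a, Q a) :
    ∃ a, Q a ∧ ∀ b, Q b → ρ a ≤ ρ b := by
  obtain ⟨a, ha, hmin⟩ := WellFounded.has_min (InvImage.wf ρ Nat.lt_wfRel.wf) {a | Q a} h
  exact ⟨a, ha, fun b hb => not_lt.mp (hmin b hb)⟩

lemma val_le_of_subset {f : Multiset E} {C : Finset E} (h : C ⊆ f.toFinset) : C.val ≤ f := by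
  rw [Multiset.le_iff_subset C.nodup]
  intro e he
  exact Multiset.mem_toFinset.mp (h he)

lemma toFinset_bind_val (A : Multiset (Finset E)) :
    (A.bind Finset.val).toFinset = A.toFinset.biUnion id := by
  ext e
  simp only [Multiset.mem_toFinset, Multiset.mem_bind, Finset.mem_biUnion, id, Finset.mem_val]

omit [DecidableEq V] [DecidableEq E] in
lemma bind_circ (A : Multiset (Finset E)) (hA : ∀ D ∈ A, IsCycle s t D) :
    (A.bind Finset.val).map s = (A.bind Finset.val).map t := by
  rw [Multiset.map_bind, Multiset.map_bind]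
  exact Multiset.bind_congr (fun D hD => (hA D hD).2.1)

omit [DecidableEq V] [DecidableEq E] in
lemma card_bind_val (A : Multiset (Finset E)) :
    Multiset.card (A.bind Finset.val) = (A.map Finset.card).sum := by
  rw [Multiset.card_bind]
  rfl

/-- Existence of the greedy decomposition of a circulation. -/
theorem exists_decomp (ρ : Finset E → ℕ) : ∀ (n : ℕ) (f : Multiset E), Multiset.card f = n →
    f.map s = f.map t →
    ∃ A : Multiset (Finset E), IsStack s t ρ A.toFinset ∧ A.bind Finset.val = f := by
  intro n
  induction n using Nat.strong_induction_on with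
  | _ n ih =>
    intro f hn hf
    by_cases h0 : f = 0
    · subst h0
      exact ⟨0, isStack_empty ρ, by simp⟩
    · obtain ⟨C, ⟨hC, hCf⟩, hmin⟩ := argmin ρ (fun C => IsCycle s t C ∧ C ⊆ f.toFinset)
        (exists_cycle hf h0)
      have hle : C.val ≤ f := val_le_of_subset hCf
      have hsub : f - C.val + C.val = f := Multiset.sub_add_cancel hle
      have hcirc : (f - C.val).map s = (f - C.val).map t := by
        have hfu : ∀ u : V, Flow s t u u f := fun u => flow_self_iff.mpr hf
        obtain ⟨e, he⟩ := hC.1
        exact (hfu (s e)).sub (flow_self_iff.mpr hC.2.1) hle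
      have hcard : Multiset.card (f - C.val) < n := by
        have h1 : Multiset.card (f - C.val) + C.card = n := by
          rw [← hn, ← hsub, Multiset.card_add, Multiset.add_sub_cancel_right]; rfl
        have h2 : 0 < C.card := Finset.card_pos.mpr hC.1
        omega
      obtain ⟨A, hA, hAf⟩ := ih _ hcard (f - C.val) rfl hcirc
      refine ⟨C ::ₘ A, ⟨?_, ?_⟩, ?_⟩
      · intro D hD
        rw [Multiset.mem_toFinset, Multiset.mem_cons] at hD
        rcases hD with rfl | hD
        · exact hC
        · exact hA.1 D (Multiset.mem_toFinset.mpr hD)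
      · intro B hB hcov
        rcases lt_or_ge (ρ B) (ρ C) with hlt | hge
        · have : B ⊆ f.toFinset := by
            intro e he
            have := hcov he
            simp only [Finset.mem_biUnion, Finset.mem_filter, id, Multiset.mem_toFinset,
              Multiset.mem_cons] at this
            obtain ⟨D, ⟨hD, -⟩, heD⟩ := this
            rcases hD with rfl | hD
            · exact hCf heD
            · rw [Multiset.mem_toFinset, ← hsub, Multiset.mem_add]
              left
              rw [← hAf, Multiset.mem_bind]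
              exact ⟨D, hD, heD⟩
          exact absurd (hmin B ⟨hB, this⟩) (not_le.mpr hlt)
        · refine hA.2 B hB (hcov.trans ?_)
          intro e he
          simp only [Finset.mem_biUnion, Finset.mem_filter, id, Multiset.mem_toFinset,
              Multiset.mem_cons] at he ⊢
          obtain ⟨D, ⟨hD, hr⟩, heD⟩ := he
          rcases hD with rfl | hD
          · omega
          · exact ⟨D, ⟨hD, hr⟩, heD⟩
      · rw [Multiset.cons_bind, hAf, add_comm, hsub]

/-- Uniqueness of the greedy decomposition of a circulation. -/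
theorem decomp_unique {ρ : Finset E → ℕ} (hρ : Function.Injective ρ) : ∀ (n : ℕ)
    (A B : Multiset (Finset E)), Multiset.card (A.bind Finset.val) = n →
    IsStack s t ρ A.toFinset → IsStack s t ρ B.toFinset → A.bind Finset.val = B.bind Finset.val →
    A = B := by
  intro n
  induction n using Nat.strong_induction_on with
  | _ n ih =>
    intro A B hn hA hB hAB
    by_cases h0 : A.bind Finset.val = 0
    · have key : ∀ A : Multiset (Finset E), IsStack s t ρ A.toFinset → A.bind Finset.val = 0 →
          A = 0 := by
        intro A hA h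
        by_contra hne
        obtain ⟨D, hD⟩ := Multiset.exists_mem_of_ne_zero hne
        obtain ⟨e, he⟩ := (hA.1 D (Multiset.mem_toFinset.mpr hD)).1
        have : e ∈ A.bind Finset.val := Multiset.mem_bind.mpr ⟨D, hD, he⟩
        rw [h] at this
        simp at this
      rw [key A hA h0, key B hB (hAB ▸ h0)]
    · have hcirc := bind_circ A (fun D hD => hA.1 D (Multiset.mem_toFinset.mpr hD))
      obtain ⟨C, ⟨hC, hCf⟩, hmin⟩ := argmin ρ
        (fun C => IsCycle s t C ∧ C ⊆ (A.bind Finset.val).toFinset) (exists_cycle hcirc h0)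
      have key : ∀ B : Multiset (Finset E), IsStack s t ρ B.toFinset →
          B.bind Finset.val = A.bind Finset.val → C ∈ B := by
        intro B hB h
        by_contra hne
        refine hB.2 C hC ?_
        intro e he
        have h1 := hCf he
        rw [← h, toFinset_bind_val] at h1
        simp only [Finset.mem_biUnion, id, Finset.mem_filter] at h1 ⊢
        obtain ⟨D, hD, heD⟩ := h1
        refine ⟨D, ⟨hD, ?_⟩, heD⟩
        have hD1 : D ⊆ (A.bind Finset.val).toFinset := by
          rw [← h, toFinset_bind_val]
          exact Finset.subset_biUnion_of_mem id hD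
        have hle := hmin D ⟨hB.1 D hD, hD1⟩
        refine lt_of_le_of_ne hle (fun heq => ?_)
        have := hρ heq
        subst this
        exact hne (Multiset.mem_toFinset.mp hD)
      obtain ⟨A', rfl⟩ := Multiset.exists_cons_of_mem (key A hA rfl)
      obtain ⟨B', rfl⟩ := Multiset.exists_cons_of_mem (key B hB hAB.symm)
      rw [Multiset.cons_bind, Multiset.cons_bind] at hAB
      have hAB' := Multiset.add_right_inj.mp hAB
      have hcard : Multiset.card (A'.bind Finset.val) < n := by
        rw [← hn, Multiset.cons_bind, Multiset.card_add]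
        have h2 : 0 < C.card := Finset.card_pos.mpr hC.1
        have h3 : Multiset.card C.val = C.card := rfl
        omega
      rw [ih _ hcard A' B' rfl
        (hA.mono (Multiset.toFinset_subset.mpr (Multiset.subset_cons _ _)))
        (hB.mono (Multiset.toFinset_subset.mpr (Multiset.subset_cons _ _))) hAB']

/-- Every connected flow has a configuration. -/
theorem exists_config (ρ : Finset E → ℕ) {u v : V} {f : Multiset E} (h : Flow s t u v f)
    (hc : Conn s t u f) :
    ∃ (P : Finset E) (A : Multiset (Finset E)), IsConfig s t ρ u v P A.toFinset ∧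
      P.val + A.bind Finset.val = f := by
  obtain ⟨P, ⟨hP, hPf⟩, hmin⟩ := argmin ρ (fun P => IsPath s t u v P ∧ P ⊆ f.toFinset)
    (exists_path h)
  have hle : P.val ≤ f := val_le_of_subset hPf
  obtain ⟨A, hA, hAf⟩ := exists_decomp ρ _ (f - P.val) rfl (h.sub hP.1 hle)
  have hsum : P.val + A.bind Finset.val = f := by
    rw [hAf, add_comm, Multiset.sub_add_cancel hle]
  have hset : P ∪ A.toFinset.biUnion id = f.toFinset := by
    rw [← hsum, Multiset.toFinset_add, Finset.val_toFinset, toFinset_bind_val]
  refine ⟨P, A, ⟨hP, hA, ?_, ?_⟩, hsum⟩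
  · intro Q hQ hlt hsub
    rw [hset] at hsub
    exact absurd (hmin Q ⟨hQ, hsub⟩) (not_le.mpr hlt)
  · rw [hset]
    intro e he
    have := hc e (Multiset.mem_toFinset.mp he)
    refine Relation.ReflTransGen.mono ?_ _ _ this
    rintro y z ⟨g, hg, h4, h5⟩
    exact ⟨g, Multiset.mem_toFinset.mpr hg, h4, h5⟩

omit [DecidableEq V] in
lemma config_toFinset (P : Finset E) (A : Multiset (Finset E)) :
    (P.val + A.bind Finset.val).toFinset = P ∪ A.toFinset.biUnion id := by
  rw [Multiset.toFinset_add, Finset.val_toFinset, toFinset_bind_val]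

omit [DecidableEq V] in
theorem IsConfig.flow {ρ : Finset E → ℕ} {u v : V} {P : Finset E} {A : Multiset (Finset E)}
    (h : IsConfig s t ρ u v P A.toFinset) :
    Flow s t u v (P.val + A.bind Finset.val) :=
  h.1.1.add (bind_circ A (fun D hD => h.2.1.1 D (Multiset.mem_toFinset.mpr hD)))

omit [DecidableEq V] in
theorem IsConfig.conn {ρ : Finset E → ℕ} {u v : V} {P : Finset E} {A : Multiset (Finset E)}
    (h : IsConfig s t ρ u v P A.toFinset) :
    Conn s t u (P.val + A.bind Finset.val) := by
  intro e he
  have hset := config_toFinset P A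
  have he' : e ∈ P ∪ A.toFinset.biUnion id := by rw [← hset]; exact Multiset.mem_toFinset.mpr he
  refine Relation.ReflTransGen.mono ?_ _ _ (h.2.2.2 e he')
  rintro y z ⟨g, hg, h4, h5⟩
  rw [← hset] at hg
  exact ⟨g, Multiset.mem_toFinset.mp hg, h4, h5⟩

/-- Uniqueness of the configuration of a flow. -/
theorem config_unique {ρ : Finset E → ℕ} (hρ : Function.Injective ρ) {u v : V}
    {P Q : Finset E} {A B : Multiset (Finset E)}
    (hP : IsConfig s t ρ u v P A.toFinset) (hQ : IsConfig s t ρ u v Q B.toFinset)
    (h : P.val + A.bind Finset.val = Q.val + B.bind Finset.val) : P = Q ∧ A = B := by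
  have h1 : P ∪ A.toFinset.biUnion id = Q ∪ B.toFinset.biUnion id := by
    rw [← config_toFinset, ← config_toFinset, h]
  have hPQ : P = Q := by
    apply hρ
    apply le_antisymm
    · by_contra hlt
      push Not at hlt
      exact hP.2.2.1 Q hQ.1 hlt (by rw [h1]; exact Finset.subset_union_left)
    · by_contra hlt
      push Not at hlt
      exact hQ.2.2.1 P hP.1 hlt (by rw [← h1]; exact Finset.subset_union_left)
  subst hPQ
  refine ⟨rfl, ?_⟩
  exact decomp_unique hρ _ A B rfl hP.2.1 hQ.2.1 (Multiset.add_right_inj.mp h)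

end Pool.Agent.Lib.MP_7e3249_co
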