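import Mathlib
import Pool.Agent.Lib.MP_7e3249_co.Greedy

/-!
# Counting flows: the generating function
-/

set_option autoImplicit false

namespace Pool.Agent.Lib.MP_7e3249_co

open PowerSeries

section Mult

variable {ι : Type*} [DecidableEq ι]

/-- multisets with support exactly `I` and total weight `L`. -/
def Mult (I : Finset ι) (c : ι → ℕ) (L : ℕ) : Set (Multiset ι) :=
  {A | A.toFinset = I ∧ (A.map c).sum = L}

/-- the weights carried by the elements of the support. -/
noncomputable def multF (I : Finset ι) (c : ι → ℕ) (L : ℕ) : Finset (ι →₀ ℕ) :=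
  (Finset.finsuppAntidiag I L).filter (fun l => ∀ i ∈ I, c i ∣ l i ∧ 0 < l i)

/-- the weight function of a multiset. -/
noncomputable def wtF (c : ι → ℕ) (A : Multiset ι) : ι →₀ ℕ :=
  Finsupp.onFinset A.toFinset (fun i => A.count i * c i) (by
    intro i hi
    rw [Multiset.mem_toFinset]
    by_contra h
    rw [Multiset.count_eq_zero_of_notMem h, zero_mul] at hi
    exact hi rfl)

lemma wtF_apply (c : ι → ℕ) (A : Multiset ι) (i : ι) : wtF c A i = A.count i * c i := rfl

lemma wtF_image (I : Finset ι) (c : ι → ℕ) (hc : ∀ i ∈ I, 0 < c i) (L : ℕ) :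
    wtF c '' (Mult I c L) = (multF I c L : Set (ι →₀ ℕ)) := by
  ext l
  constructor
  · rintro ⟨A, ⟨h1, h2⟩, rfl⟩
    rw [Finset.mem_coe, multF, Finset.mem_filter, Finset.mem_finsuppAntidiag]
    refine ⟨⟨?_, ?_⟩, ?_⟩
    · rw [← h2, Finset.sum_multiset_map_count, h1]
      exact Finset.sum_congr rfl (fun i _ => by rw [wtF_apply, smul_eq_mul])
    · intro i hi
      rw [Finsupp.mem_support_iff, wtF_apply] at hi
      by_contra hiI
      rw [← h1, Multiset.mem_toFinset] at hiI
      rw [Multiset.count_eq_zero_of_notMem hiI, zero_mul] at hi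
      exact hi rfl
    · intro i hi
      rw [wtF_apply]
      refine ⟨Dvd.intro_left _ rfl, Nat.mul_pos ?_ (hc i hi)⟩
      rw [← h1, Multiset.mem_toFinset] at hi
      exact Multiset.count_pos.mpr hi
  · intro hl
    rw [Finset.mem_coe, multF, Finset.mem_filter, Finset.mem_finsuppAntidiag] at hl
    obtain ⟨⟨h1, h2⟩, h3⟩ := hl
    refine ⟨∑ i ∈ I, Multiset.replicate (l i / c i) i, ?_, ?_⟩
    · have hcount : ∀ i, (∑ j ∈ I, Multiset.replicate (l j / c j) j).count i =
          if i ∈ I then l i / c i else 0 := by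
        intro i
        rw [Multiset.count_sum']
        simp only [Multiset.count_replicate]
        rw [Finset.sum_ite_eq' I i (fun j => l j / c j)]
      have htf : (∑ j ∈ I, Multiset.replicate (l j / c j) j).toFinset = I := by
        ext i
        rw [Multiset.mem_toFinset, ← Multiset.count_pos, hcount i]
        split_ifs with hi
        · obtain ⟨h4, h5⟩ := h3 i hi
          exact ⟨fun _ => hi, fun _ => Nat.div_pos (Nat.le_of_dvd h5 h4) (hc i hi)⟩
        · simp [hi]
      refine ⟨htf, ?_⟩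
      rw [Finset.sum_multiset_map_count, htf, ← h1]
      refine Finset.sum_congr rfl (fun i hi => ?_)
      rw [hcount i, if_pos hi, smul_eq_mul, Nat.div_mul_cancel (h3 i hi).1]
    · ext i
      rw [wtF_apply, Multiset.count_sum']
      simp only [Multiset.count_replicate]
      rw [Finset.sum_ite_eq' I i (fun j => l j / c j)]
      split_ifs with hi
      · rw [Nat.div_mul_cancel (h3 i hi).1]
      · rw [zero_mul]
        by_contra hne
        exact hi (h2 (Finsupp.mem_support_iff.mpr (Ne.symm hne)))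

lemma wtF_injOn (I : Finset ι) (c : ι → ℕ) (hc : ∀ i ∈ I, 0 < c i) (L : ℕ) :
    Set.InjOn (wtF c) (Mult I c L) := by
  rintro A ⟨hA, -⟩ B ⟨hB, -⟩ h
  ext i
  by_cases hi : i ∈ I
  · have := DFunLike.congr_fun h i
    rw [wtF_apply, wtF_apply] at this
    exact Nat.eq_of_mul_eq_mul_right (hc i hi) this
  · have h1 : i ∉ A := fun h => hi (by rw [← hA]; exact Multiset.mem_toFinset.mpr h)
    have h2 : i ∉ B := fun h => hi (by rw [← hB]; exact Multiset.mem_toFinset.mpr h)
    rw [Multiset.count_eq_zero_of_notMem h1, Multiset.count_eq_zero_of_notMem h2]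

lemma ncard_Mult (I : Finset ι) (c : ι → ℕ) (hc : ∀ i ∈ I, 0 < c i) (L : ℕ) :
    (Mult I c L).ncard = (multF I c L).card := by
  rw [← (wtF_injOn I c hc L).ncard_image, wtF_image I c hc L, Set.ncard_coe_finset]

lemma finite_Mult (I : Finset ι) (c : ι → ℕ) (hc : ∀ i ∈ I, 0 < c i) (L : ℕ) :
    (Mult I c L).Finite := by
  apply Set.Finite.of_finite_image _ (wtF_injOn I c hc L)
  rw [wtF_image I c hc L]
  exact Finset.finite_toSet _

lemma coeff_geom (c : ℕ) (hc : 0 < c) (j : ℕ) :
    coeff j ((X : ℚ⟦X⟧) ^ c * (1 - X ^ c)⁻¹) = if c ∣ j ∧ 0 < j then 1 else 0 := by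
  have h0 : constantCoeff (1 - (X : ℚ⟦X⟧) ^ c) ≠ 0 := by
    rw [map_sub, map_pow, constantCoeff_X, zero_pow hc.ne', map_one, sub_zero]
    exact one_ne_zero
  have h : (X : ℚ⟦X⟧) ^ c * (1 - X ^ c)⁻¹ =
      PowerSeries.mk (fun j => if c ∣ j ∧ 0 < j then (1 : ℚ) else 0) := by
    symm
    rw [PowerSeries.eq_mul_inv_iff_mul_eq h0]
    ext n
    rw [mul_sub, mul_one, map_sub, coeff_mk, coeff_X_pow, coeff_mul_X_pow']
    rw [coeff_mk]
    by_cases hn : c ≤ n
    · rw [if_pos hn]
      by_cases hcn : n = c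
      · subst hcn
        simp [hc]
      · rw [if_neg hcn]
        have h1 : (c ∣ n ∧ 0 < n) ↔ (c ∣ n - c ∧ 0 < n - c) := by
          constructor
          · rintro ⟨h1, h2⟩
            exact ⟨Nat.dvd_sub h1 dvd_rfl, by omega⟩
          · rintro ⟨h1, h2⟩
            refine ⟨?_, by omega⟩
            have := Nat.dvd_add h1 (dvd_refl c)
            rwa [Nat.sub_add_cancel hn] at this
        by_cases h2 : c ∣ n ∧ 0 < n
        · rw [if_pos h2, if_pos (h1.mp h2), sub_self]
        · rw [if_neg h2, if_neg (fun h => h2 (h1.mpr h)), sub_self]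
    · have hnc : ¬ n = c := by omega
      have hd : ¬ (c ∣ n ∧ 0 < n) := by
        rintro ⟨h1, h2⟩
        exact hn (Nat.le_of_dvd h2 h1)
      rw [if_neg hn, if_neg hnc, if_neg hd, sub_zero]
  rw [h, coeff_mk]

/-- generating function of the number of multisets with support `I`. -/
theorem coeff_prod_geom (I : Finset ι) (c : ι → ℕ) (hc : ∀ i ∈ I, 0 < c i) (L : ℕ) :
    coeff L (∏ i ∈ I, ((X : ℚ⟦X⟧) ^ c i * (1 - X ^ c i)⁻¹)) = ((Mult I c L).ncard : ℚ) := by
  rw [coeff_prod, ncard_Mult I c hc L, multF, Finset.card_filter]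
  push_cast
  refine Finset.sum_congr rfl (fun l _ => ?_)
  rw [Finset.prod_congr rfl (fun i hi => coeff_geom (c i) (hc i hi) (l i)),
    Finset.prod_ite_zero]
  simp

end Mult

section Flows

variable {V E : Type*} [DecidableEq V] [DecidableEq E] (s t : E → V)

/-- connected flows from `u` to `v` with `L` edges, all in `F`. -/
def flows (F : Finset E) (u v : V) (L : ℕ) : Set (Multiset E) :=
  {f | Flow s t u v f ∧ Conn s t u f ∧ (∀ e ∈ f, e ∈ F) ∧ Multiset.card f = L}

/-- the multisets of cycles of a configuration with `L` edges in total. -/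
def confMult (q : Finset E × Finset (Finset E)) (L : ℕ) : Set (Multiset (Finset E)) :=
  {A | A.toFinset = q.2 ∧ q.1.card + (A.map Finset.card).sum = L}

variable {s t}

omit [DecidableEq V] in
lemma mem_configs {F : Finset E} {ρ : Finset E → ℕ} {u v : V}
    {q : Finset E × Finset (Finset E)} :
    q ∈ configs s t F ρ u v ↔ (q.1 ⊆ F ∧ ∀ D ∈ q.2, D ⊆ F) ∧ IsConfig s t ρ u v q.1 q.2 := by
  unfold configs
  simp only [Finset.mem_filter, Finset.mem_product, Finset.mem_powerset]
  constructor
  · rintro ⟨⟨h1, h2⟩, h3⟩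
    exact ⟨⟨h1, fun D hD => Finset.mem_powerset.mp (h2 hD)⟩, h3⟩
  · rintro ⟨⟨h1, h2⟩, h3⟩
    exact ⟨⟨h1, fun D hD => Finset.mem_powerset.mpr (h2 D hD)⟩, h3⟩

omit [DecidableEq V] in
lemma IsConfig.card_pos {ρ : Finset E → ℕ} {u v : V} {P : Finset E} {I : Finset (Finset E)}
    (h : IsConfig s t ρ u v P I) : ∀ D ∈ I, 0 < D.card :=
  fun D hD => Finset.card_pos.mpr (h.2.1.1 D hD).1

lemma confMult_eq (q : Finset E × Finset (Finset E)) (L : ℕ) :
    confMult q L = if q.1.card ≤ L then Mult q.2 Finset.card (L - q.1.card) else ∅ := by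
  split_ifs with h
  · ext A
    simp only [confMult, Mult, Set.mem_ofPred_eq]
    constructor
    · rintro ⟨h1, h2⟩; exact ⟨h1, by omega⟩
    · rintro ⟨h1, h2⟩; exact ⟨h1, by omega⟩
  · ext A
    simp only [confMult, Set.mem_ofPred_eq, Set.mem_empty_iff_false, iff_false]
    rintro ⟨h1, h2⟩
    omega

omit [DecidableEq V] in
lemma finite_confMult {ρ : Finset E → ℕ} {u v : V} {q : Finset E × Finset (Finset E)}
    (h : IsConfig s t ρ u v q.1 q.2) (L : ℕ) : (confMult q L).Finite := by
  rw [confMult_eq]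
  split_ifs
  · exact finite_Mult _ _ h.card_pos _
  · exact Set.finite_empty

/-- The number of connected flows as a sum over the configurations. -/
theorem ncard_flows (F : Finset E) {ρ : Finset E → ℕ} (hρ : Function.Injective ρ) (u v : V)
    (L : ℕ) :
    (flows s t F u v L).ncard = ∑ q ∈ configs s t F ρ u v, (confMult q L).ncard := by
  classical
  have hfin : ∀ q ∈ configs s t F ρ u v, (confMult q L).Finite := fun q hq =>
    finite_confMult (mem_configs.mp hq).2 L
  let T : Finset ((_ : Finset E × Finset (Finset E)) × Multiset (Finset E)) :=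
    (configs s t F ρ u v).sigma (fun q => if h : (confMult q L).Finite then h.toFinset else ∅)
  let Ψ : ((_ : Finset E × Finset (Finset E)) × Multiset (Finset E)) → Multiset E :=
    fun x => x.1.1.val + x.2.bind Finset.val
  have hmem : ∀ x, x ∈ T ↔ x.1 ∈ configs s t F ρ u v ∧ x.2 ∈ confMult x.1 L := by
    intro x
    simp only [T, Finset.mem_sigma]
    constructor
    · rintro ⟨h1, h2⟩
      rw [dif_pos (hfin _ h1)] at h2
      exact ⟨h1, (Set.Finite.mem_toFinset _).mp h2⟩
    · rintro ⟨h1, h2⟩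
      refine ⟨h1, ?_⟩
      rw [dif_pos (hfin _ h1)]
      exact (Set.Finite.mem_toFinset _).mpr h2
  have himg : flows s t F u v L = Ψ '' (T : Set _) := by
    ext f
    constructor
    · rintro ⟨h1, h2, h3, h4⟩
      obtain ⟨P, A, hPA, hsum⟩ := exists_config ρ h1 h2
      have hset : ∀ e ∈ P ∪ A.toFinset.biUnion id, e ∈ F := by
        intro e he
        rw [← config_toFinset, hsum] at he
        exact h3 e (Multiset.mem_toFinset.mp he)
      refine ⟨⟨(P, A.toFinset), A⟩, ?_, hsum⟩
      rw [Finset.mem_coe, hmem]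
      refine ⟨mem_configs.mpr ⟨⟨fun e he => hset e (Finset.mem_union_left _ he), ?_⟩, hPA⟩,
        rfl, ?_⟩
      · intro D hD e he
        exact hset e (Finset.mem_union_right _ (Finset.mem_biUnion.mpr ⟨D, hD, he⟩))
      · rw [← h4, ← hsum, Multiset.card_add, card_bind_val]; rfl
    · rintro ⟨⟨q, A⟩, hx, rfl⟩
      rw [Finset.mem_coe, hmem] at hx
      obtain ⟨h1, h2, h3⟩ := hx
      obtain ⟨⟨h4, h5⟩, h6⟩ := mem_configs.mp h1
      simp only at h1 h2 h3 h4 h5 h6
      rw [← h2] at h5 h6
      refine ⟨h6.flow, h6.conn, ?_, ?_⟩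
      · intro e he
        rw [Multiset.mem_add, Multiset.mem_bind] at he
        rcases he with he | ⟨D, hD, he⟩
        · exact h4 he
        · exact h5 D (Multiset.mem_toFinset.mpr hD) he
      · rw [← h3, Multiset.card_add, card_bind_val]; rfl
  have hinj : Set.InjOn Ψ (T : Set _) := by
    rintro ⟨q, A⟩ hx ⟨q', B⟩ hy h
    rw [Finset.mem_coe, hmem] at hx hy
    obtain ⟨h1, h2, h3⟩ := hx
    obtain ⟨h1', h2', h3'⟩ := hy
    have h6 := (mem_configs.mp h1).2
    have h6' := (mem_configs.mp h1').2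
    obtain ⟨P, I⟩ := q
    obtain ⟨Q, J⟩ := q'
    simp only at h1 h2 h3 h1' h2' h3' h6 h6'
    subst h2 h2'
    obtain ⟨rfl, rfl⟩ := config_unique hρ h6 h6' h
    rfl
  rw [himg, hinj.ncard_image, Set.ncard_coe_finset, Finset.card_sigma]
  refine Finset.sum_congr rfl (fun q hq => ?_)
  rw [dif_pos (hfin q hq), Set.ncard_eq_toFinset_card _ (hfin q hq)]

end Flows

end Pool.Agent.Lib.MP_7e3249_co
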