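import Mathlib
import Pool.Agent.Lib.MP_7e3249_co.Basic
import Pool.Agent.Lib.MP_7e3249_co.GenFun

/-!
# Words as walks in the de Bruijn graph; the classes of `n`th powers as flows
-/

set_option autoImplicit false

namespace Pool.Agent.Lib.MP_7e3249_co

section General

variable {α : Type}

/-- the list of factors of length `K + 1` of a word. -/
def facs (K : ℕ) : List α → List (List α)
  | [] => []
  | a :: w => if K ≤ w.length then (a :: w).take (K + 1) :: facs K w else []

/-- the suffix of length `K` of a word. -/
def suf (K : ℕ) (w : List α) : List α := w.drop (w.length - K)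

lemma length_suf {K : ℕ} {w : List α} (h : K ≤ w.length) : (suf K w).length = K := by
  unfold suf; rw [List.length_drop]; omega

lemma facs_eq_nil {K : ℕ} {w : List α} (h : w.length ≤ K) : facs K w = [] := by
  cases w with
  | nil => rfl
  | cons a w =>
    rw [List.length_cons] at h
    rw [facs, if_neg (by omega)]

lemma facs_cons {K : ℕ} {a : α} {w : List α} (h : K ≤ w.length) :
    facs K (a :: w) = (a :: w).take (K + 1) :: facs K w := by
  rw [facs, if_pos h]

lemma suf_cons {K : ℕ} {a : α} {w : List α} (h : K ≤ w.length) :
    suf K (a :: w) = suf K w := by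
  unfold suf
  rw [List.length_cons, show w.length + 1 - K = (w.length - K) + 1 by omega, List.drop_succ_cons]

lemma suf_of_eq {K : ℕ} {w : List α} (h : w.length = K) : suf K w = w := by
  unfold suf; rw [h, Nat.sub_self, List.drop_zero]

lemma length_facs (K : ℕ) (w : List α) : (facs K w).length = w.length - K := by
  induction w with
  | nil => simp [facs]
  | cons a w ih =>
    by_cases h : K ≤ w.length
    · rw [facs_cons h, List.length_cons, ih, List.length_cons]; omega
    · rw [facs_eq_nil (by rw [List.length_cons]; omega), List.length_cons, List.length_nil]; omega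

lemma length_of_mem_facs {K : ℕ} {w x : List α} (h : x ∈ facs K w) : x.length = K + 1 := by
  induction w with
  | nil => simp [facs] at h
  | cons a w ih =>
    by_cases hK : K ≤ w.length
    · rw [facs_cons hK, List.mem_cons] at h
      rcases h with rfl | h
      · rw [List.length_take, List.length_cons]; omega
      · exact ih h
    · rw [facs_eq_nil (by rw [List.length_cons]; omega)] at h
      simp at h

lemma dropLast_take_succ {K : ℕ} {w : List α} (h : K < w.length) :
    (w.take (K + 1)).dropLast = w.take K := by
  rw [List.dropLast_eq_take, List.length_take, List.take_take]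
  congr 1
  omega

/-- a word gives a walk in the de Bruijn graph. -/
lemma isWalk_facs {K : ℕ} : ∀ {w : List α}, K ≤ w.length →
    IsWalk List.dropLast List.tail (w.take K) (facs K w) (suf K w) := by
  intro w
  induction w with
  | nil =>
    intro h
    simp [facs, IsWalk, suf]
  | cons a w ih =>
    intro h
    by_cases hK : K ≤ w.length
    · rw [facs_cons hK, suf_cons hK]
      refine ⟨dropLast_take_succ (by rw [List.length_cons]; omega), ?_⟩
      rw [List.take_succ_cons, List.tail_cons]
      exact ih hK
    · rw [List.length_cons] at h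
      have hl : (a :: w).length = K := by rw [List.length_cons]; omega
      rw [facs_eq_nil (le_of_eq hl), suf_of_eq hl]
      unfold IsWalk
      rw [List.take_of_length_le (le_of_eq hl)]

/-- every walk in the de Bruijn graph comes from a word. -/
lemma exists_word {K : ℕ} {p : List (List α)} : ∀ {u v : List α}, u.length = K →
    (∀ e ∈ p, e.length = K + 1) → IsWalk List.dropLast List.tail u p v →
    ∃ w : List α, w.length = K + p.length ∧ w.take K = u ∧ suf K w = v ∧ facs K w = p := by
  induction p with
  | nil =>
    intro u v hu _ h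
    unfold IsWalk at h
    subst h
    exact ⟨u, by simpa using hu, by rw [← hu, List.take_length], suf_of_eq hu,
      facs_eq_nil (le_of_eq hu)⟩
  | cons e p ih =>
    intro u v hu he h
    obtain ⟨h1, h2⟩ := h
    have hel := he e List.mem_cons_self
    obtain ⟨w, hw1, hw2, hw3, hw4⟩ := ih (u := e.tail) (v := v)
      (by rw [List.length_tail, hel]; omega) (fun g hg => he g (List.mem_cons_of_mem _ hg)) h2
    cases e with
    | nil => simp at hel
    | cons a e =>
      rw [List.tail_cons] at hw2
      have hK : K ≤ w.length := by omega
      refine ⟨a :: w, ?_, ?_, ?_, ?_⟩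
      · rw [List.length_cons, List.length_cons, hw1]; omega
      · rw [← h1, ← dropLast_take_succ (by rw [List.length_cons]; omega), List.take_succ_cons, hw2]
      · rw [suf_cons hK, hw3]
      · rw [facs_cons hK, List.take_succ_cons, hw2, hw4]

lemma facs_append {K : ℕ} {y z : List α} (h : K ≤ y.length) :
    facs K (y ++ z) = facs K y ++ facs K (suf K y ++ z) := by
  induction y with
  | nil =>
    have : K = 0 := by simpa using h
    subst this
    simp [facs, suf]
  | cons a y ih =>
    by_cases hK : K ≤ y.length
    · rw [List.cons_append, facs_cons (by rw [List.length_append]; omega), facs_cons hK,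
        suf_cons hK, ih hK, List.take_succ_cons, List.take_succ_cons,
        List.take_append_of_le_length hK, List.cons_append]
    · rw [List.length_cons] at h
      have hl : (a :: y).length = K := by rw [List.length_cons]; omega
      rw [facs_eq_nil (le_of_eq hl), suf_of_eq hl, List.nil_append]

lemma take_append_take {K : ℕ} {y z : List α} :
    (y ++ z).take K = (y ++ z.take K).take K := by
  rw [List.take_append, List.take_append, List.take_take]
  congr 2
  omega

lemma facs_append' {K : ℕ} {y z : List α} (h : K ≤ z.length) :
    facs K (y ++ z) = facs K (y ++ z.take K) ++ facs K z := by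
  induction y with
  | nil =>
    rw [List.nil_append, List.nil_append, facs_eq_nil (w := z.take K)
      (by rw [List.length_take]; omega), List.nil_append]
  | cons a y ih =>
    rw [List.cons_append, List.cons_append, facs_cons (by rw [List.length_append]; omega),
      facs_cons (by rw [List.length_append, List.length_take]; omega), ih,
      List.take_succ_cons, List.take_succ_cons, take_append_take, List.cons_append]

lemma facs_append₂ {K : ℕ} {y z : List α} (hy : K ≤ y.length) (hz : K ≤ z.length) :
    facs K (y ++ z) = facs K y ++ (facs K (suf K y ++ z.take K) ++ facs K z) := by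
  rw [facs_append hy, facs_append' hz]

lemma suf_append {K : ℕ} {y z : List α} (hz : K ≤ z.length) : suf K (y ++ z) = suf K z := by
  unfold suf
  rw [List.length_append, List.drop_append]
  have : (y.drop (y.length + z.length - K)) = [] := by
    rw [List.drop_eq_nil_iff]; omega
  rw [this, List.nil_append]
  congr 1
  omega

lemma le_length_wpow {K n : ℕ} (hn : 1 ≤ n) {w : List α} (h : K ≤ w.length) :
    K ≤ (wpow n w).length := by
  rw [length_wpow]
  calc K ≤ w.length := h
    _ = 1 * w.length := (one_mul _).symm
    _ ≤ n * w.length := Nat.mul_le_mul_right _ hn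

lemma wpow_one (w : List α) : wpow 1 w = w := by simp [wpow]

lemma take_wpow {K n : ℕ} (hn : 1 ≤ n) {w : List α} (h : K ≤ w.length) :
    (wpow n w).take K = w.take K := by
  obtain ⟨n, rfl⟩ : ∃ j, n = j + 1 := ⟨n - 1, by omega⟩
  rw [wpow_succ, List.take_append_of_le_length h]

lemma suf_wpow {K n : ℕ} (hn : 1 ≤ n) {w : List α} (h : K ≤ w.length) :
    suf K (wpow n w) = suf K w := by
  induction n, hn using Nat.le_induction with
  | base => rw [wpow_one]
  | succ n hn ih => rw [wpow_succ, suf_append (le_length_wpow hn h), ih]

lemma facs_wpow {K n : ℕ} (hn : 1 ≤ n) {w : List α} (h : K ≤ w.length) :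
    (facs K (wpow n w) : Multiset (List α)) =
      n • (facs K w : Multiset (List α)) + (n - 1) • (facs K (suf K w ++ w.take K) : Multiset (List α)) := by
  induction n, hn using Nat.le_induction with
  | base => rw [wpow_one]; simp
  | succ n hn ih =>
    rw [wpow_succ, facs_append₂ h (le_length_wpow hn h), take_wpow hn h, ← Multiset.coe_add,
      ← Multiset.coe_add, ih, Nat.add_sub_cancel, succ_nsmul]
    obtain ⟨n, rfl⟩ : ∃ j, n = j + 1 := ⟨n - 1, by omega⟩
    rw [Nat.add_sub_cancel, succ_nsmul (facs K (suf K w ++ w.take K) : Multiset (List α)) n]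
    abel

end General

section Occ

variable {α : Type} [DecidableEq α]

lemma occ_short {x w : List α} (h : w.length < x.length) : occ x w = 0 := by
  unfold occ
  rw [Finset.card_eq_zero, Finset.filter_eq_empty_iff]
  intro i _ hi
  have := congrArg List.length hi
  rw [List.length_take, List.length_drop] at this
  omega

lemma eq_of_occ_pos {x w : List α} (hx : x ≠ []) (h : w.length = x.length) (h0 : occ x w ≠ 0) :
    w = x := by
  unfold occ at h0
  obtain ⟨i, hi⟩ := Finset.card_pos.mp (Nat.pos_of_ne_zero h0)
  rw [Finset.mem_filter] at hi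
  have h1 := hi.2
  have h2 := congrArg List.length h1
  rw [List.length_take, List.length_drop] at h2
  have h3 : 0 < x.length := List.length_pos_iff.mpr hx
  have h4 : i = 0 := by omega
  rw [h4, List.drop_zero, ← h, List.take_length] at h1
  exact h1

lemma occ_self_ne {x : List α} (hx : x ≠ []) : occ x x ≠ 0 := by
  unfold occ
  apply Finset.card_ne_zero_of_mem (a := 0)
  rw [Finset.mem_filter, Finset.mem_range]
  refine ⟨List.length_pos_iff.mpr hx, ?_⟩
  rw [List.drop_zero, List.take_length]

/-- Occurrences of short factors from the factors of length `K + 1` and the suffix. -/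
lemma occ_eq {K : ℕ} {x : List α} (hx : x.length ≤ K + 1) : ∀ {w : List α}, K ≤ w.length →
    occ x w = (facs K w).countP (fun y => decide (y.take x.length = x)) + occ x (suf K w) := by
  intro w
  induction w with
  | nil => intro h; simp [facs, suf]
  | cons a w ih =>
    intro h
    by_cases hK : K ≤ w.length
    · rw [occ_cons, ih hK, facs_cons hK, suf_cons hK, List.countP_cons, List.take_take,
        min_eq_left hx]
      simp only [decide_eq_true_eq]
      omega
    · rw [List.length_cons] at h
      have hl : (a :: w).length = K := by rw [List.length_cons]; omega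
      rw [facs_eq_nil (le_of_eq hl), suf_of_eq hl]
      simp

lemma kAbEq_of_facs {K : ℕ} {W W' : List α} (h : K ≤ W.length) (h' : K ≤ W'.length)
    (hs : suf K W = suf K W') (hf : (facs K W : Multiset (List α)) = facs K W') :
    KAbEq (K + 1) W W' := by
  intro x _ hxK
  rw [occ_eq hxK h, occ_eq hxK h', hs, (Multiset.coe_eq_coe.mp hf).countP_eq]

lemma facs_of_kAbEq {K : ℕ} {W W' : List α} (h : K ≤ W.length) (h' : K ≤ W'.length)
    (hW : KAbEq (K + 1) W W') :
    W.take K = W'.take K ∧ suf K W = suf K W' ∧
      (facs K W : Multiset (List α)) = facs K W' := by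
  have hcount : ∀ {W : List α}, K ≤ W.length → ∀ x : List α, x.length = K + 1 →
      Multiset.count x (facs K W : Multiset (List α)) = occ x W := by
    intro W h x hx
    rw [occ_eq (le_of_eq hx) h, occ_short (by rw [length_suf h]; omega), add_zero,
      Multiset.count, Multiset.coe_countP]
    apply List.countP_congr
    intro y hy
    have := length_of_mem_facs hy
    rw [hx, ← this, List.take_length]
    simp only [decide_eq_true_eq]
    exact eq_comm
  have hf : (facs K W : Multiset (List α)) = facs K W' := by
    ext x
    by_cases hx : x.length = K + 1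
    · rw [hcount h x hx, hcount h' x hx]
      exact hW x (by rintro rfl; simp at hx) (le_of_eq hx)
    · rw [Multiset.count_eq_zero_of_notMem
          (fun hm => hx (length_of_mem_facs (Multiset.mem_coe.mp hm))),
        Multiset.count_eq_zero_of_notMem
          (fun hm => hx (length_of_mem_facs (Multiset.mem_coe.mp hm)))]
  have hs : suf K W = suf K W' := by
    rcases Nat.eq_zero_or_pos K with hK | hK
    · have h1 := length_suf h
      have h2 := length_suf h'
      rw [hK] at h1 h2
      rw [List.length_eq_zero_iff] at h1 h2
      rw [hK, h1, h2]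
    · have hne : suf K W ≠ [] := by
        intro h0
        have := length_suf h
        rw [h0] at this
        simp at this
        omega
      have hl : (suf K W).length ≤ K + 1 := by rw [length_suf h]; omega
      have h1 := hW (suf K W) hne hl
      rw [occ_eq hl h, occ_eq hl h', (Multiset.coe_eq_coe.mp hf).countP_eq] at h1
      have h2 : occ (suf K W) (suf K W) = occ (suf K W) (suf K W') := by omega
      have h3 := occ_self_ne hne
      rw [h2] at h3
      exact (eq_of_occ_pos hne (by rw [length_suf h, length_suf h']) h3).symm
  refine ⟨?_, hs, hf⟩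
  have h1 := (isWalk_facs h).flow
  have h2 := (isWalk_facs h').flow
  unfold Flow at h1 h2
  rw [hs, hf, h2] at h1
  exact ((Multiset.cons_inj_left _).mp h1).symm

/-- the invariant of the class of the powers of a word. -/
def inv (K : ℕ) (w : List α) : (List α × List α) × Multiset (List α) :=
  ((w.take K, suf K w), (facs K w : Multiset (List α)))

/-- For words of length at least `K`, the class of the `n`th power is determined by the prefix and
the suffix of length `K` and the multiset of factors of length `K + 1`. -/
theorem kAbEq_wpow_iff {K n : ℕ} (hn : 1 ≤ n) {w w' : List α} (h : K ≤ w.length)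
    (h' : K ≤ w'.length) :
    KAbEq (K + 1) (wpow n w) (wpow n w') ↔ inv K w = inv K w' := by
  constructor
  · intro hW
    obtain ⟨h1, h2, h3⟩ := facs_of_kAbEq (le_length_wpow hn h) (le_length_wpow hn h') hW
    rw [take_wpow hn h, take_wpow hn h'] at h1
    rw [suf_wpow hn h, suf_wpow hn h'] at h2
    rw [facs_wpow hn h, facs_wpow hn h', h1, h2] at h3
    have h4 := Multiset.add_left_inj.mp h3
    have h5 : (facs K w : Multiset (List α)) = facs K w' := by
      ext x
      have := congrArg (Multiset.count x) h4
      rw [Multiset.count_nsmul, Multiset.count_nsmul] at this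
      exact Nat.eq_of_mul_eq_mul_left (by omega) this
    unfold inv
    rw [h1, h2, h5]
  · intro hinv
    unfold inv at hinv
    rw [Prod.mk.injEq, Prod.mk.injEq] at hinv
    obtain ⟨⟨h1, h2⟩, h3⟩ := hinv
    apply kAbEq_of_facs (le_length_wpow hn h) (le_length_wpow hn h')
    · rw [suf_wpow hn h, suf_wpow hn h', h2]
    · rw [facs_wpow hn h, facs_wpow hn h', h1, h2, h3]

/-- For words of length at most `K`, the class of the `n`th power determines the word. -/
theorem kAbEq_wpow_iff_short {K n l : ℕ} (hn : 1 ≤ n) {w w' : List α} (h : w.length = l)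
    (h' : w'.length = l) (hl : l ≤ K) :
    KAbEq (K + 1) (wpow n w) (wpow n w') ↔ w = w' := by
  constructor
  · intro hW
    have h1 : (wpow n w).take l = w := by
      rw [take_wpow hn (le_of_eq h.symm), ← h, List.take_length]
    have h1' : (wpow n w').take l = w' := by
      rw [take_wpow hn (le_of_eq h'.symm), ← h', List.take_length]
    rcases le_total K (n * l) with hK | hK
    · have h2 := (facs_of_kAbEq (by rw [length_wpow, h]; exact hK)
        (by rw [length_wpow, h']; exact hK) hW).1
      have h3 := congrArg (List.take l) h2
      rw [List.take_take, List.take_take, min_eq_left hl, h1, h1'] at h3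
      exact h3
    · by_cases hne : wpow n w = []
      · have : w.length = 0 := by
          have := congrArg List.length hne
          rw [length_wpow, List.length_nil] at this
          rcases Nat.mul_eq_zero.mp this with h0 | h0
          · omega
          · exact h0
        rw [List.length_eq_zero_iff.mp this, List.length_eq_zero_iff.mp (by omega : w'.length = 0)]
      · have h2 := hW (wpow n w) hne (by rw [length_wpow, h]; omega)
        have h3 := occ_self_ne hne
        rw [h2] at h3
        have h4 := eq_of_occ_pos hne (by rw [length_wpow, length_wpow, h, h']) h3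
        rw [← h1, ← h1', h4]
  · rintro rfl
    exact KAbEq.refl _ _

end Occ

section Count

lemma mem_words {m j : ℕ} {x : List (Fin m)} : x ∈ words m j ↔ x.length = j := by
  unfold words
  rw [Finset.mem_image]
  constructor
  · rintro ⟨f, -, rfl⟩; exact List.length_ofFn
  · rintro rfl
    exact ⟨x.get, Finset.mem_univ _, List.ofFn_get x⟩

lemma card_words (m j : ℕ) : (words m j).card = m ^ j := by
  unfold words
  rw [Finset.card_image_of_injective _ List.ofFn_injective]
  simp

lemma finite_flows {V E : Type*} [DecidableEq E] (s t : E → V) (F : Finset E) (u v : V) (L : ℕ) :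
    (flows s t F u v L).Finite := by
  apply Set.Finite.subset (Set.finite_Iic (L • F.val))
  rintro f ⟨-, -, h3, h4⟩
  rw [Set.mem_Iic, Multiset.le_iff_count]
  intro e
  rw [Multiset.count_nsmul]
  by_cases he : e ∈ f
  · rw [Multiset.count_eq_one_of_mem F.nodup (h3 e he), mul_one, ← h4]
    exact Multiset.count_le_card _ _
  · rw [Multiset.count_eq_zero_of_notMem he]; exact Nat.zero_le _

lemma ncard_fiber {ι β : Type*} [DecidableEq ι] (T : Finset ι) (𝒜 : ι → Set β)
    (hfin : ∀ i ∈ T, (𝒜 i).Finite) :
    {x : ι × β | x.1 ∈ T ∧ x.2 ∈ 𝒜 x.1}.ncard = ∑ i ∈ T, (𝒜 i).ncard := by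
  classical
  have h : {x : ι × β | x.1 ∈ T ∧ x.2 ∈ 𝒜 x.1} =
      ((fun y : (_ : ι) × β => (y.1, y.2)) ''
        ((T.sigma (fun i => if h : (𝒜 i).Finite then h.toFinset else ∅) :
          Finset ((_ : ι) × β)) : Set ((_ : ι) × β))) := by
    ext ⟨i, b⟩
    simp only [Set.mem_ofPred_eq, Set.mem_image, Finset.mem_coe, Finset.mem_sigma]
    constructor
    · rintro ⟨h1, h2⟩
      refine ⟨⟨i, b⟩, ⟨h1, ?_⟩, rfl⟩
      rw [dif_pos (hfin i h1)]
      exact (Set.Finite.mem_toFinset _).mpr h2
    · rintro ⟨⟨j, b'⟩, ⟨h1, h2⟩, h3⟩
      rw [Prod.mk.injEq] at h3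
      obtain ⟨rfl, rfl⟩ := h3
      simp only at h1 h2
      rw [dif_pos (hfin _ h1)] at h2
      exact ⟨h1, (Set.Finite.mem_toFinset _).mp h2⟩
  rw [h, Set.InjOn.ncard_image, Set.ncard_coe_finset, Finset.card_sigma]
  · refine Finset.sum_congr rfl (fun i hi => ?_)
    rw [dif_pos (hfin i hi), Set.ncard_eq_toFinset_card _ (hfin i hi)]
  · rintro ⟨i, b⟩ _ ⟨j, b'⟩ _ h
    simp only [Prod.mk.injEq] at h
    obtain ⟨rfl, rfl⟩ := h
    rfl

/-- number of classes for short roots. -/
theorem c_short {m K n l : ℕ} (hn : 1 ≤ n) (hl : l ≤ K) : c m (K + 1) n (n * l) = m ^ l := by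
  rw [c_eq_ncard_image hn id (fun w w' hw hw' => kAbEq_wpow_iff_short hn hw hw' hl), Set.image_id]
  have : {w : List (Fin m) | w.length = l} = (words m l : Set (List (Fin m))) := by
    ext w; simp only [Set.mem_ofPred_eq, Finset.mem_coe, mem_words]
  rw [this, Set.ncard_coe_finset, card_words]

/-- number of classes as a number of connected flows. -/
theorem c_eq_flows {m K n l : ℕ} (hn : 1 ≤ n) (hl : K ≤ l) :
    c m (K + 1) n (n * l) = ∑ q ∈ words m K ×ˢ words m K,
      (flows List.dropLast List.tail (words m (K + 1)) q.1 q.2 (l - K)).ncard := by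
  rw [c_eq_ncard_image hn (inv K) (fun w w' hw hw' => kAbEq_wpow_iff hn (by omega) (by omega)),
    ← ncard_fiber _ _ (fun q _ => finite_flows _ _ _ _ _ _)]
  congr 1
  ext ⟨⟨u, v⟩, f⟩
  simp only [Set.mem_image, Set.mem_ofPred_eq, Finset.mem_product, mem_words]
  constructor
  · rintro ⟨w, hw, h⟩
    unfold inv at h
    rw [Prod.mk.injEq, Prod.mk.injEq] at h
    obtain ⟨⟨rfl, rfl⟩, rfl⟩ := h
    have hK : K ≤ w.length := by omega
    refine ⟨⟨by rw [List.length_take]; omega, length_suf hK⟩, (isWalk_facs hK).flow,
      (isWalk_facs hK).conn, ?_, ?_⟩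
    · intro e he
      rw [Multiset.mem_coe] at he
      exact mem_words.mpr (length_of_mem_facs he)
    · rw [Multiset.coe_card, length_facs, hw]
  · rintro ⟨⟨hu, hv⟩, h1, h2, h3, h4⟩
    obtain ⟨p, hp, rfl⟩ := euler h1 h2
    obtain ⟨w, hw1, hw2, hw3, hw4⟩ := exists_word hu
      (fun e he => mem_words.mp (h3 e (Multiset.mem_coe.mpr he))) hp
    rw [Multiset.coe_card] at h4
    refine ⟨w, by omega, ?_⟩
    unfold inv
    rw [hw2, hw3, hw4]

/-- no class if `n` does not divide the length. -/
theorem c_not_dvd {m k n N : ℕ} (h : ¬ n ∣ N) : c m k n N = 0 := by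
  unfold c
  have : powerClasses m k n N = ∅ := by
    apply Set.eq_empty_of_forall_notMem
    rintro C ⟨⟨u, hu, rfl⟩, w, ⟨hw, -⟩⟩
    rw [length_wpow] at hw
    exact h ⟨_, hw.symm⟩
  rw [this, Set.ncard_empty]

end Count

end Pool.Agent.Lib.MP_7e3249_co
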