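import Mathlib
import Pool.Agent.Lib.MP_7e3249_co.Words

/-!
# The generating function of `c_{m,k,n}(N)`
-/

set_option autoImplicit false

namespace Pool.Agent.Lib.MP_7e3249_co

open PowerSeries

lemma sum_scale {ι : Type*} (n : ℕ) (c : ι → ℕ) (A : Multiset ι) :
    (A.map (fun i => n * c i)).sum = n * (A.map c).sum := Multiset.sum_map_mul_left

lemma Mult_scale {ι : Type*} [DecidableEq ι] {n : ℕ} (hn : 1 ≤ n) (I : Finset ι) (c : ι → ℕ)
    (M : ℕ) : Mult I (fun i => n * c i) (n * M) = Mult I c M := by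
  ext A
  simp only [Mult, Set.mem_ofPred_eq, sum_scale]
  constructor
  · rintro ⟨h1, h2⟩; exact ⟨h1, Nat.eq_of_mul_eq_mul_left (by omega) h2⟩
  · rintro ⟨h1, h2⟩; exact ⟨h1, by rw [h2]⟩

lemma Mult_scale' {ι : Type*} [DecidableEq ι] {n : ℕ} (I : Finset ι) (c : ι → ℕ)
    (L : ℕ) (h : ¬ n ∣ L) : Mult I (fun i => n * c i) L = ∅ := by
  ext A
  simp only [Mult, Set.mem_ofPred_eq, sum_scale, Set.mem_empty_iff_false, iff_false]
  rintro ⟨h1, h2⟩
  exact h ⟨_, h2.symm⟩

/-- **The generating function.** -/
theorem genfun {m K n : ℕ} (hn : 1 ≤ n) {ρ : Finset (List (Fin m)) → ℕ}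
    (hρ : Function.Injective ρ) :
    PowerSeries.mk (fun N => (c m (K + 1) n N : ℚ)) =
      ∑ l ∈ Finset.range K, (m : ℚ⟦X⟧) ^ l * X ^ (n * l) +
      ∑ q ∈ words m K ×ˢ words m K,
        ∑ p ∈ configs List.dropLast List.tail (words m (K + 1)) ρ q.1 q.2,
          X ^ (n * (K + p.1.card)) *
            ∏ C ∈ p.2, (X ^ (n * C.card) * (1 - X ^ (n * C.card))⁻¹) := by
  ext N
  rw [coeff_mk, map_add, map_sum, map_sum]
  have h1 : ∀ l, coeff N ((m : ℚ⟦X⟧) ^ l * X ^ (n * l)) = if N = n * l then (m : ℚ) ^ l else 0 := by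
    intro l
    rw [show (m : ℚ⟦X⟧) ^ l = C ((m : ℚ) ^ l) by simp, coeff_C_mul, coeff_X_pow]
    split_ifs <;> simp
  have h2 : ∀ q : List (Fin m) × List (Fin m),
      ∀ p ∈ configs List.dropLast List.tail (words m (K + 1)) ρ q.1 q.2,
      coeff N (X ^ (n * (K + p.1.card)) *
            ∏ C ∈ p.2, (X ^ (n * C.card) * (1 - (X : ℚ⟦X⟧) ^ (n * C.card))⁻¹)) =
      if n * (K + p.1.card) ≤ N then
        ((Mult p.2 (fun C => n * C.card) (N - n * (K + p.1.card))).ncard : ℚ) else 0 := by
    intro q p hp
    rw [coeff_X_pow_mul']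
    split_ifs with h
    · rw [coeff_prod_geom]
      intro D hD
      exact Nat.mul_pos hn ((mem_configs.mp hp).2.card_pos D hD)
    · rfl
  rw [Finset.sum_congr rfl (fun l _ => h1 l)]
  have h3 : ∀ q ∈ words m K ×ˢ words m K, coeff N (∑ p ∈ configs List.dropLast List.tail
      (words m (K + 1)) ρ q.1 q.2, X ^ (n * (K + p.1.card)) *
            ∏ C ∈ p.2, (X ^ (n * C.card) * (1 - (X : ℚ⟦X⟧) ^ (n * C.card))⁻¹)) =
      ∑ p ∈ configs List.dropLast List.tail (words m (K + 1)) ρ q.1 q.2,
      if n * (K + p.1.card) ≤ N then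
        ((Mult p.2 (fun C => n * C.card) (N - n * (K + p.1.card))).ncard : ℚ) else 0 := by
    intro q _
    rw [map_sum]
    exact Finset.sum_congr rfl (h2 q)
  rw [Finset.sum_congr rfl h3]
  by_cases hN : n ∣ N
  · obtain ⟨l, rfl⟩ := hN
    rcases lt_or_ge l K with hlK | hlK
    · rw [c_short hn hlK.le, Finset.sum_eq_single l, if_pos rfl]
      · rw [Finset.sum_eq_zero, add_zero]
        · push_cast; rfl
        · intro q _
          apply Finset.sum_eq_zero
          intro p _
          rw [if_neg]
          intro hle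
          have := Nat.le_of_mul_le_mul_left hle (by omega)
          omega
      · intro b _ hb
        rw [if_neg]
        intro heq
        exact hb (Nat.eq_of_mul_eq_mul_left (by omega) heq).symm
      · intro h
        exact absurd (Finset.mem_range.mpr hlK) h
    · rw [Finset.sum_eq_zero, zero_add, c_eq_flows hn hlK]
      · push_cast
        refine Finset.sum_congr rfl (fun q _ => ?_)
        rw [ncard_flows _ hρ]
        push_cast
        refine Finset.sum_congr rfl (fun p _ => ?_)
        rw [confMult_eq]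
        by_cases hle : p.1.card ≤ l - K
        · rw [if_pos hle, if_pos (Nat.mul_le_mul_left n (by omega)), ← Nat.mul_sub,
            Mult_scale hn, Nat.sub_add_eq]
        · rw [if_neg hle, if_neg, Set.ncard_empty, Nat.cast_zero]
          intro hle2
          have := Nat.le_of_mul_le_mul_left hle2 (by omega)
          omega
      · intro b hb
        rw [if_neg]
        intro heq
        have := Nat.eq_of_mul_eq_mul_left (by omega) heq
        rw [Finset.mem_range] at hb
        omega
  · rw [c_not_dvd hN, Finset.sum_eq_zero, Finset.sum_eq_zero, add_zero, Nat.cast_zero]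
    · intro q _
      apply Finset.sum_eq_zero
      intro p _
      split_ifs with hle
      · rw [Mult_scale', Set.ncard_empty, Nat.cast_zero]
        intro hdvd
        apply hN
        have := Nat.dvd_add hdvd (Dvd.intro (K + p.1.card) rfl : n ∣ n * (K + p.1.card))
        rwa [Nat.sub_add_cancel hle] at this
      · rfl
    · intro b _
      rw [if_neg]
      rintro rfl
      exact hN (Dvd.intro b rfl)

end Pool.Agent.Lib.MP_7e3249_co
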