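import Mathlib
import Pool.Agent.Lib.MP_7e3249_co.Series

/-!
# Asymptotics of the coefficients of products of geometric series
-/

set_option autoImplicit false

namespace Pool.Agent.Lib.MP_7e3249_co

open PowerSeries Filter Topology

lemma pow_ineq1 (q : ℕ) (c z : ℚ) (hc : 0 ≤ c) (hz : 0 ≤ z) :
    z ^ (q + 1) + (q + 1) * c * z ^ q ≤ (z + c) ^ (q + 1) := by
  induction q with
  | zero => simp
  | succ q ih =>
    have h1 := mul_le_mul_of_nonneg_left ih (add_nonneg hz hc)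
    have h2 : (0 : ℚ) ≤ (q + 1) * c * c * z ^ q := by positivity
    push_cast
    calc z ^ (q + 1 + 1) + ((q + 1 : ℚ) + 1) * c * z ^ (q + 1)
        ≤ z ^ (q + 1 + 1) + ((q + 1 : ℚ) + 1) * c * z ^ (q + 1) + (q + 1) * c * c * z ^ q := by
          linarith
      _ = (z + c) * (z ^ (q + 1) + (q + 1) * c * z ^ q) := by ring
      _ ≤ (z + c) * (z + c) ^ (q + 1) := h1
      _ = (z + c) ^ (q + 1 + 1) := by ring

lemma pow_ineq2 (q : ℕ) (c z : ℚ) (hc : 0 ≤ c) (hz : 0 ≤ z) :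
    z ^ (q + 1) ≤ (max (z - c) 0) ^ (q + 1) + (q + 1) * c * z ^ q := by
  have key : ∀ w : ℚ, 0 ≤ w → (w + c) ^ (q + 1) ≤ w ^ (q + 1) + (q + 1) * c * (w + c) ^ q := by
    intro w hw
    induction q with
    | zero => simp
    | succ q ih =>
      have h1 := mul_le_mul_of_nonneg_left ih hw
      have h2 : (0 : ℚ) ≤ (q + 1) * c * c * (w + c) ^ q := by positivity
      push_cast
      calc (w + c) ^ (q + 1 + 1) = w * (w + c) ^ (q + 1) + c * (w + c) ^ (q + 1) := by ring
        _ ≤ w * (w ^ (q + 1) + (q + 1) * c * (w + c) ^ q) + c * (w + c) ^ (q + 1) := by linarith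
        _ ≤ w * (w ^ (q + 1) + (q + 1) * c * (w + c) ^ q) + c * (w + c) ^ (q + 1) +
            (q + 1) * c * c * (w + c) ^ q := by linarith
        _ = w ^ (q + 1 + 1) + ((q + 1 : ℚ) + 1) * c * (w + c) ^ (q + 1) := by ring
  rcases le_total c z with h | h
  · rw [max_eq_left (by linarith)]
    have := key (z - c) (by linarith)
    rwa [sub_add_cancel] at this
  · rw [max_eq_right (by linarith), zero_pow (by omega), zero_add]
    have h1 : z * z ^ q ≤ c * z ^ q := mul_le_mul_of_nonneg_right h (by positivity)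
    have h2 : (0 : ℚ) ≤ q * (c * z ^ q) := by positivity
    calc z ^ (q + 1) = z * z ^ q := by ring
      _ ≤ c * z ^ q := h1
      _ ≤ (q + 1) * c * z ^ q := by linarith

lemma coeff_rec (F : ℚ⟦X⟧) (c : ℕ) (hc : 0 < c) (L : ℕ) :
    coeff L (F * (X ^ c * (1 - X ^ c)⁻¹)) =
      if c ≤ L then coeff (L - c) (F * (X ^ c * (1 - X ^ c)⁻¹)) + coeff (L - c) F else 0 := by
  have h0 : constantCoeff (1 - (X : ℚ⟦X⟧) ^ c) ≠ 0 := by
    rw [map_sub, map_pow, constantCoeff_X, zero_pow hc.ne', map_one, sub_zero]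
    exact one_ne_zero
  have h1 : (1 - (X : ℚ⟦X⟧) ^ c)⁻¹ * (1 - X ^ c) = 1 := PowerSeries.inv_mul_cancel _ h0
  have h : F * (X ^ c * (1 - X ^ c)⁻¹) = (F * (X ^ c * (1 - X ^ c)⁻¹)) * X ^ c + F * X ^ c := by
    have : F * (X ^ c * (1 - X ^ c)⁻¹) * (1 - X ^ c) = F * X ^ c := by
      rw [mul_assoc, mul_assoc, h1, mul_one]
    linear_combination this
  conv_lhs => rw [h]
  rw [map_add, coeff_mul_X_pow', coeff_mul_X_pow']
  split_ifs <;> simp

lemma coeff_inv_one_sub (L : ℕ) : coeff L ((1 - (X : ℚ⟦X⟧))⁻¹) = 1 := by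
  have h0 : constantCoeff (1 - (X : ℚ⟦X⟧)) ≠ 0 := by
    rw [map_sub, constantCoeff_X, map_one, sub_zero]
    exact one_ne_zero
  have h : (1 - (X : ℚ⟦X⟧))⁻¹ = PowerSeries.mk 1 := by
    symm
    rw [PowerSeries.eq_inv_iff_mul_eq_one h0]
    exact PowerSeries.mk_one_mul_one_sub_eq_one ℚ
  rw [h, coeff_mk]
  rfl

/-- Two-sided polynomial bounds for the coefficients of `(1-X)⁻¹ ∏ X^c (1-X^c)⁻¹`. -/
theorem coeff_bounds {ι : Type*} [DecidableEq ι] (c : ι → ℕ) (I : Finset ι) :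
    (∀ i ∈ I, 0 < c i) → ∀ L : ℕ,
    (max ((L : ℚ) - ∑ i ∈ I, (c i : ℚ)) 0) ^ I.card ≤ (I.card.factorial : ℚ) * (∏ i ∈ I, (c i : ℚ)) *
      coeff L ((1 - (X : ℚ⟦X⟧))⁻¹ * ∏ i ∈ I, (X ^ c i * (1 - X ^ c i)⁻¹)) ∧
    (I.card.factorial : ℚ) * (∏ i ∈ I, (c i : ℚ)) *
      coeff L ((1 - (X : ℚ⟦X⟧))⁻¹ * ∏ i ∈ I, (X ^ c i * (1 - X ^ c i)⁻¹)) ≤ (L : ℚ) ^ I.card := by
  induction I using Finset.induction_on with
  | empty =>
    intro _ L
    simp [coeff_inv_one_sub]
  | insert i I hi ih =>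
    intro hc
    have hcI : ∀ j ∈ I, 0 < c j := fun j hj => hc j (Finset.mem_insert_of_mem hj)
    have hci : 0 < c i := hc i (Finset.mem_insert_self _ _)
    have ih' := ih hcI
    set F := (1 - (X : ℚ⟦X⟧))⁻¹ * ∏ i ∈ I, (X ^ c i * (1 - X ^ c i)⁻¹) with hF
    have hG : (1 - (X : ℚ⟦X⟧))⁻¹ * ∏ i ∈ insert i I, (X ^ c i * (1 - X ^ c i)⁻¹) =
        F * (X ^ c i * (1 - X ^ c i)⁻¹) := by
      rw [Finset.prod_insert hi, hF]; ring
    rw [hG, Finset.card_insert_of_notMem hi, Finset.prod_insert hi, Finset.sum_insert hi]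
    set q := I.card with hq
    set Pr := ∏ i ∈ I, (c i : ℚ) with hPr
    set S := ∑ i ∈ I, (c i : ℚ) with hS
    have hSn : 0 ≤ S := Finset.sum_nonneg (fun i _ => Nat.cast_nonneg _)
    have hcq : (0 : ℚ) ≤ (c i : ℚ) := Nat.cast_nonneg _
    intro L
    induction L using Nat.strong_induction_on with
    | _ L ihL =>
      rw [coeff_rec F (c i) hci L]
      by_cases hL : c i ≤ L
      · rw [if_pos hL]
        obtain ⟨h1, h2⟩ := ihL (L - c i) (by omega)
        obtain ⟨h3, h4⟩ := ih' (L - c i)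
        have hcast : ((L - c i : ℕ) : ℚ) = (L : ℚ) - c i := by rw [Nat.cast_sub hL]
        rw [hcast] at h1 h2 h3 h4
        have hL' : (c i : ℚ) ≤ L := by exact_mod_cast hL
        have hfac : ((q + 1).factorial : ℚ) = (q + 1) * (q.factorial : ℚ) := by
          rw [Nat.factorial_succ]; push_cast; ring
        set x := coeff (L - c i) (F * (X ^ c i * (1 - X ^ c i)⁻¹)) with hx
        set y := coeff (L - c i) F with hy
        have hsplit : ((q + 1).factorial : ℚ) * ((c i : ℚ) * Pr) * (x + y) =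
            ((q + 1).factorial : ℚ) * ((c i : ℚ) * Pr) * x +
              (q + 1) * (c i) * ((q.factorial : ℚ) * Pr * y) := by
          rw [hfac]; ring
        rw [hsplit]
        constructor
        · -- lower bound
          set z : ℚ := max ((L : ℚ) - c i - S) 0 with hz
          have hz0 : 0 ≤ z := le_max_right _ _
          have e1 : max ((L : ℚ) - (c i + S)) 0 = z := by rw [hz]; congr 1; ring
          have e2 : max ((L : ℚ) - c i - (c i + S)) 0 = max (z - c i) 0 := by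
            rw [hz]
            rcases le_total ((L : ℚ) - c i - S) 0 with h | h
            · rw [max_eq_right h, max_eq_right (by linarith), max_eq_right (by linarith)]
            · rw [max_eq_left h]; congr 1; ring
          rw [e1]
          rw [e2] at h1
          have h5 := pow_ineq2 q (c i) z hcq hz0
          have h6 : (q + 1 : ℚ) * (c i) * z ^ q ≤ (q + 1) * (c i) * ((q.factorial : ℚ) * Pr * y) :=
            mul_le_mul_of_nonneg_left h3 (by positivity)
          linarith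
        · have h5 := pow_ineq1 q (c i) ((L : ℚ) - c i) hcq (by linarith)
          rw [sub_add_cancel] at h5
          have h6 : (q + 1 : ℚ) * (c i) * ((q.factorial : ℚ) * Pr * y) ≤
              (q + 1) * (c i) * ((L : ℚ) - c i) ^ q :=
            mul_le_mul_of_nonneg_left h4 (by positivity)
          linarith
      · rw [if_neg hL, mul_zero]
        have hL' : (L : ℚ) < c i := by exact_mod_cast not_le.mp hL
        refine ⟨?_, by positivity⟩
        rw [max_eq_right (by linarith), zero_pow (by omega)]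

/-- The normalised coefficients converge. -/
theorem coeff_tendsto {ι : Type*} [DecidableEq ι] (c : ι → ℕ) (I : Finset ι)
    (hc : ∀ i ∈ I, 0 < c i) :
    Tendsto (fun L : ℕ => ((coeff L ((1 - (X : ℚ⟦X⟧))⁻¹ * ∏ i ∈ I, (X ^ c i * (1 - X ^ c i)⁻¹)) : ℚ) : ℝ)
      / (L : ℝ) ^ I.card) atTop
      (𝓝 (1 / ((I.card.factorial : ℝ) * ∏ i ∈ I, (c i : ℝ)))) := by
  set a : ℕ → ℝ := fun L => ((coeff L ((1 - (X : ℚ⟦X⟧))⁻¹ * ∏ i ∈ I, (X ^ c i * (1 - X ^ c i)⁻¹)) : ℚ) : ℝ)
    with ha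
  set κ : ℝ := (I.card.factorial : ℝ) * ∏ i ∈ I, (c i : ℝ) with hκ
  have hκ0 : 0 < κ := by
    rw [hκ]
    refine mul_pos (by exact_mod_cast Nat.factorial_pos _) (Finset.prod_pos (fun i hi => ?_))
    exact_mod_cast hc i hi
  set S : ℝ := ∑ i ∈ I, (c i : ℝ) with hS
  have hb : ∀ L : ℕ, (max ((L : ℝ) - S) 0) ^ I.card ≤ κ * a L ∧ κ * a L ≤ (L : ℝ) ^ I.card := by
    intro L
    obtain ⟨h1, h2⟩ := coeff_bounds c I hc L
    constructor
    · have := (Rat.cast_le (K := ℝ)).mpr h1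
      rw [hκ, hS, ha]
      push_cast at this ⊢
      exact this
    · have := (Rat.cast_le (K := ℝ)).mpr h2
      rw [hκ, ha]
      push_cast at this ⊢
      exact this
  have hlow : Tendsto (fun L : ℕ => (max (1 - S / (L : ℝ)) 0) ^ I.card) atTop (𝓝 1) := by
    have h1 : Tendsto (fun L : ℕ => S / (L : ℝ)) atTop (𝓝 0) :=
      tendsto_const_div_atTop_nhds_zero_nat S
    have h2 : Tendsto (fun L : ℕ => (max (1 - S / (L : ℝ)) 0) ^ I.card) atTop
        (𝓝 ((max (1 - 0) 0) ^ I.card)) :=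
      (((tendsto_const_nhds.sub h1).max tendsto_const_nhds).pow _)
    simpa using h2
  have hmain : Tendsto (fun L : ℕ => κ * (a L / (L : ℝ) ^ I.card)) atTop (𝓝 1) := by
    refine tendsto_of_tendsto_of_tendsto_of_le_of_le' hlow tendsto_const_nhds ?_ ?_
    · filter_upwards [eventually_gt_atTop 0] with L hL
      have hL' : (0 : ℝ) < L := by exact_mod_cast hL
      have hLp : (0 : ℝ) < (L : ℝ) ^ I.card := by positivity
      rw [← mul_div_assoc, le_div_iff₀ hLp, ← mul_pow]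
      refine le_trans (le_of_eq ?_) (hb L).1
      congr 1
      rw [max_mul_of_nonneg _ _ hL'.le, zero_mul, sub_mul, one_mul, div_mul_cancel₀ _ hL'.ne']
    · filter_upwards [eventually_gt_atTop 0] with L hL
      have hL' : (0 : ℝ) < L := by exact_mod_cast hL
      have hLp : (0 : ℝ) < (L : ℝ) ^ I.card := by positivity
      rw [← mul_div_assoc, div_le_one hLp]
      exact (hb L).2
  have := hmain.const_mul (1 / κ)
  rw [mul_one] at this
  refine this.congr (fun L => ?_)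
  rw [← mul_assoc, one_div, inv_mul_cancel₀ hκ0.ne', one_mul]

lemma coeff_mul_mono {A A' B : ℚ⟦X⟧} (hA : ∀ n, coeff n A ≤ coeff n A')
    (hB : ∀ n, 0 ≤ coeff n B) (n : ℕ) : coeff n (A * B) ≤ coeff n (A' * B) := by
  rw [coeff_mul, coeff_mul]
  exact Finset.sum_le_sum (fun p _ => mul_le_mul_of_nonneg_right (hA _) (hB _))

/-- few cycles: lower order. -/
theorem Mult_bound {ι : Type*} [DecidableEq ι] (c : ι → ℕ) (I : Finset ι)
    (hc : ∀ i ∈ I, 0 < c i) {d : ℕ} (hd : 1 ≤ d) (hI : I.card ≤ d) {L : ℕ} (hL : 1 ≤ L) :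
    ((Mult I c L).ncard : ℝ) ≤ (L : ℝ) ^ (d - 1) := by
  have hL1 : (1 : ℚ) ≤ (L : ℚ) := by exact_mod_cast hL
  have key : ((Mult I c L).ncard : ℚ) ≤ (L : ℚ) ^ (d - 1) := by
    rw [← coeff_prod_geom I c hc L]
    rcases I.eq_empty_or_nonempty with rfl | ⟨i, hi⟩
    · rw [Finset.prod_empty, coeff_one, if_neg (by omega)]
      positivity
    · rw [← Finset.mul_prod_erase I _ hi]
      have hcI : ∀ j ∈ I.erase i, 0 < c j := fun j hj => hc j (Finset.mem_of_mem_erase hj)
      have h1 : coeff L ((X : ℚ⟦X⟧) ^ c i * (1 - X ^ c i)⁻¹ *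
          ∏ x ∈ I.erase i, (X ^ c x * (1 - X ^ c x)⁻¹)) ≤
          coeff L ((1 - (X : ℚ⟦X⟧))⁻¹ * ∏ x ∈ I.erase i, (X ^ c x * (1 - X ^ c x)⁻¹)) := by
        apply coeff_mul_mono
        · intro n
          rw [coeff_geom _ (hc i hi), coeff_inv_one_sub]
          split_ifs <;> norm_num
        · intro n
          rw [coeff_prod_geom _ c hcI n]
          exact Nat.cast_nonneg _
      obtain ⟨-, h2⟩ := coeff_bounds c (I.erase i) hcI L
      set x := coeff L ((1 - (X : ℚ⟦X⟧))⁻¹ * ∏ x ∈ I.erase i, (X ^ c x * (1 - X ^ c x)⁻¹)) with hx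
      have hfac : (1 : ℚ) ≤ ((I.erase i).card.factorial : ℚ) * ∏ i ∈ I.erase i, (c i : ℚ) := by
        have : 1 ≤ (I.erase i).card.factorial * ∏ i ∈ I.erase i, c i :=
          Nat.mul_pos (Nat.factorial_pos _) (Finset.prod_pos hcI)
        exact_mod_cast this
      have hx0 : 0 ≤ x := by
        have : (0 : ℚ) ≤ ((I.erase i).card.factorial : ℚ) * (∏ i ∈ I.erase i, (c i : ℚ)) * x :=
          le_trans (by positivity) (coeff_bounds c (I.erase i) hcI L).1
        by_contra hneg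
        push Not at hneg
        nlinarith
      have h3 : x ≤ (L : ℚ) ^ (I.erase i).card := by
        refine le_trans ?_ h2
        calc x = 1 * x := (one_mul x).symm
          _ ≤ _ := mul_le_mul_of_nonneg_right hfac hx0
      calc _ ≤ x := h1
        _ ≤ (L : ℚ) ^ (I.erase i).card := h3
        _ ≤ (L : ℚ) ^ (d - 1) := by
          apply pow_le_pow_right₀ hL1
          rw [Finset.card_erase_of_mem hi]
          omega
  have := (Rat.cast_le (K := ℝ)).mpr key
  push_cast at this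
  exact this

/-- few cycles: the normalised number tends to zero. -/
theorem Mult_tendsto_zero {ι : Type*} [DecidableEq ι] (c : ι → ℕ) (I : Finset ι)
    (hc : ∀ i ∈ I, 0 < c i) {d : ℕ} (hd : 1 ≤ d) (hI : I.card ≤ d) :
    Tendsto (fun L : ℕ => ((Mult I c L).ncard : ℝ) / (L : ℝ) ^ d) atTop (𝓝 0) := by
  refine squeeze_zero' (Eventually.of_forall (fun L => by positivity)) ?_
    tendsto_one_div_atTop_nhds_zero_nat
  filter_upwards [eventually_ge_atTop 1] with L hL
  have hL' : (0 : ℝ) < L := by exact_mod_cast hL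
  rw [div_le_div_iff₀ (by positivity) hL', one_mul]
  calc ((Mult I c L).ncard : ℝ) * L ≤ (L : ℝ) ^ (d - 1) * L :=
        mul_le_mul_of_nonneg_right (Mult_bound c I hc hd hI hL) hL'.le
    _ = (L : ℝ) ^ d := by rw [← pow_succ, Nat.sub_add_cancel hd]

/-- The main term: `d + 1` weights, one of them equal to one. -/
theorem Mult_tendsto {ι : Type*} [DecidableEq ι] (c : ι → ℕ) (I : Finset ι)
    (hc : ∀ i ∈ I, 0 < c i) {i₀ : ι} (hi₀ : i₀ ∈ I) (hi₁ : c i₀ = 1) {d : ℕ}
    (hI : I.card = d + 1) :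
    Tendsto (fun L : ℕ => ((Mult I c L).ncard : ℝ) / (L : ℝ) ^ d) atTop
      (𝓝 (1 / ((d.factorial : ℝ) * ∏ i ∈ I, (c i : ℝ)))) := by
  have hcI : ∀ j ∈ I.erase i₀, 0 < c j := fun j hj => hc j (Finset.mem_of_mem_erase hj)
  have hcard : (I.erase i₀).card = d := by rw [Finset.card_erase_of_mem hi₀, hI]; rfl
  have h1 := coeff_tendsto c (I.erase i₀) hcI
  rw [hcard] at h1
  have hprod : ∏ i ∈ I, (c i : ℝ) = ∏ i ∈ I.erase i₀, (c i : ℝ) := by
    rw [← Finset.mul_prod_erase I _ hi₀, hi₁, Nat.cast_one, one_mul]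
  rw [hprod]
  -- shift by one
  rw [← tendsto_add_atTop_iff_nat 1]
  have hval : ∀ L : ℕ, ((Mult I c (L + 1)).ncard : ℝ) =
      ((coeff L ((1 - (X : ℚ⟦X⟧))⁻¹ * ∏ i ∈ I.erase i₀, (X ^ c i * (1 - X ^ c i)⁻¹)) : ℚ) : ℝ) := by
    intro L
    have : ((Mult I c (L + 1)).ncard : ℚ) =
        coeff L ((1 - (X : ℚ⟦X⟧))⁻¹ * ∏ i ∈ I.erase i₀, (X ^ c i * (1 - X ^ c i)⁻¹)) := by
      rw [← coeff_prod_geom I c hc (L + 1), ← Finset.mul_prod_erase I _ hi₀, hi₁, pow_one,
        mul_assoc, coeff_succ_X_mul]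
    rw [← this, Rat.cast_natCast]
  have h2 : Tendsto (fun L : ℕ => ((L : ℝ) / ((L + 1 : ℕ) : ℝ)) ^ d) atTop (𝓝 1) := by
    have h3 : Tendsto (fun L : ℕ => (L : ℝ) / ((L : ℝ) + 1)) atTop (𝓝 1) :=
      tendsto_natCast_div_add_atTop 1
    have := h3.pow d
    rw [one_pow] at this
    refine this.congr (fun L => ?_)
    push_cast
    rfl
  have h3 := h1.mul h2
  rw [mul_one] at h3
  refine h3.congr' ?_
  filter_upwards [eventually_gt_atTop 0] with L hL
  have hL' : (0 : ℝ) < L := by exact_mod_cast hL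
  have hL1 : (0 : ℝ) < ((L + 1 : ℕ) : ℝ) := by positivity
  rw [hval L, div_pow]
  field_simp

end Pool.Agent.Lib.MP_7e3249_co
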