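import Mathlib
import Pool.Agent.Lib.MP_7e3249_co.Bounds

/-!
# Circulations of the de Bruijn graph
-/

set_option autoImplicit false

namespace Pool.Agent.Lib.MP_7e3249_co

open Filter Topology

section General

variable {V E : Type*} [DecidableEq V] [DecidableEq E] (s t : E → V)

/-- circulations with `L` edges, all in `F`. -/
def circs (F : Finset E) (L : ℕ) : Set (Multiset E) :=
  {f | f.map s = f.map t ∧ (∀ e ∈ f, e ∈ F) ∧ Multiset.card f = L}

variable {s t}

omit [DecidableEq V] in
lemma mem_stacks {F : Finset E} {ρ : Finset E → ℕ} {I : Finset (Finset E)} :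
    I ∈ stackSets s t F ρ ↔ (∀ D ∈ I, D ⊆ F) ∧ IsStack s t ρ I := by
  unfold stackSets
  simp only [Finset.mem_filter, Finset.mem_powerset]
  constructor
  · rintro ⟨h1, h2⟩
    exact ⟨fun D hD => Finset.mem_powerset.mp (h1 hD), h2⟩
  · rintro ⟨h1, h2⟩
    exact ⟨fun D hD => Finset.mem_powerset.mpr (h1 D hD), h2⟩

omit [DecidableEq V] [DecidableEq E] in
lemma IsStack.card_pos' {ρ : Finset E → ℕ} {I : Finset (Finset E)}
    [DecidableEq E] (h : IsStack s t ρ I) : ∀ D ∈ I, 0 < D.card :=
  fun D hD => Finset.card_pos.mpr (h.1 D hD).1

/-- number of circulations as a sum over the stacks. -/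
theorem ncard_circs (F : Finset E) {ρ : Finset E → ℕ} (hρ : Function.Injective ρ) (L : ℕ) :
    (circs s t F L).ncard = ∑ I ∈ stackSets s t F ρ, (Mult I Finset.card L).ncard := by
  rw [← ncard_fiber (stackSets s t F ρ) (fun I => Mult I Finset.card L)
    (fun I hI => finite_Mult _ _ (mem_stacks.mp hI).2.card_pos' _)]
  have himg : circs s t F L = (fun x : Finset (Finset E) × Multiset (Finset E) =>
      x.2.bind Finset.val) '' {x | x.1 ∈ stackSets s t F ρ ∧ x.2 ∈ Mult x.1 Finset.card L} := by
    ext f
    constructor
    · rintro ⟨h1, h2, h3⟩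
      obtain ⟨A, hA, hAf⟩ := exists_decomp ρ _ f rfl h1
      refine ⟨(A.toFinset, A), ⟨mem_stacks.mpr ⟨?_, hA⟩, rfl, ?_⟩, hAf⟩
      · intro D hD e he
        apply h2
        rw [← hAf]
        exact Multiset.mem_bind.mpr ⟨D, Multiset.mem_toFinset.mp hD, he⟩
      · rw [← card_bind_val, hAf, h3]
    · rintro ⟨⟨I, A⟩, ⟨h1, h2, h3⟩, rfl⟩
      obtain ⟨h4, h5⟩ := mem_stacks.mp h1
      simp only at h2 h3 h4 h5 ⊢
      subst h2
      refine ⟨bind_circ A (fun D hD => h5.1 D (Multiset.mem_toFinset.mpr hD)), ?_, ?_⟩
      · intro e he
        obtain ⟨D, hD, heD⟩ := Multiset.mem_bind.mp he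
        exact h4 D (Multiset.mem_toFinset.mpr hD) heD
      · rw [card_bind_val, h3]
  have hinj : Set.InjOn (fun x : Finset (Finset E) × Multiset (Finset E) =>
      x.2.bind Finset.val) {x | x.1 ∈ stackSets s t F ρ ∧ x.2 ∈ Mult x.1 Finset.card L} := by
    rintro ⟨I, A⟩ ⟨h1, h2, h3⟩ ⟨J, B⟩ ⟨h1', h2', h3'⟩ h
    have h5 := (mem_stacks.mp h1).2
    have h5' := (mem_stacks.mp h1').2
    simp only at h2 h2' h5 h5' h
    subst h2 h2'
    have := decomp_unique hρ _ A B rfl h5 h5' h
    subst this
    rfl
  rw [himg, hinj.ncard_image]

omit [DecidableEq V] in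
lemma finite_circs (F : Finset E) (L : ℕ) : (circs s t F L).Finite := by
  apply Set.Finite.subset (Set.finite_Iic (L • F.val))
  rintro f ⟨-, h3, h4⟩
  rw [Set.mem_Iic, Multiset.le_iff_count]
  intro e
  rw [Multiset.count_nsmul]
  by_cases he : e ∈ f
  · rw [Multiset.count_eq_one_of_mem F.nodup (h3 e he), mul_one, ← h4]
    exact Multiset.count_le_card _ _
  · rw [Multiset.count_eq_zero_of_notMem he]; exact Nat.zero_le _

omit [DecidableEq V] in
/-- lower bound for the number of flows. -/
lemma circs_le_flows (F : Finset E) {u v : V} {p : List E} (hp : IsWalk s t u p v)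
    (hpF : ∀ e, e ∈ p ↔ e ∈ F) (L : ℕ) :
    (circs s t F L).ncard ≤ (flows s t F u v (L + p.length)).ncard := by
  have hinj : Set.InjOn (fun f : Multiset E => f + (p : Multiset E)) (circs s t F L) := by
    intro f _ g _ h
    exact Multiset.add_left_inj.mp h
  rw [← hinj.ncard_image]
  apply Set.ncard_le_ncard _ (finite_flows _ _ _ _ _ _)
  rintro _ ⟨f, ⟨h1, h2, h3⟩, rfl⟩
  refine ⟨?_, ?_, ?_, ?_⟩
  · change Flow s t u v (f + (p : Multiset E))
    rw [add_comm]; exact hp.flow.add h1
  · apply Conn.of_walk hp
    · intro e he
      exact Multiset.mem_add.mpr (Or.inr (by simpa using he))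
    · intro e he
      rcases Multiset.mem_add.mp he with he | he
      · exact (hpF e).mpr (h2 e he)
      · simpa using he
  · intro e he
    rcases Multiset.mem_add.mp he with he | he
    · exact h2 e he
    · exact (hpF e).mp (by simpa using he)
  · rw [Multiset.card_add, h3, Multiset.coe_card]

omit [DecidableEq V] in
/-- upper bound for the number of flows. -/
lemma flows_le_circs (F : Finset E) {u v : V} {p : List E} (hp : IsWalk s t v p u)
    (hpF : ∀ e ∈ p, e ∈ F) (L : ℕ) :
    (flows s t F u v L).ncard ≤ (circs s t F (L + p.length)).ncard := by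
  have hinj : Set.InjOn (fun f : Multiset E => f + (p : Multiset E)) (flows s t F u v L) := by
    intro f _ g _ h
    exact Multiset.add_left_inj.mp h
  rw [← hinj.ncard_image]
  apply Set.ncard_le_ncard _ (finite_circs _ _)
  rintro _ ⟨f, ⟨h1, _, h2, h3⟩, rfl⟩
  refine ⟨?_, ?_, ?_⟩
  · exact flow_self_iff.mp (h1.trans hp.flow)
  · intro e he
    rcases Multiset.mem_add.mp he with he | he
    · exact h2 e he
    · exact hpF e (by simpa using he)
  · rw [Multiset.card_add, h3, Multiset.coe_card]

end General

section DeBruijn

lemma mem_facs_mid {α : Type} {K : ℕ} {x : List α} (hx : x.length = K + 1) (y z : List α) :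
    x ∈ facs K (y ++ (x ++ z)) := by
  induction y with
  | nil =>
    rw [List.nil_append]
    cases x with
    | nil => simp at hx
    | cons a x =>
      rw [List.length_cons] at hx
      rw [List.cons_append, facs_cons (by rw [List.length_append]; omega), List.mem_cons]
      left
      rw [← List.cons_append, List.take_append_of_le_length (by rw [List.length_cons]; omega)]
      rw [List.take_of_length_le (by rw [List.length_cons]; omega)]
  | cons a y ih =>
    rw [List.cons_append, facs_cons (by rw [List.length_append, List.length_append]; omega)]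
    exact List.mem_cons_of_mem _ ih

/-- In the de Bruijn graph any two vertices are joined by a walk using every edge. -/
lemma exists_full_walk {m K : ℕ} {u v : List (Fin m)} (hu : u.length = K) (hv : v.length = K) :
    ∃ p : List (List (Fin m)), IsWalk List.dropLast List.tail u p v ∧
      ∀ e, e ∈ p ↔ e ∈ words m (K + 1) := by
  set W : List (Fin m) := u ++ ((words m (K + 1)).toList.flatten ++ v) with hW
  have hK : K ≤ W.length := by rw [hW, List.length_append]; omega
  have hw := isWalk_facs hK
  have h1 : W.take K = u := by
    rw [hW, List.take_append_of_le_length (le_of_eq hu.symm), ← hu, List.take_length]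
  have h2 : suf K W = v := by
    rw [hW, suf_append (by rw [List.length_append]; omega), suf_append (le_of_eq hv.symm),
      suf_of_eq hv]
  rw [h1, h2] at hw
  refine ⟨facs K W, hw, fun e => ⟨fun he => mem_words.mpr (length_of_mem_facs he), fun he => ?_⟩⟩
  obtain ⟨l₁, l₂, hl⟩ := List.append_of_mem (Finset.mem_toList.mpr he)
  rw [hW, hl, List.flatten_append, List.flatten_cons]
  have := mem_facs_mid (K := K) (mem_words.mp he) (u ++ l₁.flatten) (l₂.flatten ++ v)
  simpa [List.append_assoc] using this

/-- out-degree of a vertex in terms of the counts. -/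
lemma count_dropLast {m K : ℕ} {f : Multiset (List (Fin m))} (hf : ∀ e ∈ f, e.length = K + 1)
    (y : List (Fin m)) :
    (f.map List.dropLast).count y = ∑ b : Fin m, f.count (y ++ [b]) := by
  induction f using Multiset.induction_on with
  | empty => simp
  | cons e f ih =>
    rw [Multiset.map_cons, Multiset.count_cons,
      ih (fun g hg => hf g (Multiset.mem_cons_of_mem hg))]
    simp only [Multiset.count_cons]
    rw [Finset.sum_add_distrib]
    congr 1
    have he := hf e (Multiset.mem_cons_self _ _)
    have hne : e ≠ [] := by rintro rfl; simp at he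
    have hsplit := List.dropLast_append_getLast hne
    by_cases h : y = e.dropLast
    · rw [if_pos h, Finset.sum_eq_single (e.getLast hne), if_pos (by rw [h, hsplit])]
      · intro b _ hb
        rw [if_neg]
        intro heq
        rw [h] at heq
        have h3 : e.dropLast ++ [b] = e.dropLast ++ [e.getLast hne] := by rw [heq, hsplit]
        have h4 := List.append_cancel_left h3
        rw [List.cons.injEq] at h4
        exact hb h4.1
      · intro h; exact absurd (Finset.mem_univ _) h
    · rw [if_neg h, Finset.sum_eq_zero]
      intro b _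
      rw [if_neg]
      intro heq
      apply h
      rw [← heq, List.dropLast_concat]

/-- in-degree of a vertex in terms of the counts. -/
lemma count_tail {m K : ℕ} {f : Multiset (List (Fin m))} (hf : ∀ e ∈ f, e.length = K + 1)
    (y : List (Fin m)) :
    (f.map List.tail).count y = ∑ a : Fin m, f.count (a :: y) := by
  induction f using Multiset.induction_on with
  | empty => simp
  | cons e f ih =>
    rw [Multiset.map_cons, Multiset.count_cons,
      ih (fun g hg => hf g (Multiset.mem_cons_of_mem hg))]
    simp only [Multiset.count_cons]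
    rw [Finset.sum_add_distrib]
    congr 1
    have he := hf e (Multiset.mem_cons_self _ _)
    cases e with
    | nil => simp at he
    | cons a e =>
      rw [List.tail_cons]
      by_cases h : y = e
      · subst h
        rw [if_pos rfl, Finset.sum_eq_single a, if_pos rfl]
        · intro b _ hb
          rw [if_neg]
          intro heq
          rw [List.cons.injEq] at heq
          exact hb heq.1
        · intro h; exact absurd (Finset.mem_univ _) h
      · rw [if_neg h, Finset.sum_eq_zero]
        intro b _
        rw [if_neg]
        intro heq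
        rw [List.cons.injEq] at heq
        exact h heq.2

/-- A circulation of the de Bruijn graph is determined by its values on the words that do not
begin with the letter `0` and on the word `0 ... 0`. -/
lemma circ_determined {M K : ℕ} {f g : Multiset (List (Fin (M + 1)))}
    (hf : ∀ e ∈ f, e.length = K + 1) (hg : ∀ e ∈ g, e.length = K + 1)
    (hfc : f.map List.dropLast = f.map List.tail) (hgc : g.map List.dropLast = g.map List.tail)
    (h0 : f.count (List.replicate (K + 1) 0) = g.count (List.replicate (K + 1) 0))
    (h1 : ∀ (a : Fin (M + 1)) (y : List (Fin (M + 1))), a ≠ 0 → y.length = K →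
      f.count (a :: y) = g.count (a :: y)) : f = g := by
  -- words with `j` leading zeros
  have key : ∀ (j : ℕ) (a : Fin (M + 1)) (y : List (Fin (M + 1))), a ≠ 0 →
      j + (y.length + 1) = K + 1 →
      f.count (List.replicate j 0 ++ a :: y) = g.count (List.replicate j 0 ++ a :: y) := by
    intro j
    induction j with
    | zero =>
      intro a y ha hy
      exact h1 a y ha (by omega)
    | succ j ih =>
      intro a y ha hy
      set z : List (Fin (M + 1)) := List.replicate j 0 ++ a :: y with hz
      have hzl : z.length = K := by
        rw [hz, List.length_append, List.length_replicate, List.length_cons]; omega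
      have ef : ∑ a : Fin (M + 1), f.count (a :: z) = ∑ b : Fin (M + 1), f.count (z ++ [b]) := by
        rw [← count_tail hf, ← count_dropLast hf, hfc]
      have eg : ∑ a : Fin (M + 1), g.count (a :: z) = ∑ b : Fin (M + 1), g.count (z ++ [b]) := by
        rw [← count_tail hg, ← count_dropLast hg, hgc]
      have hout : ∑ b : Fin (M + 1), f.count (z ++ [b]) = ∑ b : Fin (M + 1), g.count (z ++ [b]) := by
        refine Finset.sum_congr rfl (fun b _ => ?_)
        have := ih a (y ++ [b]) ha (by rw [List.length_append, List.length_singleton]; omega)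
        rw [hz, List.append_assoc, List.cons_append]
        exact this
      rw [← ef, ← eg, Fin.sum_univ_succ, Fin.sum_univ_succ] at hout
      have hrest : ∑ i : Fin M, f.count (i.succ :: z) = ∑ i : Fin M, g.count (i.succ :: z) :=
        Finset.sum_congr rfl (fun i _ => h1 _ _ (Fin.succ_ne_zero i) hzl)
      rw [hrest] at hout
      have hfin := Nat.add_right_cancel hout
      rw [List.replicate_succ, List.cons_append, ← hz]
      exact hfin
  ext x
  by_cases hx : x.length = K + 1
  · -- split off the leading zeros
    have hdec : ∀ x : List (Fin (M + 1)), (∃ j, x = List.replicate j 0) ∨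
        ∃ (j : ℕ) (a : Fin (M + 1)) (y : List (Fin (M + 1))), a ≠ 0 ∧
          x = List.replicate j 0 ++ a :: y := by
      intro x
      induction x with
      | nil => exact Or.inl ⟨0, rfl⟩
      | cons b x ih =>
        by_cases hb : b = 0
        · subst hb
          rcases ih with ⟨j, rfl⟩ | ⟨j, a, y, ha, rfl⟩
          · exact Or.inl ⟨j + 1, by rw [List.replicate_succ]⟩
          · exact Or.inr ⟨j + 1, a, y, ha, by rw [List.replicate_succ, List.cons_append]⟩
        · exact Or.inr ⟨0, b, x, hb, rfl⟩
    rcases hdec x with ⟨j, rfl⟩ | ⟨j, a, y, ha, rfl⟩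
    · rw [List.length_replicate] at hx
      rw [hx]; exact h0
    · rw [List.length_append, List.length_replicate, List.length_cons] at hx
      exact key j a y ha hx
  · rw [Multiset.count_eq_zero_of_notMem (fun h => hx (hf x h)),
      Multiset.count_eq_zero_of_notMem (fun h => hx (hg x h))]

end DeBruijn

end Pool.Agent.Lib.MP_7e3249_co
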