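import Mathlib
import Pool.Agent.Lib.MP_7e3249_co.Circ

/-!
# The maximal size of a stack of cycles, and a lower bound for the number of circulations
-/

set_option autoImplicit false

namespace Pool.Agent.Lib.MP_7e3249_co

open Filter Topology

section Rank

variable {M K : ℕ}

/-- coordinates for circulations: the words that do not begin with `0`. -/
abbrev Coord (M K : ℕ) : Type := Fin M × (Fin K → Fin (M + 1))

/-- the word of a coordinate. -/
def wordOf (x : Coord M K) : List (Fin (M + 1)) := x.1.succ :: List.ofFn x.2

lemma length_wordOf (x : Coord M K) : (wordOf x).length = K + 1 := by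
  unfold wordOf; rw [List.length_cons, List.length_ofFn]

lemma wordOf_injective : Function.Injective (wordOf : Coord M K → List (Fin (M + 1))) := by
  rintro ⟨i, y⟩ ⟨j, z⟩ h
  unfold wordOf at h
  rw [List.cons.injEq] at h
  obtain ⟨h1, h2⟩ := h
  simp only at h1 h2
  rw [Fin.succ_injective _ h1, List.ofFn_injective h2]

lemma exists_coord {a : Fin (M + 1)} {y : List (Fin (M + 1))} (ha : a ≠ 0) (hy : y.length = K) :
    ∃ x : Coord M K, wordOf x = a :: y := by
  subst hy
  refine ⟨(a.pred ha, y.get), ?_⟩
  unfold wordOf
  rw [Fin.succ_pred, List.ofFn_get]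

lemma card_coord (M K : ℕ) : Fintype.card (Coord M K) = M * (M + 1) ^ K := by
  simp [Coord]

/-- the coordinate words together with `0 ... 0`. -/
def wordOf' : Coord M K ⊕ Unit → List (Fin (M + 1))
  | Sum.inl x => wordOf x
  | Sum.inr _ => List.replicate (K + 1) 0

lemma circ_determined' {f g : Multiset (List (Fin (M + 1)))}
    (hf : ∀ e ∈ f, e.length = K + 1) (hg : ∀ e ∈ g, e.length = K + 1)
    (hfc : f.map List.dropLast = f.map List.tail) (hgc : g.map List.dropLast = g.map List.tail)
    (h : ∀ b : Coord M K ⊕ Unit, f.count (wordOf' b) = g.count (wordOf' b)) : f = g := by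
  apply circ_determined hf hg hfc hgc (h (Sum.inr ()))
  intro a y ha hy
  obtain ⟨x, hx⟩ := exists_coord ha hy
  have := h (Sum.inl x)
  simp only [wordOf'] at this
  rwa [hx] at this

lemma count_sum_replicate_bind {β ι : Type*} [DecidableEq β] [DecidableEq (Finset β)]
    (T : Finset ι) (D : ι → Finset β) (n : ι → ℕ) (x : β) :
    ((∑ i ∈ T, Multiset.replicate (n i) (D i)).bind Finset.val).count x =
      ∑ i ∈ T, n i * (if x ∈ D i then 1 else 0) := by
  classical
  induction T using Finset.induction_on with
  | empty => simp
  | insert i T hi ih =>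
    rw [Finset.sum_insert hi, Finset.sum_insert hi, Multiset.add_bind, Multiset.count_add, ih]
    congr 1
    induction n i with
    | zero => simp
    | succ k ihk =>
      rw [Multiset.replicate_succ, Multiset.cons_bind, Multiset.count_add, ihk, add_mul, one_mul,
        add_comm]
      congr 1
      split_ifs with h
      · exact Multiset.count_eq_one_of_mem (D i).nodup h
      · exact Multiset.count_eq_zero_of_notMem h

/-- a stack of cycles has at most `M (M + 1)^K + 1` members. -/
theorem card_stack_le {ρ : Finset (List (Fin (M + 1))) → ℕ} (hρ : Function.Injective ρ)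
    {I : Finset (Finset (List (Fin (M + 1))))}
    (hI : I ∈ stackSets List.dropLast List.tail (words (M + 1) (K + 1)) ρ) :
    I.card ≤ M * (M + 1) ^ K + 1 := by
  classical
  obtain ⟨hIF, hst⟩ := mem_stacks.mp hI
  let N : Matrix (Coord M K ⊕ Unit) I ℤ :=
    Matrix.of (fun b D => if wordOf' b ∈ D.1 then (1 : ℤ) else 0)
  have hinj : Function.Injective N.mulVecLin := by
    rw [← LinearMap.ker_eq_bot, LinearMap.ker_eq_bot']
    intro a ha
    set A : Multiset (Finset (List (Fin (M + 1)))) :=
      ∑ D : I, Multiset.replicate (a D).toNat D.1 with hA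
    set B : Multiset (Finset (List (Fin (M + 1)))) :=
      ∑ D : I, Multiset.replicate (-(a D)).toNat D.1 with hB
    have hsub : ∀ n : I → ℕ, (∑ D : I, Multiset.replicate (n D) D.1).toFinset ⊆ I := by
      intro n D hD
      rw [Multiset.mem_toFinset, Multiset.mem_sum] at hD
      obtain ⟨D', -, hD'⟩ := hD
      rw [Multiset.eq_of_mem_replicate hD']
      exact D'.2
    have hcountn : ∀ (n : I → ℕ) (D : I),
        (∑ D : I, Multiset.replicate (n D) D.1).count D.1 = n D := by
      intro n D
      rw [Multiset.count_sum', Finset.sum_eq_single D]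
      · rw [Multiset.count_replicate_self]
      · intro D' _ hne
        rw [Multiset.count_replicate, if_neg (fun h => hne (Subtype.ext h))]
      · intro h; exact absurd (Finset.mem_univ _) h
    have hlen : ∀ n : I → ℕ, ∀ e ∈ (∑ D : I, Multiset.replicate (n D) D.1).bind Finset.val,
        e.length = K + 1 := by
      intro n e he
      obtain ⟨D, hD, heD⟩ := Multiset.mem_bind.mp he
      exact mem_words.mp (hIF D (hsub n (Multiset.mem_toFinset.mpr hD)) heD)
    have hcirc : ∀ n : I → ℕ,
        ((∑ D : I, Multiset.replicate (n D) D.1).bind Finset.val).map List.dropLast =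
        ((∑ D : I, Multiset.replicate (n D) D.1).bind Finset.val).map List.tail := by
      intro n
      apply bind_circ
      intro D hD
      exact hst.1 D (hsub n (Multiset.mem_toFinset.mpr hD))
    have hbind : A.bind Finset.val = B.bind Finset.val := by
      apply circ_determined' (hlen _) (hlen _) (hcirc _) (hcirc _)
      intro b
      rw [count_sum_replicate_bind, count_sum_replicate_bind]
      have h1 := congrFun ha b
      rw [Matrix.mulVecLin_apply, Pi.zero_apply] at h1
      unfold Matrix.mulVec dotProduct at h1
      have h2 : (∑ D : I, (((a D).toNat : ℤ) * (if wordOf' b ∈ D.1 then 1 else 0))) -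
          (∑ D : I, (((-(a D)).toNat : ℤ) * (if wordOf' b ∈ D.1 then 1 else 0))) = 0 := by
        rw [← Finset.sum_sub_distrib]
        refine Eq.trans ?_ h1
        refine Finset.sum_congr rfl (fun D _ => ?_)
        have hh : ((a D).toNat : ℤ) - ((-(a D)).toNat : ℤ) = a D := by omega
        rw [← sub_mul, hh, mul_comm]
        rfl
      have h3 : (∑ D : I, (((a D).toNat : ℤ) * (if wordOf' b ∈ D.1 then 1 else 0))) =
          (∑ D : I, (((-(a D)).toNat : ℤ) * (if wordOf' b ∈ D.1 then 1 else 0))) := by
        linarith
      exact_mod_cast h3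
    have hAB : A = B := decomp_unique hρ _ A B rfl (hst.mono (hsub _)) (hst.mono (hsub _)) hbind
    ext D
    have h4 := congrArg (Multiset.count D.1) hAB
    rw [hA, hB, hcountn, hcountn] at h4
    have h5 : a D = 0 := by omega
    rw [h5]; rfl
  have := card_le_of_injective ℤ N.mulVecLin hinj
  rw [Fintype.card_coe, Fintype.card_sum, card_coord] at this
  simpa using this

end Rank

section Lower

variable {M K : ℕ}

/-- value of a word, least significant digit first. -/
def val (z : List (Fin (M + 1))) : ℕ := Nat.ofDigits (M + 1) (z.map Fin.val)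

lemma val_append (y z : List (Fin (M + 1))) :
    val (y ++ z) = val y + (M + 1) ^ y.length * val z := by
  unfold val
  rw [List.map_append, Nat.ofDigits_append, List.length_map]

lemma val_zeros (j : ℕ) : val (List.replicate j (0 : Fin (M + 1))) = 0 := by
  unfold val
  induction j with
  | zero => simp
  | succ j ih =>
    rw [List.replicate_succ, List.map_cons, Nat.ofDigits_cons, ih]
    simp

lemma mem_facs_pad {w : List (Fin (M + 1))} {z : List (Fin (M + 1))}
    (h : z ∈ facs K (w ++ List.replicate K 0)) :
    ∃ w₁ w₂, w = w₁ ++ w₂ ∧ w₂ ≠ [] ∧ z = (w₂ ++ List.replicate K 0).take (K + 1) := by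
  induction w with
  | nil =>
    rw [List.nil_append, facs_eq_nil (by rw [List.length_replicate])] at h
    simp at h
  | cons a w ih =>
    rw [List.cons_append, facs_cons (by rw [List.length_append, List.length_replicate]; omega),
      List.mem_cons] at h
    rcases h with h | h
    · exact ⟨[], a :: w, rfl, by simp, by rw [h, List.cons_append]⟩
    · obtain ⟨w₁, w₂, h1, h2, h3⟩ := ih h
      exact ⟨a :: w₁, w₂, by rw [h1, List.cons_append], h2, h3⟩

lemma mem_facs_zeros {j : ℕ} {y : List (Fin (M + 1))} {x : Coord M K}
    (h : wordOf x ∈ facs K (List.replicate j 0 ++ y)) : wordOf x ∈ facs K y := by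
  induction j with
  | zero => simpa using h
  | succ j ih =>
    rw [List.replicate_succ, List.cons_append] at h
    by_cases hK : K ≤ (List.replicate j (0 : Fin (M + 1)) ++ y).length
    · rw [facs_cons hK, List.mem_cons] at h
      rcases h with h | h
      · unfold wordOf at h
        rw [List.take_succ_cons, List.cons.injEq] at h
        exact absurd h.1 (Fin.succ_ne_zero _)
      · exact ih h
    · rw [facs_eq_nil (by rw [List.length_cons]; omega)] at h
      simp at h

/-- the closed walk through a coordinate word. -/
def loopOf (x : Coord M K) : List (List (Fin (M + 1))) :=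
  facs K (List.replicate K 0 ++ (wordOf x ++ List.replicate K 0))

lemma length_loopOf (x : Coord M K) : (loopOf x).length = 2 * K + 1 := by
  unfold loopOf
  rw [length_facs, List.length_append, List.length_append, length_wordOf, List.length_replicate]
  omega

lemma mem_loopOf_self (x : Coord M K) : wordOf x ∈ loopOf x :=
  mem_facs_mid (length_wordOf x) _ _

lemma isWalk_loopOf (x : Coord M K) : IsWalk List.dropLast List.tail
    (List.replicate K 0) (loopOf x) (List.replicate K 0) := by
  have h : K ≤ (List.replicate K 0 ++ (wordOf x ++ List.replicate K 0)).length := by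
    rw [List.length_append, List.length_replicate]; omega
  have := isWalk_facs h
  rw [suf_append (by rw [List.length_append, List.length_replicate]; omega),
    suf_append (by rw [List.length_replicate]), suf_of_eq (by rw [List.length_replicate]),
    List.take_append_of_le_length (by rw [List.length_replicate]),
    List.take_of_length_le (by rw [List.length_replicate])] at this
  exact this

/-- another coordinate word on the closed walk of `x` has smaller value. -/
lemma val_lt_of_mem_loopOf (hM : 1 ≤ M) {x y : Coord M K} (h : wordOf y ∈ loopOf x)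
    (hne : y ≠ x) : val (wordOf y) < val (wordOf x) := by
  have h1 := mem_facs_zeros h
  obtain ⟨w₁, w₂, hw, hw2, hz⟩ := mem_facs_pad h1
  have hlen := length_wordOf x
  rw [hw, List.length_append] at hlen
  have hw1 : w₁ ≠ [] := by
    rintro rfl
    rw [List.nil_append] at hw
    rw [← hw, List.take_append_of_le_length (by rw [length_wordOf]),
      List.take_of_length_le (by rw [length_wordOf])] at hz
    exact hne (wordOf_injective hz)
  have hl1 : 1 ≤ w₁.length := List.length_pos_iff.mpr hw1
  have hl2 : 1 ≤ w₂.length := List.length_pos_iff.mpr hw2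
  have hz2 : wordOf y = w₂ ++ List.replicate (K + 1 - w₂.length) 0 := by
    rw [hz, List.take_append, List.take_of_length_le (by omega), List.take_replicate]
    congr 2
    omega
  have hv : val (wordOf y) = val w₂ := by
    rw [hz2, val_append, val_zeros, mul_zero, add_zero]
  have hpos : 0 < val (wordOf y) := by
    unfold wordOf val
    rw [List.map_cons, Nat.ofDigits_cons]
    have : 0 < (y.1.succ : Fin (M + 1)).val := Nat.succ_pos _
    omega
  rw [hv] at hpos ⊢
  rw [hw, val_append]
  have hpow : 2 ≤ (M + 1) ^ w₁.length := by
    calc 2 ≤ M + 1 := by omega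
      _ = (M + 1) ^ 1 := (pow_one _).symm
      _ ≤ (M + 1) ^ w₁.length := Nat.pow_le_pow_right (by omega) hl1
  nlinarith

/-- the circulation attached to multiplicities. -/
def circOf (L : ℕ) (a : Coord M K → ℕ) : Multiset (List (Fin (M + 1))) :=
  ∑ x, a x • (loopOf x : Multiset (List (Fin (M + 1)))) +
    (L - (2 * K + 1) * ∑ x, a x) • {List.replicate (K + 1) 0}

lemma count_circOf (L : ℕ) (a : Coord M K → ℕ) (y : Coord M K) :
    (circOf L a).count (wordOf y) = ∑ x, a x * (loopOf x : Multiset (List (Fin (M + 1)))).count (wordOf y) := by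
  unfold circOf
  rw [Multiset.count_add, Multiset.count_nsmul, Multiset.count_singleton, if_neg, mul_zero,
    add_zero, Multiset.count_sum']
  · exact Finset.sum_congr rfl (fun x _ => Multiset.count_nsmul _ _ _)
  · unfold wordOf
    rw [List.replicate_succ, List.cons.injEq]
    rintro ⟨h, -⟩
    exact Fin.succ_ne_zero _ h

lemma circOf_injective (hM : 1 ≤ M) (L : ℕ) {a b : Coord M K → ℕ}
    (h : circOf L a = circOf L b) : a = b := by
  classical
  by_contra hne
  have hex : ∃ x, a x ≠ b x := by
    by_contra hcon
    push Not at hcon
    exact hne (funext hcon)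
  obtain ⟨x, hx, hmax⟩ := Finset.exists_max_image
    (Finset.univ.filter (fun x => a x ≠ b x)) (fun x => val (wordOf x))
    (by obtain ⟨x, hx⟩ := hex; exact ⟨x, by simpa using hx⟩)
  rw [Finset.mem_filter] at hx
  have h1 := congrArg (Multiset.count (wordOf x)) h
  rw [count_circOf, count_circOf] at h1
  rw [← Finset.add_sum_erase _ _ (Finset.mem_univ x), ← Finset.add_sum_erase _ _ (Finset.mem_univ x)]
    at h1
  have h2 : ∑ y ∈ Finset.univ.erase x, a y * (loopOf y : Multiset (List (Fin (M + 1)))).count (wordOf x) =
      ∑ y ∈ Finset.univ.erase x, b y * (loopOf y : Multiset (List (Fin (M + 1)))).count (wordOf x) := by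
    refine Finset.sum_congr rfl (fun y hy => ?_)
    by_cases hab : a y = b y
    · rw [hab]
    · have hle := hmax y (by simpa using hab)
      have hxy : x ≠ y := (Finset.ne_of_mem_erase hy).symm
      rw [Multiset.count_eq_zero_of_notMem, mul_zero, mul_zero]
      intro hmem
      have := val_lt_of_mem_loopOf hM (Multiset.mem_coe.mp hmem) hxy
      omega
  rw [h2] at h1
  have h3 := Nat.add_right_cancel h1
  have hpos : 0 < (loopOf x : Multiset (List (Fin (M + 1)))).count (wordOf x) :=
    Multiset.count_pos.mpr (Multiset.mem_coe.mpr (mem_loopOf_self x))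
  exact hx.2 (Nat.eq_of_mul_eq_mul_right hpos h3)

lemma circOf_mem {L : ℕ} {a : Coord M K → ℕ} (ha : (2 * K + 1) * ∑ x, a x ≤ L) :
    circOf L a ∈ circs List.dropLast List.tail (words (M + 1) (K + 1)) L := by
  refine ⟨?_, ?_, ?_⟩
  · unfold circOf
    rw [Multiset.map_add, Multiset.map_add, Multiset.map_nsmul, Multiset.map_nsmul]
    congr 1
    · have hsum : ∀ h : List (Fin (M + 1)) → List (Fin (M + 1)),
          (∑ x, a x • (loopOf x : Multiset (List (Fin (M + 1))))).map h =
          ∑ x, (a x • (loopOf x : Multiset (List (Fin (M + 1))))).map h := fun h =>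
        map_sum (Multiset.mapAddMonoidHom h) _ _
      rw [hsum, hsum]
      refine Finset.sum_congr rfl (fun x _ => ?_)
      rw [Multiset.map_nsmul, Multiset.map_nsmul, flow_self_iff.mp (isWalk_loopOf x).flow]
    · have e1 : (List.replicate (K + 1) (0 : Fin (M + 1))).dropLast = List.replicate K 0 := by
        rw [List.replicate_succ', List.dropLast_concat]
      have e2 : (List.replicate (K + 1) (0 : Fin (M + 1))).tail = List.replicate K 0 := by
        rw [List.replicate_succ, List.tail_cons]
      rw [Multiset.map_singleton, Multiset.map_singleton, e1, e2]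
  · intro e he
    unfold circOf at he
    rw [Multiset.mem_add] at he
    rw [mem_words]
    rcases he with he | he
    · rw [Multiset.mem_sum] at he
      obtain ⟨x, -, hx⟩ := he
      have := Multiset.mem_of_mem_nsmul hx
      exact length_of_mem_facs (Multiset.mem_coe.mp this)
    · have := Multiset.mem_of_mem_nsmul he
      rw [Multiset.mem_singleton] at this
      rw [this, List.length_replicate]
  · unfold circOf
    rw [Multiset.card_add, Multiset.card_nsmul, Multiset.card_singleton, mul_one, Multiset.card_sum]
    have : ∑ x, Multiset.card (a x • (loopOf x : Multiset (List (Fin (M + 1))))) =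
        (2 * K + 1) * ∑ x, a x := by
      rw [Finset.mul_sum]
      refine Finset.sum_congr rfl (fun x _ => ?_)
      rw [Multiset.card_nsmul, Multiset.coe_card, length_loopOf, mul_comm]
    rw [this]
    omega

/-- Lower bound for the number of circulations. -/
theorem circs_lower (hM : 1 ≤ M) (L B : ℕ) (hB : (2 * K + 1) * (M * (M + 1) ^ K * B) ≤ L) :
    (B + 1) ^ (M * (M + 1) ^ K) ≤
      (circs List.dropLast List.tail (words (M + 1) (K + 1)) L).ncard := by
  have h1 : (Set.range (fun a : Coord M K → Fin (B + 1) => circOf L (fun x => (a x : ℕ)))).ncard =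
      (B + 1) ^ (M * (M + 1) ^ K) := by
    rw [← Set.image_univ, Set.InjOn.ncard_image]
    · rw [Set.ncard_univ, Nat.card_eq_fintype_card, Fintype.card_fun, Fintype.card_fin, card_coord]
    · intro a _ b _ h
      have := circOf_injective hM L h
      funext x
      exact Fin.ext (congrFun this x)
  rw [← h1]
  apply Set.ncard_le_ncard _ (finite_circs _ _)
  rintro _ ⟨a, rfl⟩
  apply circOf_mem
  refine le_trans (Nat.mul_le_mul_left _ ?_) hB
  calc ∑ x, (a x : ℕ) ≤ ∑ _x : Coord M K, B :=
        Finset.sum_le_sum (fun x _ => Nat.lt_succ_iff.mp (a x).2)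
    _ = M * (M + 1) ^ K * B := by
        rw [Finset.sum_const, Finset.card_univ, card_coord, smul_eq_mul]

end Lower

end Pool.Agent.Lib.MP_7e3249_co
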