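import Mathlib
import Pool.Agent.Lib.MP_7e3249_co.Rank

/-!
# The leading constant
-/

set_option autoImplicit false

namespace Pool.Agent.Lib.MP_7e3249_co

open Filter Topology

section Loop

variable {M K : ℕ}

/-- the loop at `0 ... 0`. -/
def loop0 (M K : ℕ) : Finset (List (Fin (M + 1))) := {List.replicate (K + 1) 0}

lemma isCycle_loop0 : IsCycle List.dropLast List.tail (loop0 M K) := by
  refine ⟨Finset.singleton_nonempty _, ?_, ?_⟩
  · have e1 : (List.replicate (K + 1) (0 : Fin (M + 1))).dropLast = List.replicate K 0 := by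
      rw [List.replicate_succ', List.dropLast_concat]
    have e2 : (List.replicate (K + 1) (0 : Fin (M + 1))).tail = List.replicate K 0 := by
      rw [List.replicate_succ, List.tail_cons]
    unfold loop0
    rw [Finset.singleton_val, Multiset.map_singleton, Multiset.map_singleton, e1, e2]
  · intro S hS hne
    unfold loop0 at hS
    rw [Finset.ssubset_singleton_iff] at hS
    rw [hS] at hne
    exact absurd hne Finset.not_nonempty_empty

lemma loop0_subset : loop0 M K ⊆ words (M + 1) (K + 1) := by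
  intro x hx
  unfold loop0 at hx
  rw [Finset.mem_singleton] at hx
  rw [mem_words, hx, List.length_replicate]

lemma eq_loop0_of_subset {C : Finset (List (Fin (M + 1)))}
    (hC : IsCycle List.dropLast List.tail C) (h : loop0 M K ⊆ C) : C = loop0 M K := by
  by_contra hne
  exact hC.2.2 _ (Finset.ssubset_iff_subset_ne.mpr ⟨h, Ne.symm hne⟩) isCycle_loop0.1
    isCycle_loop0.2.1

lemma isStack_insert_loop0 {ρ : Finset (List (Fin (M + 1))) → ℕ}
    {I : Finset (Finset (List (Fin (M + 1))))} (hI : IsStack List.dropLast List.tail ρ I) :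
    IsStack List.dropLast List.tail ρ (insert (loop0 M K) I) := by
  refine ⟨?_, ?_⟩
  · intro D hD
    rw [Finset.mem_insert] at hD
    rcases hD with rfl | hD
    · exact isCycle_loop0
    · exact hI.1 D hD
  · intro C hC hcov
    by_cases hCl : C = loop0 M K
    · subst hCl
      have hmem : List.replicate (K + 1) (0 : Fin (M + 1)) ∈ loop0 M K := by
        unfold loop0; exact Finset.mem_singleton_self _
      have := hcov hmem
      simp only [Finset.mem_biUnion, Finset.mem_filter, Finset.mem_insert, id] at this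
      obtain ⟨D, ⟨hD, hr⟩, heD⟩ := this
      rcases hD with rfl | hD
      · exact absurd hr (lt_irrefl _)
      · have hsub : loop0 M K ⊆ D := by
          unfold loop0; exact Finset.singleton_subset_iff.mpr heD
        have := eq_loop0_of_subset (hI.1 D hD) hsub
        rw [this] at hr
        exact absurd hr (lt_irrefl _)
    · refine hI.2 C hC ?_
      intro e he
      have := hcov he
      simp only [Finset.mem_biUnion, Finset.mem_filter, Finset.mem_insert, id] at this ⊢
      obtain ⟨D, ⟨hD, hr⟩, heD⟩ := this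
      rcases hD with rfl | hD
      · exfalso
        unfold loop0 at heD
        rw [Finset.mem_singleton] at heD
        subst heD
        apply hCl
        apply eq_loop0_of_subset hC
        unfold loop0
        exact Finset.singleton_subset_iff.mpr he
      · exact ⟨D, ⟨hD, hr⟩, heD⟩

/-- a stack of maximal size contains the loop. -/
lemma loop0_mem {ρ : Finset (List (Fin (M + 1))) → ℕ} (hρ : Function.Injective ρ)
    {I : Finset (Finset (List (Fin (M + 1))))}
    (hI : I ∈ stackSets List.dropLast List.tail (words (M + 1) (K + 1)) ρ)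
    (hc : I.card = M * (M + 1) ^ K + 1) : loop0 M K ∈ I := by
  by_contra hn
  have h1 : insert (loop0 M K) I ∈
      stackSets List.dropLast List.tail (words (M + 1) (K + 1)) ρ := by
    obtain ⟨h2, h3⟩ := mem_stacks.mp hI
    refine mem_stacks.mpr ⟨?_, isStack_insert_loop0 h3⟩
    intro D hD
    rw [Finset.mem_insert] at hD
    rcases hD with rfl | hD
    · exact loop0_subset
    · exact h2 D hD
  have h2 := card_stack_le hρ h1
  rw [Finset.card_insert_of_notMem hn, hc] at h2
  omega

end Loop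

section Limits

theorem circs_tendsto {M K : ℕ} (hM : 1 ≤ M) {ρ : Finset (List (Fin (M + 1))) → ℕ}
    (hρ : Function.Injective ρ) :
    Tendsto (fun L : ℕ => ((circs List.dropLast List.tail (words (M + 1) (K + 1)) L).ncard : ℝ) /
      (L : ℝ) ^ (M * (M + 1) ^ K)) atTop (𝓝 (leadConst (M + 1) (K + 1) ρ)) := by
  have hd : 1 ≤ M * (M + 1) ^ K := Nat.mul_pos hM (Nat.pow_pos (by omega))
  have hdd : (M + 1) ^ (K + 1 - 1) * (M + 1 - 1) = M * (M + 1) ^ K := by
    rw [Nat.add_sub_cancel, Nat.add_sub_cancel, mul_comm]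
  unfold leadConst
  rw [hdd, Finset.sum_filter]
  have h1 : ∀ L : ℕ, ((circs List.dropLast List.tail (words (M + 1) (K + 1)) L).ncard : ℝ) /
      (L : ℝ) ^ (M * (M + 1) ^ K) =
      ∑ I ∈ stackSets List.dropLast List.tail (words (M + 1) (K + 1)) ρ,
        ((Mult I Finset.card L).ncard : ℝ) / (L : ℝ) ^ (M * (M + 1) ^ K) := by
    intro L
    rw [ncard_circs _ hρ, Nat.cast_sum, Finset.sum_div]
  simp only [h1]
  apply tendsto_finsetSum
  intro I hI
  have hpos := (mem_stacks.mp hI).2.card_pos'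
  have hle := card_stack_le hρ hI
  split_ifs with hc
  · exact Mult_tendsto Finset.card I hpos (loop0_mem hρ hI hc) (Finset.card_singleton _) hc
  · exact Mult_tendsto_zero Finset.card I hpos hd (by omega)

/-- the leading constant is positive. -/
theorem leadConst_pos {M K : ℕ} (hM : 1 ≤ M) {ρ : Finset (List (Fin (M + 1))) → ℕ}
    (hρ : Function.Injective ρ) : 0 < leadConst (M + 1) (K + 1) ρ := by
  have hd : 1 ≤ M * (M + 1) ^ K := Nat.mul_pos hM (Nat.pow_pos (by omega))
  set d := M * (M + 1) ^ K with hdef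
  set R : ℕ := (2 * K + 1) * d with hR
  have hRpos : 0 < R := Nat.mul_pos (by omega) hd
  have h0 : (0 : ℝ) < 1 / (R : ℝ) ^ d := by
    have : (0 : ℝ) < R := by exact_mod_cast hRpos
    positivity
  refine lt_of_lt_of_le h0 (ge_of_tendsto (circs_tendsto (K := K) hM hρ) ?_)
  filter_upwards [eventually_gt_atTop 0] with L hL
  have hL' : (0 : ℝ) < L := by exact_mod_cast hL
  have hR' : (0 : ℝ) < R := by exact_mod_cast hRpos
  have h1 := circs_lower (K := K) hM L (L / R) (by
    rw [← hdef, ← mul_assoc, ← hR]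
    exact Nat.mul_div_le L R)
  rw [← hdef] at h1 ⊢
  rw [div_le_div_iff₀ (by positivity) (by positivity), one_mul]
  have h2 : L < R * (L / R + 1) := by
    have := Nat.lt_mul_div_succ L hRpos
    exact this
  have h3 : (L : ℝ) ≤ (R : ℝ) * ((L / R : ℕ) + 1 : ℝ) := by exact_mod_cast h2.le
  calc (L : ℝ) ^ d ≤ ((R : ℝ) * ((L / R : ℕ) + 1 : ℝ)) ^ d := pow_le_pow_left₀ hL'.le h3 d
    _ = ((L / R : ℕ) + 1 : ℝ) ^ d * (R : ℝ) ^ d := by rw [mul_pow, mul_comm]
    _ ≤ _ := by
        apply mul_le_mul_of_nonneg_right _ (by positivity)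
        exact_mod_cast h1

lemma ratio_tendsto (a b d : ℕ) :
    Tendsto (fun L : ℕ => (((L + a : ℕ) : ℝ) / ((L + b : ℕ) : ℝ)) ^ d) atTop (𝓝 1) := by
  have h1 : Tendsto (fun L : ℕ => ((a : ℝ) - b) / ((L + b : ℕ) : ℝ)) atTop (𝓝 0) :=
    (tendsto_add_atTop_iff_nat (f := fun L : ℕ => ((a : ℝ) - b) / (L : ℝ)) b).mpr
      (tendsto_const_div_atTop_nhds_zero_nat _)
  have h2 : Tendsto (fun L : ℕ => (1 + ((a : ℝ) - b) / ((L + b : ℕ) : ℝ)) ^ d) atTop
      (𝓝 ((1 + 0) ^ d)) := (tendsto_const_nhds.add h1).pow d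
  rw [add_zero, one_pow] at h2
  refine h2.congr' ?_
  filter_upwards [eventually_gt_atTop 0] with L hL
  have hL' : (0 : ℝ) < ((L + b : ℕ) : ℝ) := by positivity
  congr 1
  rw [eq_div_iff hL'.ne', add_mul, div_mul_cancel₀ _ hL'.ne']
  push_cast
  ring

theorem flows_tendsto {M K : ℕ} (hM : 1 ≤ M) {ρ : Finset (List (Fin (M + 1))) → ℕ}
    (hρ : Function.Injective ρ) {u v : List (Fin (M + 1))} (hu : u.length = K)
    (hv : v.length = K) :
    Tendsto (fun L : ℕ => ((flows List.dropLast List.tail (words (M + 1) (K + 1)) u v L).ncard : ℝ) /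
      (L : ℝ) ^ (M * (M + 1) ^ K)) atTop (𝓝 (leadConst (M + 1) (K + 1) ρ)) := by
  set d := M * (M + 1) ^ K with hd
  obtain ⟨p, hp, hpF⟩ := exists_full_walk hu hv
  obtain ⟨p', hp', hpF'⟩ := exists_full_walk hv hu
  set h := p.length with hh
  set h' := p'.length with hh'
  have hx := circs_tendsto (K := K) hM hρ
  rw [← hd] at hx
  set x : ℕ → ℝ := fun L => ((circs List.dropLast List.tail (words (M + 1) (K + 1)) L).ncard : ℝ)
    with hxdef
  set y : ℕ → ℝ := fun L =>
    ((flows List.dropLast List.tail (words (M + 1) (K + 1)) u v L).ncard : ℝ) with hydef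
  rw [← tendsto_add_atTop_iff_nat h]
  have hlow : Tendsto (fun L : ℕ => x L / (L : ℝ) ^ d * (((L + 0 : ℕ) : ℝ) / ((L + h : ℕ) : ℝ)) ^ d)
      atTop (𝓝 (leadConst (M + 1) (K + 1) ρ)) := by
    have := hx.mul (ratio_tendsto 0 h d)
    rwa [mul_one] at this
  have hup : Tendsto (fun L : ℕ => x (L + (h + h')) / ((L + (h + h') : ℕ) : ℝ) ^ d *
      (((L + (h + h') : ℕ) : ℝ) / ((L + h : ℕ) : ℝ)) ^ d)
      atTop (𝓝 (leadConst (M + 1) (K + 1) ρ)) := by
    have h1 := (tendsto_add_atTop_iff_nat (f := fun L : ℕ => x L / (L : ℝ) ^ d) (h + h')).mpr hx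
    have := h1.mul (ratio_tendsto (h + h') h d)
    rwa [mul_one] at this
  refine tendsto_of_tendsto_of_tendsto_of_le_of_le' hlow hup ?_ ?_
  · filter_upwards [eventually_gt_atTop 0] with L hL
    have hL' : (0 : ℝ) < L := by exact_mod_cast hL
    have hLh : (0 : ℝ) < ((L + h : ℕ) : ℝ) := by positivity
    have h1 : x L ≤ y (L + h) := Nat.cast_le.mpr (circs_le_flows _ hp hpF L)
    calc x L / (L : ℝ) ^ d * (((L + 0 : ℕ) : ℝ) / ((L + h : ℕ) : ℝ)) ^ d
        = x L / ((L + h : ℕ) : ℝ) ^ d := by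
          rw [Nat.add_zero, div_pow]; field_simp
      _ ≤ y (L + h) / ((L + h : ℕ) : ℝ) ^ d := by gcongr
  · filter_upwards [eventually_gt_atTop 0] with L hL
    have hL' : (0 : ℝ) < L := by exact_mod_cast hL
    have hLh : (0 : ℝ) < ((L + h : ℕ) : ℝ) := by positivity
    have hLh' : (0 : ℝ) < ((L + (h + h') : ℕ) : ℝ) := by positivity
    have h1 : y (L + h) ≤ x (L + (h + h')) := by
      have := flows_le_circs (words (M + 1) (K + 1)) hp' (fun e he => (hpF' e).mp he) (L + h)
      rw [add_assoc] at this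
      exact Nat.cast_le.mpr this
    calc y (L + h) / ((L + h : ℕ) : ℝ) ^ d ≤ x (L + (h + h')) / ((L + h : ℕ) : ℝ) ^ d := by
          gcongr
      _ = x (L + (h + h')) / ((L + (h + h') : ℕ) : ℝ) ^ d *
      (((L + (h + h') : ℕ) : ℝ) / ((L + h : ℕ) : ℝ)) ^ d := by
          rw [div_pow]; field_simp

/-- **The asymptotic behaviour of the number of classes containing an `n`th power.** -/
theorem c_tendsto {M K n : ℕ} (hM : 1 ≤ M) (hn : 1 ≤ n) {ρ : Finset (List (Fin (M + 1))) → ℕ}
    (hρ : Function.Injective ρ) :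
    Tendsto (fun l : ℕ => (c (M + 1) (K + 1) n (n * l) : ℝ) / (l : ℝ) ^ (M * (M + 1) ^ K)) atTop
      (𝓝 (((M + 1 : ℕ) : ℝ) ^ (2 * K) * leadConst (M + 1) (K + 1) ρ)) := by
  set d := M * (M + 1) ^ K with hd
  rw [← tendsto_add_atTop_iff_nat K]
  have h1 : Tendsto (fun L : ℕ => ∑ q ∈ words (M + 1) K ×ˢ words (M + 1) K,
      ((flows List.dropLast List.tail (words (M + 1) (K + 1)) q.1 q.2 L).ncard : ℝ) /
        (L : ℝ) ^ d) atTop
      (𝓝 (∑ _q ∈ words (M + 1) K ×ˢ words (M + 1) K, leadConst (M + 1) (K + 1) ρ)) := by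
    apply tendsto_finsetSum
    intro q hq
    rw [Finset.mem_product, mem_words, mem_words] at hq
    exact flows_tendsto hM hρ hq.1 hq.2
  rw [Finset.sum_const, Finset.card_product, card_words, nsmul_eq_mul] at h1
  have h2 := h1.mul (ratio_tendsto 0 K d)
  rw [mul_one] at h2
  have e : (((M + 1) ^ K * (M + 1) ^ K : ℕ) : ℝ) = ((M + 1 : ℕ) : ℝ) ^ (2 * K) := by
    push_cast; ring
  rw [e] at h2
  refine h2.congr' ?_
  filter_upwards [eventually_gt_atTop 0] with L hL
  have hL' : (0 : ℝ) < L := by exact_mod_cast hL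
  have hLK : (0 : ℝ) < ((L + K : ℕ) : ℝ) := by positivity
  rw [c_eq_flows hn (by omega : K ≤ L + K), Nat.add_sub_cancel, Nat.cast_sum, ← Finset.sum_div,
    div_pow, show L + 0 = L from rfl]
  field_simp

end Limits

end Pool.Agent.Lib.MP_7e3249_co
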